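import Mathlib

/-! # [GRL-F1] parametrisation by arc length -/

set_option autoImplicit false

open MeasureTheory Set Filter Topology Metric
open scoped ENNReal NNReal

namespace Pool.Agent.MP_ccb05f_an.G2

theorem arc_ge {V : Type} [MetricSpace V] [MeasurableSpace V] [BorelSpace V] (φ : ℝ → V)
    {a b : ℝ} (hab : a ≤ b) (hφ : ContinuousOn φ (Icc a b)) :
    ENNReal.ofReal (dist (φ a) (φ b)) ≤ μH[1] (φ '' Icc a b) := by
  have h1 : LipschitzWith 1 (fun z : V => dist (φ a) z) := LipschitzWith.dist_right (φ a)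
  have h2 := h1.hausdorffMeasure_image_le (d := 1) (by norm_num) (φ '' Icc a b)
  have h3 : Icc 0 (dist (φ a) (φ b)) ⊆ (fun z : V => dist (φ a) z) '' (φ '' Icc a b) := by
    rw [image_image]
    have h4 : ContinuousOn (fun x => dist (φ a) (φ x)) (Icc a b) :=
      h1.continuous.comp_continuousOn hφ
    have h5 := intermediate_value_Icc hab h4
    rw [dist_self] at h5
    exact h5
  calc ENNReal.ofReal (dist (φ a) (φ b))
      = μH[1] (Icc 0 (dist (φ a) (φ b))) := by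
        rw [hausdorffMeasure_real, Real.volume_Icc, sub_zero]
    _ ≤ μH[1] ((fun z : V => dist (φ a) z) '' (φ '' Icc a b)) := measure_mono h3
    _ ≤ _ := by simpa using h2

theorem arc_add {V : Type} [MetricSpace V] [MeasurableSpace V] [BorelSpace V] (φ : ℝ → V)
    (hφ : ContinuousOn φ (Icc 0 1)) (hinj : InjOn φ (Icc 0 1)) {u u' : ℝ}
    (h0 : 0 ≤ u) (h1 : u ≤ u') (h2 : u' ≤ 1) :
    (μH[1] : Measure V) (φ '' Icc 0 u') = μH[1] (φ '' Icc 0 u) + μH[1] (φ '' Icc u u') := by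
  have hm : MeasurableSet (φ '' Icc 0 u) :=
    (isCompact_Icc.image_of_continuousOn (hφ.mono (Icc_subset_Icc_right (h1.trans h2)))).isClosed.measurableSet
  have hs : φ '' Icc 0 u' = φ '' Icc 0 u ∪ φ '' Ioc u u' := by
    rw [← image_union, Icc_union_Ioc_eq_Icc h0 h1]
  have hd : Disjoint (φ '' Icc 0 u) (φ '' Ioc u u') := by
    rw [Set.disjoint_left]
    rintro z ⟨x, hx, rfl⟩ ⟨y, hy, hxy⟩
    have hyx : y = x := hinj ⟨h0.trans hy.1.le, hy.2.trans h2⟩ ⟨hx.1, hx.2.trans (h1.trans h2)⟩ hxy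
    subst hyx
    exact absurd hx.2 (not_le.2 hy.1)
  have : NullSingletonClass (μH[1] : Measure V) := Measure.nullSingletonClass_hausdorff V one_pos
  have hp : (μH[1] : Measure V) (φ '' Icc u u') = μH[1] (φ '' Ioc u u') := by
    apply le_antisymm
    · have h4 : φ '' Icc u u' ⊆ {φ u} ∪ φ '' Ioc u u' := by
        rw [← Icc_union_Ioc_eq_Icc le_rfl h1, image_union, Icc_self, image_singleton]
      calc (μH[1] : Measure V) (φ '' Icc u u') ≤ μH[1] ({φ u} ∪ φ '' Ioc u u') := measure_mono h4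
        _ ≤ μH[1] {φ u} + μH[1] (φ '' Ioc u u') := measure_union_le _ _
        _ = _ := by rw [measure_singleton, zero_add]
    · exact measure_mono (image_mono Ioc_subset_Icc_self)
  rw [hp, hs, measure_union' hd hm]

theorem arc_cont {V : Type} [MetricSpace V] [MeasurableSpace V] [BorelSpace V] (φ : ℝ → V)
    (hφ : ContinuousOn φ (Icc 0 1)) (hinj : InjOn φ (Icc 0 1)) (hfin : μH[1] (φ '' Icc 0 1) ≠ ∞)
    {u : ℝ} {ε : ℝ} (hε : 0 < ε) :
    ∃ r > 0, (μH[1] : Measure V) (φ '' (Icc (u - r) (u + r) ∩ Icc 0 1)) < ENNReal.ofReal ε := by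
  have : NullSingletonClass (μH[1] : Measure V) := Measure.nullSingletonClass_hausdorff V one_pos
  set s : ℝ → Set V := fun r => φ '' (Icc (u - r) (u + r) ∩ Icc 0 1) with hs
  have h1 : ∀ r > (0 : ℝ), NullMeasurableSet (s r) (μH[1] : Measure V) := by
    intro r hr
    have : IsCompact (s r) :=
      (isCompact_Icc.inter_right isClosed_Icc).image_of_continuousOn (hφ.mono inter_subset_right)
    exact this.isClosed.measurableSet.nullMeasurableSet
  have h2 : ∀ i j : ℝ, 0 < i → i ≤ j → s i ⊆ s j := by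
    intro i j _ hij
    refine image_mono (inter_subset_inter_left _ (Icc_subset_Icc ?_ ?_)) <;> linarith
  have h3 : ∃ r > (0 : ℝ), (μH[1] : Measure V) (s r) ≠ ∞ :=
    ⟨1, one_pos, ne_top_of_le_ne_top hfin (measure_mono (image_mono inter_subset_right))⟩
  have h4 := tendsto_measure_biInter_gt h1 h2 h3
  have h5 : (⋂ r > (0 : ℝ), s r) ⊆ {φ u} := by
    intro z hz
    simp only [mem_iInter] at hz
    obtain ⟨x, ⟨_, hx1⟩, hx⟩ := hz 1 one_pos
    have : x = u := by
      by_contra hne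
      have hpos : 0 < |x - u| / 2 := by
        have := abs_pos.2 (sub_ne_zero.2 hne)
        linarith
      obtain ⟨y, ⟨hy1, hy2⟩, hy⟩ := hz _ hpos
      have hxy : y = x := hinj hy2 hx1 (hy.trans hx.symm)
      subst hxy
      have : |y - u| ≤ |y - u| / 2 := by
        rw [abs_le]
        constructor <;> linarith [hy1.1, hy1.2]
      linarith
    rw [mem_singleton_iff, ← hx, this]
  have h6 : (μH[1] : Measure V) (⋂ r > (0 : ℝ), s r) = 0 :=
    measure_mono_null h5 (measure_singleton _)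
  rw [h6] at h4
  have h7 : ∀ᶠ r in 𝓝[>] (0 : ℝ), ((μH[1] : Measure V) ∘ s) r < ENNReal.ofReal ε :=
    h4.eventually (gt_mem_nhds (ENNReal.ofReal_pos.2 hε))
  have h8 : ∀ᶠ r in 𝓝[>] (0 : ℝ), 0 < r := eventually_mem_nhdsWithin
  obtain ⟨r, hr1, hr2⟩ := (h7.and h8).exists
  exact ⟨r, hr2, hr1⟩

/-- [GRL-F1] `Vf u = (μH[1] (φ '' Icc 0 u)).toReal`. For `u < u'`:
`Vf u' - Vf u = μH[1] (φ '' Ioc u u') ≥ dist (φ u) (φ u') > 0` (injectivity, measurability of images of intervals; the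
`1`-Lipschitz function `dist (φ u) ·` maps `φ '' Icc u u'` onto a set containing `Icc 0 (dist (φ u) (φ u'))`, and
`hausdorffMeasure_real`; a point has `μH[1]` measure `0`). Continuity: continuity of the finite measure
`μH[1].restrict (φ '' Icc 0 1)` along monotone unions / intersections of `φ '' Ioc`, points are null.
`Λ = Vf 1`, `Ψ v = φ (Vf⁻¹ (max 0 (min Λ v)))` (`Vf : Icc 0 1 → Icc 0 Λ` is an order isomorphism; or take
`Function.invFunOn`), `1`-Lipschitz by the inequality above. -/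
theorem arclength {V : Type} [MetricSpace V] [MeasurableSpace V] [BorelSpace V] (φ : ℝ → V)
    (hφ : ContinuousOn φ (Icc 0 1)) (hinj : InjOn φ (Icc 0 1)) (hfin : μH[1] (φ '' Icc 0 1) ≠ ∞) :
    ∃ (Λ : ℝ) (Vf : ℝ → ℝ) (Ψ : ℝ → V), 0 < Λ ∧ ContinuousOn Vf (Icc 0 1) ∧
      StrictMonoOn Vf (Icc 0 1) ∧ Vf 0 = 0 ∧ Vf 1 = Λ ∧ LipschitzWith 1 Ψ ∧
      ∀ u ∈ Icc (0 : ℝ) 1, Ψ (Vf u) = φ u := by
  have : NullSingletonClass (μH[1] : Measure V) := Measure.nullSingletonClass_hausdorff V one_pos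
  set Vf : ℝ → ℝ := fun u => ((μH[1] : Measure V) (φ '' Icc 0 u)).toReal with hVf
  have hfin' : ∀ {a b : ℝ}, 0 ≤ a → b ≤ 1 → (μH[1] : Measure V) (φ '' Icc a b) ≠ ∞ := by
    intro a b ha hb
    exact ne_top_of_le_ne_top hfin (measure_mono (image_mono (Icc_subset_Icc ha hb)))
  have hdiff : ∀ {u u' : ℝ}, 0 ≤ u → u ≤ u' → u' ≤ 1 →
      Vf u' = Vf u + ((μH[1] : Measure V) (φ '' Icc u u')).toReal := by
    intro u u' h0 h1 h2
    simp only [hVf]
    rw [arc_add φ hφ hinj h0 h1 h2,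
      ENNReal.toReal_add (hfin' le_rfl (h1.trans h2)) (hfin' h0 h2)]
  have hdist : ∀ {u u' : ℝ}, 0 ≤ u → u ≤ u' → u' ≤ 1 → dist (φ u) (φ u') ≤ Vf u' - Vf u := by
    intro u u' h0 h1 h2
    rw [hdiff h0 h1 h2, add_sub_cancel_left]
    have h3 := arc_ge φ h1 (hφ.mono (Icc_subset_Icc h0 h2))
    exact (ENNReal.ofReal_le_iff_le_toReal (hfin' h0 h2)).1 h3
  have hdist' : ∀ {u u' : ℝ}, u ∈ Icc (0 : ℝ) 1 → u' ∈ Icc (0 : ℝ) 1 →
      dist (φ u) (φ u') ≤ |Vf u - Vf u'| := by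
    intro u u' hu hu'
    rcases le_total u u' with h | h
    · rw [abs_sub_comm]
      exact (hdist hu.1 h hu'.2).trans (le_abs_self _)
    · rw [dist_comm]
      exact (hdist hu'.1 h hu.2).trans (le_abs_self _)
  have hmono : StrictMonoOn Vf (Icc 0 1) := by
    intro u hu u' hu' h
    have h1 := hdist hu.1 h.le hu'.2
    have h2 : 0 < dist (φ u) (φ u') := dist_pos.2 fun h3 => h.ne (hinj hu hu' h3)
    linarith
  have hcont : ContinuousOn Vf (Icc 0 1) := by
    rw [Metric.continuousOn_iff]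
    intro u hu ε hε
    obtain ⟨r, hr, hrε⟩ := arc_cont (u := u) φ hφ hinj hfin hε
    refine ⟨r, hr, fun u' hu' hd => ?_⟩
    rw [Real.dist_eq, abs_lt] at hd
    rw [Real.dist_eq]
    have key : ∀ {a b : ℝ}, 0 ≤ a → a ≤ b → b ≤ 1 → u - r ≤ a → b ≤ u + r →
        |Vf b - Vf a| < ε := by
      intro a b ha hab hb h1 h2
      rw [hdiff ha hab hb, add_sub_cancel_left, abs_of_nonneg ENNReal.toReal_nonneg]
      have h3 : (μH[1] : Measure V) (φ '' Icc a b) < ENNReal.ofReal ε :=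
        lt_of_le_of_lt (measure_mono (image_mono (subset_inter (Icc_subset_Icc h1 h2)
          (Icc_subset_Icc ha hb)))) hrε
      exact (ENNReal.lt_ofReal_iff_toReal_lt (hfin' ha hb)).1 h3
    rcases le_total u u' with h | h
    · exact key hu.1 h hu'.2 (by linarith) (by linarith)
    · rw [abs_sub_comm]
      exact key hu'.1 h hu.2 (by linarith) (by linarith)
  have hV0 : Vf 0 = 0 := by
    simp only [hVf, Icc_self, image_singleton, measure_singleton, ENNReal.toReal_zero]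
  have h01 : (0 : ℝ) ∈ Icc (0 : ℝ) 1 := ⟨le_rfl, zero_le_one⟩
  have h11 : (1 : ℝ) ∈ Icc (0 : ℝ) 1 := ⟨zero_le_one, le_rfl⟩
  have hΛ : 0 < Vf 1 := by
    have := hmono h01 h11 one_pos
    rwa [hV0] at this
  have hsurj : ∀ v : ℝ, v ∈ Icc 0 (Vf 1) → v ∈ Vf '' Icc 0 1 := by
    intro v hv
    have := intermediate_value_Icc zero_le_one hcont
    rw [hV0] at this
    exact this hv
  set cp : ℝ → ℝ := fun v => max 0 (min (Vf 1) v) with hcp
  have hcpm : ∀ v, cp v ∈ Icc 0 (Vf 1) := fun v =>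
    ⟨le_max_left _ _, max_le hΛ.le (min_le_left _ _)⟩
  have hcpL : ∀ v v', |cp v - cp v'| ≤ |v - v'| := by
    intro v v'
    have h1 : |cp v - cp v'| ≤ |min (Vf 1) v - min (Vf 1) v'| := by
      simp only [hcp]
      refine (abs_max_sub_max_le_max _ _ _ _).trans ?_
      rw [sub_self, abs_zero, max_eq_right (abs_nonneg _)]
    have h2 : |min (Vf 1) v - min (Vf 1) v'| ≤ |v - v'| := by
      refine (abs_min_sub_min_le_max _ _ _ _).trans ?_
      rw [sub_self, abs_zero, max_eq_right (abs_nonneg _)]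
    exact h1.trans h2
  have hinv : ∀ v, Function.invFunOn Vf (Icc 0 1) (cp v) ∈ Icc (0 : ℝ) 1 ∧
      Vf (Function.invFunOn Vf (Icc 0 1) (cp v)) = cp v := fun v =>
    ⟨Function.invFunOn_mem (hsurj _ (hcpm v)), Function.invFunOn_eq (hsurj _ (hcpm v))⟩
  refine ⟨Vf 1, Vf, fun v => φ (Function.invFunOn Vf (Icc 0 1) (cp v)), hΛ, hcont, hmono, hV0,
    rfl, ?_, ?_⟩
  · refine LipschitzWith.of_dist_le_mul fun v v' => ?_
    rw [NNReal.coe_one, one_mul, Real.dist_eq]
    refine (hdist' (hinv v).1 (hinv v').1).trans ?_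
    rw [(hinv v).2, (hinv v').2]
    exact hcpL v v'
  · intro u hu
    have h1 : cp (Vf u) = Vf u := by
      have h2 : 0 ≤ Vf u := ENNReal.toReal_nonneg
      have h3 : Vf u ≤ Vf 1 := hmono.monotoneOn hu h11 hu.2
      simp only [hcp]
      rw [min_eq_right h3, max_eq_right h2]
    have h2 := hinv (Vf u)
    rw [h1] at h2
    have h3 : Function.invFunOn Vf (Icc 0 1) (Vf u) = u := hmono.injOn h2.1 hu h2.2
    simp only [h1, h3]

end Pool.Agent.MP_ccb05f_an.G2
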