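import Pool.Agent.MP_ccb05f_an.Defs
import Mathlib

/-!
# [GRL] MP_ccb05f_an, `d = 2`: basic definitions

`E2 = ℝ²`, `E4 = ℝ² × ℝ²` (Euclidean), `Hm` = homeomorphisms of the square, `pt f x = (x, f x)`,
coordinates `co c`, `c = (false, i)` source, `c = (true, j)` target.
-/

set_option autoImplicit false

open MeasureTheory Set Filter Topology Metric
open scoped ENNReal NNReal

namespace Pool.Agent.MP_ccb05f_an.G2

abbrev E2 := EuclideanSpace ℝ (Fin 2)
abbrev E4 := WithLp 2 (E2 × E2)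
/-- homeomorphisms of the closed unit square -/
abbrev Hm := Cube 2 ≃ₜ Cube 2
/-- indices of the four coordinates: `(false, i)` source, `(true, j)` target -/
abbrev Ix := Bool × Fin 2

/-- the point of the graph over `x` -/
def pt (f : Hm) (x : Cube 2) : E4 := WithLp.toLp 2 ((x : E2), (f x : E2))

theorem graph_eq (f : Hm) : graph f = range (pt f) := rfl

theorem pt_mem (f : Hm) (x : Cube 2) : pt f x ∈ graph f := ⟨x, rfl⟩

/-- the coordinate functions -/
def co (c : Ix) (z : E4) : ℝ := if c.1 = true then z.snd c.2 else z.fst c.2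

@[simp] theorem co_false (i : Fin 2) (z : E4) : co (false, i) z = z.fst i := by simp [co]
@[simp] theorem co_true (j : Fin 2) (z : E4) : co (true, j) z = z.snd j := by simp [co]

theorem co_pt_false (f : Hm) (x : Cube 2) (i : Fin 2) : co (false, i) (pt f x) = (x : E2) i := by
  simp [pt]
theorem co_pt_true (f : Hm) (x : Cube 2) (j : Fin 2) : co (true, j) (pt f x) = (f x : E2) j := by
  simp [pt]

theorem co_add (c : Ix) (z z' : E4) : co c (z + z') = co c z + co c z' := by
  obtain ⟨b, i⟩ := c; cases b <;> simp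
theorem co_sub (c : Ix) (z z' : E4) : co c (z - z') = co c z - co c z' := by
  obtain ⟨b, i⟩ := c; cases b <;> simp
theorem co_smul (c : Ix) (r : ℝ) (z : E4) : co c (r • z) = r * co c z := by
  obtain ⟨b, i⟩ := c; cases b <;> simp
theorem co_zero (c : Ix) : co c 0 = 0 := by
  obtain ⟨b, i⟩ := c; cases b <;> simp

theorem norm_sq_eq (z : E4) : ‖z‖ ^ 2 = ∑ c : Ix, co c z ^ 2 := by
  rw [WithLp.prod_norm_sq_eq_of_L2, EuclideanSpace.norm_sq_eq, EuclideanSpace.norm_sq_eq,
    Fintype.sum_prod_type]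
  simp [Fin.sum_univ_two]
  ring

theorem abs_co_le (c : Ix) (z : E4) : |co c z| ≤ ‖z‖ := by
  have h : co c z ^ 2 ≤ ‖z‖ ^ 2 := by
    rw [norm_sq_eq]
    exact Finset.single_le_sum (f := fun c => co c z ^ 2) (fun c _ => sq_nonneg _)
      (Finset.mem_univ c)
  exact abs_le_of_sq_le_sq h (norm_nonneg _)

theorem ext_co {z z' : E4} (h : ∀ c, co c z = co c z') : z = z' := by
  have h1 : ‖z - z'‖ ^ 2 = 0 := by
    rw [norm_sq_eq]
    refine Finset.sum_eq_zero fun c _ => ?_
    rw [co_sub, h c, sub_self]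
    norm_num
  have h2 : ‖z - z'‖ = 0 := pow_eq_zero_iff (two_ne_zero) |>.1 h1
  exact sub_eq_zero.1 (norm_eq_zero.1 h2)

/-- the coordinate functions as continuous linear maps -/
noncomputable def coL (c : Ix) : E4 →L[ℝ] ℝ :=
  LinearMap.mkContinuous ⟨⟨co c, co_add c⟩, co_smul c⟩ 1 (fun z => by
    rw [one_mul]; exact abs_co_le c z)

@[simp] theorem coL_apply (c : Ix) (z : E4) : coL c z = co c z := rfl

theorem continuous_co (c : Ix) : Continuous (co c) := (coL c).continuous

theorem lipschitz_co (c : Ix) : LipschitzWith 1 (co c) := by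
  refine LipschitzWith.of_dist_le_mul fun z z' => ?_
  rw [Real.dist_eq, ← co_sub, NNReal.coe_one, one_mul, dist_eq_norm]
  exact abs_co_le c _

theorem norm_le_of_co {z : E4} {r : ℝ} (hr : 0 ≤ r) (h : ∀ c, |co c z| ≤ r) : ‖z‖ ≤ 2 * r := by
  refine abs_le_of_sq_le_sq' ?_ (by positivity) |>.2
  rw [norm_sq_eq, Fintype.sum_prod_type]
  simp only [Fintype.sum_bool, Fin.sum_univ_two]
  have h1 : ∀ c, co c z ^ 2 ≤ r ^ 2 := fun c => sq_le_sq' (neg_le_of_abs_le (h c)) (le_of_abs_le (h c))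
  nlinarith [h1 (true, 0), h1 (true, 1), h1 (false, 0), h1 (false, 1)]

theorem pt_injective (f : Hm) : Function.Injective (pt f) := by
  intro x y h
  have h1 : (pt f x).fst = (pt f y).fst := by rw [h]
  exact Subtype.ext h1

theorem continuous_pt (f : Hm) : Continuous (pt f) := by
  unfold pt
  fun_prop

theorem isCompact_cube : IsCompact (Cube 2) := by
  have h : Cube 2 = (WithLp.toLp 2) '' (Set.univ.pi fun _ : Fin 2 => Icc (0 : ℝ) 1) := by
    ext x
    constructor
    · intro hx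
      exact ⟨WithLp.ofLp x, fun i _ => hx i, rfl⟩
    · rintro ⟨y, hy, rfl⟩ i
      exact hy i (mem_univ _)
  rw [h]
  exact (isCompact_univ_pi fun _ => isCompact_Icc).image (PiLp.continuous_toLp 2 _)

instance : CompactSpace (Cube 2) := isCompact_iff_compactSpace.1 isCompact_cube

theorem isCompact_graph (f : Hm) : IsCompact (graph f) := isCompact_range (continuous_pt f)

theorem isClosed_graph (f : Hm) : IsClosed (graph f) := (isCompact_graph f).isClosed

theorem co_mem_Icc {f : Hm} {z : E4} (hz : z ∈ graph f) (c : Ix) : co c z ∈ Icc (0 : ℝ) 1 := by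
  obtain ⟨x, rfl⟩ := hz
  obtain ⟨b, i⟩ := c
  cases b
  · rw [co_false]; exact x.2 i
  · rw [co_true]; exact (f x).2 i

/-! ### uniform convergence -/

/-- uniform convergence of homeomorphisms -/
def Conv (fn : ℕ → Hm) (f : Hm) : Prop :=
  ∀ ε : ℝ, 0 < ε → ∀ᶠ n in atTop, ∀ x, dist (fn n x) (f x) < ε

theorem Conv.symm {fn : ℕ → Hm} {f : Hm} (h : Conv fn f) :
    Conv (fun n => (fn n).symm) f.symm := by
  intro ε hε
  have huc : UniformContinuous f.symm :=
    CompactSpace.uniformContinuous_of_continuous f.symm.continuous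
  obtain ⟨δ, hδ, hd⟩ := Metric.uniformContinuous_iff.1 huc ε hε
  filter_upwards [h δ hδ] with n hn y
  have h1 := hd (hn ((fn n).symm y))
  rw [Homeomorph.apply_symm_apply, Homeomorph.symm_apply_apply] at h1
  rw [dist_comm]
  exact h1

theorem Conv.pt {fn : ℕ → Hm} {f : Hm} (h : Conv fn f) (ε : ℝ) (hε : 0 < ε) :
    ∀ᶠ n in atTop, ∀ x, ‖pt (fn n) x - pt f x‖ < ε := by
  filter_upwards [h ε hε] with n hn x
  have h1 : ‖G2.pt (fn n) x - G2.pt f x‖ ^ 2 = ‖(fn n x : E2) - (f x : E2)‖ ^ 2 := by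
    rw [WithLp.prod_norm_sq_eq_of_L2]
    simp [G2.pt]
  have h2 : ‖G2.pt (fn n) x - G2.pt f x‖ = ‖(fn n x : E2) - (f x : E2)‖ :=
    (sq_eq_sq₀ (norm_nonneg _) (norm_nonneg _)).1 h1
  rw [h2, ← dist_eq_norm]
  exact hn x

/-! ### extension to the plane, parametrised lines -/

/-- the coordinatewise retraction of the plane onto the square -/
noncomputable def cl (x : E2) : Cube 2 :=
  ⟨WithLp.toLp 2 fun i => max 0 (min 1 (x i)), fun i => by
    constructor
    · exact le_max_left _ _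
    · exact max_le zero_le_one (min_le_left _ _)⟩

theorem cl_apply (x : E2) (i : Fin 2) : (cl x : E2) i = max 0 (min 1 (x i)) := rfl

theorem cl_of_mem {x : E2} (hx : x ∈ Cube 2) : (cl x : E2) = x := by
  ext i
  rw [cl_apply, min_eq_right (hx i).2, max_eq_right (hx i).1]

theorem cl_coe (x : Cube 2) : cl (x : E2) = x := Subtype.ext (cl_of_mem x.2)

theorem continuous_cl : Continuous cl := by
  unfold cl
  refine Continuous.subtype_mk ?_ _
  refine (PiLp.continuous_toLp 2 _).comp (continuous_pi fun i => ?_)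
  fun_prop

/-- the point of the plane with `i`-th coordinate `s` and other coordinate `u` -/
noncomputable def mk2 (i : Fin 2) (s u : ℝ) : E2 := WithLp.toLp 2 fun k => if k = i then s else u

@[simp] theorem mk2_apply (i : Fin 2) (s u : ℝ) (k : Fin 2) :
    (mk2 i s u) k = if k = i then s else u := rfl

theorem mk2_mem {i : Fin 2} {s u : ℝ} (hs : s ∈ Icc (0 : ℝ) 1) (hu : u ∈ Icc (0 : ℝ) 1) :
    mk2 i s u ∈ Cube 2 := by
  intro k
  rw [mk2_apply]
  split_ifs
  · exact hs
  · exact hu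

/-- the other index -/
def ot (i : Fin 2) : Fin 2 := 1 - i

theorem ot_ne (i : Fin 2) : ot i ≠ i := by fin_cases i <;> simp [ot]

theorem eq_or_eq_ot (i k : Fin 2) : k = i ∨ k = ot i := by
  fin_cases i <;> fin_cases k <;> simp [ot]

theorem ot_ot (i : Fin 2) : ot (ot i) = i := by fin_cases i <;> simp [ot]

theorem mk2_coords (i : Fin 2) (x : E2) : mk2 i (x i) (x (ot i)) = x := by
  ext k
  rw [mk2_apply]
  rcases eq_or_eq_ot i k with h | h
  · rw [if_pos h, h]
  · rw [if_neg (by rw [h]; exact ot_ne i), h]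

theorem continuous_mk2 (i : Fin 2) : Continuous fun p : ℝ × ℝ => mk2 i p.1 p.2 := by
  unfold mk2
  refine (PiLp.continuous_toLp 2 _).comp (continuous_pi fun k => ?_)
  split_ifs
  · exact continuous_fst
  · exact continuous_snd

/-- the curve over the line `{x i = s}` -/
noncomputable def curveS (f : Hm) (i : Fin 2) (s u : ℝ) : E4 := pt f (cl (mk2 i s u))

/-- the curve over the preimage of the line `{y j = t}` -/
noncomputable def curveT (f : Hm) (j : Fin 2) (t u : ℝ) : E4 := pt f (f.symm (cl (mk2 j t u)))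

theorem continuous_curveS (f : Hm) (i : Fin 2) :
    Continuous fun p : ℝ × ℝ => curveS f i p.1 p.2 :=
  (continuous_pt f).comp (continuous_cl.comp (continuous_mk2 i))

theorem continuous_curveT (f : Hm) (j : Fin 2) :
    Continuous fun p : ℝ × ℝ => curveT f j p.1 p.2 :=
  (continuous_pt f).comp (f.symm.continuous.comp (continuous_cl.comp (continuous_mk2 j)))

theorem curveS_mem (f : Hm) (i : Fin 2) (s u : ℝ) : curveS f i s u ∈ graph f := pt_mem f _

theorem curveT_mem (f : Hm) (j : Fin 2) (t u : ℝ) : curveT f j t u ∈ graph f := pt_mem f _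

theorem co_curveS {f : Hm} {i : Fin 2} {s u : ℝ} (hs : s ∈ Icc (0 : ℝ) 1)
    (hu : u ∈ Icc (0 : ℝ) 1) :
    co (false, i) (curveS f i s u) = s ∧ co (false, ot i) (curveS f i s u) = u := by
  unfold curveS
  rw [co_pt_false, co_pt_false, cl_of_mem (mk2_mem hs hu), mk2_apply, mk2_apply, if_pos rfl,
    if_neg (ot_ne i)]
  exact ⟨rfl, rfl⟩

theorem co_curveT {f : Hm} {j : Fin 2} {t u : ℝ} (ht : t ∈ Icc (0 : ℝ) 1)
    (hu : u ∈ Icc (0 : ℝ) 1) :
    co (true, j) (curveT f j t u) = t ∧ co (true, ot j) (curveT f j t u) = u := by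
  unfold curveT
  rw [co_pt_true, co_pt_true, Homeomorph.apply_symm_apply, cl_of_mem (mk2_mem ht hu), mk2_apply,
    mk2_apply, if_pos rfl, if_neg (ot_ne j)]
  exact ⟨rfl, rfl⟩

theorem curveS_co {f : Hm} {z : E4} (hz : z ∈ graph f) (i : Fin 2) :
    curveS f i (co (false, i) z) (co (false, ot i) z) = z := by
  obtain ⟨x, rfl⟩ := hz
  change curveS f i (co (false, i) (pt f x)) (co (false, ot i) (pt f x)) = pt f x
  unfold curveS
  rw [co_pt_false, co_pt_false, mk2_coords, cl_coe]

theorem curveT_co {f : Hm} {z : E4} (hz : z ∈ graph f) (j : Fin 2) :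
    curveT f j (co (true, j) z) (co (true, ot j) z) = z := by
  obtain ⟨x, rfl⟩ := hz
  change curveT f j (co (true, j) (pt f x)) (co (true, ot j) (pt f x)) = pt f x
  unfold curveT
  rw [co_pt_true, co_pt_true, mk2_coords, cl_coe, Homeomorph.symm_apply_apply]

theorem slice_source (f : Hm) (i : Fin 2) (s : ℝ) (hs : s ∈ Icc (0 : ℝ) 1) :
    graph f ∩ co (false, i) ⁻¹' {s} = curveS f i s '' Icc 0 1 := by
  ext z
  constructor
  · rintro ⟨hz, h⟩
    refine ⟨co (false, ot i) z, co_mem_Icc hz _, ?_⟩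
    have h1 := curveS_co hz i
    rw [mem_preimage, mem_singleton_iff] at h
    rwa [h] at h1
  · rintro ⟨u, hu, rfl⟩
    exact ⟨curveS_mem f i s u, (co_curveS hs hu).1⟩

theorem slice_target (f : Hm) (j : Fin 2) (t : ℝ) (ht : t ∈ Icc (0 : ℝ) 1) :
    graph f ∩ co (true, j) ⁻¹' {t} = curveT f j t '' Icc 0 1 := by
  ext z
  constructor
  · rintro ⟨hz, h⟩
    refine ⟨co (true, ot j) z, co_mem_Icc hz _, ?_⟩
    have h1 := curveT_co hz j
    rw [mem_preimage, mem_singleton_iff] at h
    rwa [h] at h1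
  · rintro ⟨u, hu, rfl⟩
    exact ⟨curveT_mem f j t u, (co_curveT ht hu).1⟩

theorem injOn_curveS (f : Hm) (i : Fin 2) (s : ℝ) (hs : s ∈ Icc (0 : ℝ) 1) :
    InjOn (curveS f i s) (Icc 0 1) := by
  intro u hu v hv h
  rw [← (co_curveS (f := f) (i := i) hs hu).2, ← (co_curveS (f := f) (i := i) hs hv).2, h]

theorem injOn_curveT (f : Hm) (j : Fin 2) (t : ℝ) (ht : t ∈ Icc (0 : ℝ) 1) :
    InjOn (curveT f j t) (Icc 0 1) := by
  intro u hu v hv h
  rw [← (co_curveT (f := f) (j := j) ht hu).2, ← (co_curveT (f := f) (j := j) ht hv).2, h]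

/-! ### the swap -/

/-- exchange of source and target -/
def sw (z : E4) : E4 := WithLp.toLp 2 (z.snd, z.fst)

@[simp] theorem sw_sw (z : E4) : sw (sw z) = z := rfl

theorem co_sw (b : Bool) (i : Fin 2) (z : E4) : co (b, i) (sw z) = co (!b, i) z := by
  cases b <;> simp [sw]

theorem norm_sw (z : E4) : ‖sw z‖ = ‖z‖ := by
  have h : ‖sw z‖ ^ 2 = ‖z‖ ^ 2 := by
    rw [WithLp.prod_norm_sq_eq_of_L2, WithLp.prod_norm_sq_eq_of_L2]
    simp [sw]
    ring
  exact (sq_eq_sq₀ (norm_nonneg _) (norm_nonneg _)).1 h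

theorem sw_sub (z z' : E4) : sw (z - z') = sw z - sw z' := rfl

theorem isometry_sw : Isometry sw := by
  refine Isometry.of_dist_eq fun z z' => ?_
  rw [dist_eq_norm, dist_eq_norm, ← sw_sub, norm_sw]

theorem sw_image_graph (f : Hm) : sw '' graph f = graph f.symm := by
  ext z
  constructor
  · rintro ⟨_, ⟨x, rfl⟩, rfl⟩
    refine ⟨f x, ?_⟩
    simp only [sw, Homeomorph.symm_apply_apply]
    rfl
  · rintro ⟨y, rfl⟩
    refine ⟨pt f (f.symm y), pt_mem f _, ?_⟩
    simp only [sw, pt, Homeomorph.apply_symm_apply]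
    rfl

theorem sw_mem {f : Hm} {z : E4} : sw z ∈ graph f.symm ↔ z ∈ graph f := by
  rw [← sw_image_graph]
  constructor
  · rintro ⟨z', hz', h⟩
    have := congrArg sw h
    rw [sw_sw, sw_sw] at this
    rwa [← this]
  · exact fun h => ⟨z, h, rfl⟩

/-! ### projections, boxes, pieces -/

/-- the projection to a coordinate plane -/
def pr (c c' : Ix) (z : E4) : ℝ × ℝ := (co c z, co c' z)

theorem continuous_pr (c c' : Ix) : Continuous (pr c c') := (continuous_co c).prodMk (continuous_co c')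

theorem lipschitz_pr (c c' : Ix) : LipschitzWith 1 (pr c c') := by
  have h := (lipschitz_co c).prodMk (lipschitz_co c')
  rwa [max_self] at h

theorem vol_pr_le (c c' : Ix) (S : Set E4) : volume (pr c c' '' S) ≤ μH[2] S := by
  rw [← hausdorffMeasure_prod_real]
  have h := (lipschitz_pr c c').hausdorffMeasure_image_le (d := 2) (by norm_num) S
  simpa using h

/-- sup-norm box -/
def Box (z : E4) (r : ℝ) : Set E4 := {z' | ∀ c, |co c z' - co c z| ≤ r}

theorem isClosed_Box (z : E4) (r : ℝ) : IsClosed (Box z r) := by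
  have : Box z r = ⋂ c, {z' | |co c z' - co c z| ≤ r} := by
    ext z'; simp [Box]
  rw [this]
  refine isClosed_iInter fun c => isClosed_le ?_ continuous_const
  exact ((continuous_co c).sub continuous_const).abs

/-- the total projected area -/
noncomputable def mm (S : Set E4) : ℝ≥0∞ :=
  ∑ c : Ix, ∑ c' : Ix, if c = c' then 0 else volume (pr c c' '' S)

/-- points `z` of `Γ` such that on the curve `{co c = co c z}` near `z` (within `δ`) the increments are
`(increment of co c') • w` up to `ε * |increment of co c'|` -/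
def Cone (Γ : Set E4) (c c' : Ix) (w : E4) (ε δ : ℝ) : Set E4 :=
  {z | z ∈ Γ ∧ ∀ z' ∈ Γ, co c z' = co c z → ‖z' - z‖ < δ →
    ‖z' - z - (co c' z' - co c' z) • w‖ ≤ ε * |co c' z' - co c' z|}

/-- points `z` of `Γ` such that on the curve `{co c = co c z}` the coordinate `co c'` takes all values
within `δ'` of `co c' z` at points at distance at most `δ` from `z` -/
def Cross (Γ : Set E4) (c c' : Ix) (δ δ' : ℝ) : Set E4 :=
  {z | z ∈ Γ ∧ ∀ s : ℝ, |s - co c' z| < δ' → s ∈ Icc (0 : ℝ) 1 →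
    ∃ z' ∈ Γ, co c z' = co c z ∧ co c' z' = s ∧ ‖z' - z‖ ≤ δ}

/-- flat pieces for the pair `(c, c')`: tangent `w` of the curves `{co c = const}`, tangent `w'` of the
curves `{co c' = const}` -/
def Piece (Γ : Set E4) (c c' : Ix) (w w' : E4) (ε δ δ' : ℝ) : Set E4 :=
  Cone Γ c c' w ε δ ∩ Cone Γ c' c w' ε δ ∩ Cross Γ c' c (δ / 4) δ'

/-- tangent vectors: type A -/
noncomputable def wA (i : Fin 2) (A : E2) : E4 := WithLp.toLp 2 (mk2 i 1 0, A)
/-- tangent vectors of source lines at points of product type: `(0; η)`, `η j = 1`, `η (ot j) = β` -/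
noncomputable def wT (j : Fin 2) (β : ℝ) : E4 := WithLp.toLp 2 (0, mk2 j 1 β)
/-- tangent vectors of target lines at points of product type: `(ξ; 0)`, `ξ i = 1`, `ξ (ot i) = α` -/
noncomputable def wU (i : Fin 2) (α : ℝ) : E4 := WithLp.toLp 2 (mk2 i 1 α, 0)

/-- images of relatively open subsets of compact sets are Borel -/
theorem measurable_image {Y : Type} [TopologicalSpace Y] [T2Space Y] [MeasurableSpace Y]
    [BorelSpace Y] {G U : Set E4} (hG : IsCompact G) (hU : IsOpen U) {T : E4 → Y}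
    (hT : Continuous T) : MeasurableSet (T '' (G ∩ U)) := by
  obtain ⟨F, hF, hFU, hFU', -⟩ := hU.exists_iUnion_isClosed
  have h : T '' (G ∩ U) = ⋃ n, T '' (G ∩ F n) := by
    rw [← hFU', inter_iUnion, image_iUnion]
  rw [h]
  exact MeasurableSet.iUnion fun n => ((hG.inter_right (hF n)).image hT).isClosed.measurableSet

theorem null_pr_swap {c c' : Ix} {S : Set E4} (h : volume (pr c c' '' S) = 0) :
    volume (pr c' c '' S) = 0 := by
  have h1 : pr c' c '' S = Prod.swap ⁻¹' (pr c c' '' S) := by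
    ext p
    constructor
    · rintro ⟨z, hz, rfl⟩
      exact ⟨z, hz, rfl⟩
    · rintro ⟨z, hz, h⟩
      refine ⟨z, hz, ?_⟩
      have := congrArg Prod.swap h
      rw [Prod.swap_swap] at this
      rw [← this]
      rfl
  rw [h1]
  exact Measure.measurePreserving_swap.quasiMeasurePreserving.preimage_null h

/-- type A pieces -/
noncomputable def PA (f : Hm) (ε : ℝ) (a : ℕ → E2) (k : ℕ × ℕ × ℕ × ℕ) : Set E4 :=
  Piece (graph f) (false, 1) (false, 0) (wA 0 (a k.1)) (wA 1 (a k.2.1)) ε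
    (1 / ((k.2.2.1 : ℝ) + 1)) (1 / ((k.2.2.2 : ℝ) + 1))

/-- type C pieces -/
noncomputable def PC (f : Hm) (ε : ℝ) (i j : Fin 2) (b : ℕ → ℝ) (k : ℕ × ℕ × ℕ × ℕ) : Set E4 :=
  Piece (graph f) (false, i) (true, j) (wT j (b k.1)) (wU i (b k.2.1)) ε
    (1 / ((k.2.2.1 : ℝ) + 1)) (1 / ((k.2.2.2 : ℝ) + 1))

end Pool.Agent.MP_ccb05f_an.G2
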