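import Pool.Agent.MP_d0c340_co.Brouwer3
import Pool.Agent.MP_ccb05f_an.G2.Basic

/-! # [GRL-BR] -/

set_option autoImplicit false

open MeasureTheory Set Filter Topology Metric
open scoped ENNReal NNReal

namespace Pool.Agent.MP_ccb05f_an.G2

/-- [GRL-BR] Let `cR` be the coordinatewise retraction of the plane onto the rectangle `R`. `h ↦ cR (h - G h)` has a fixed
point `h` in `R` (`brouwer_convex` in `Pool.Agent.MP_d0c340_co.Brouwer3`). Put `v = G h`; `h = cR (h - v)`: for each `i`, `v i = 0`
if `l i < h i < r i`, `v i ≤ 0` if `h i = r i` (`> 0`), `v i ≥ 0` if `h i = l i` (`< 0`). If `v ≠ 0` then `h` is on the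
boundary, and `⟪v, h⟫ ≤ 0`, so `‖v - h‖² ≥ ‖h‖²`, contradicting `hb`. -/
theorem br_rect (l r : Fin 2 → ℝ) (hl : ∀ i, l i < 0) (hr : ∀ i, 0 < r i) (G : E2 → E2)
    (hG : ContinuousOn G {h | ∀ i, h i ∈ Icc (l i) (r i)})
    (hb : ∀ h : E2, (∀ i, h i ∈ Icc (l i) (r i)) → (∃ i, h i = l i ∨ h i = r i) →
      ‖G h - h‖ < ‖h‖) :
    ∃ h : E2, (∀ i, h i ∈ Icc (l i) (r i)) ∧ G h = 0 := by
  classical
  set K : Set E2 := {h | ∀ i, h i ∈ Icc (l i) (r i)} with hK
  have hKeq : K = (EuclideanSpace.equiv (Fin 2) ℝ) ⁻¹' (Set.pi univ fun i => Icc (l i) (r i)) := by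
    ext h
    exact ⟨fun hh i _ => hh i, fun hh i => hh i (mem_univ i)⟩
  have hKc : IsCompact K := by
    rw [hKeq]
    exact (EuclideanSpace.equiv (Fin 2) ℝ).toHomeomorph.isCompact_preimage.2
      (isCompact_univ_pi fun i => isCompact_Icc)
  have hconv : Convex ℝ K := by
    intro x hx y hy a b ha hb' hab i
    have h1 := hx i
    have h2 := hy i
    exact (convex_Icc (l i) (r i)) h1 h2 ha hb' hab
  have hne : K.Nonempty := ⟨0, fun i => ⟨(hl i).le, (hr i).le⟩⟩
  let cR : E2 → E2 := fun x => WithLp.toLp 2 fun i => max (l i) (min (r i) (x i))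
  have hcR : Continuous cR := by
    refine (PiLp.continuous_toLp 2 _).comp ?_
    refine continuous_pi fun i => ?_
    exact continuous_const.max (continuous_const.min ((continuous_apply i).comp (PiLp.continuous_ofLp 2 _)))
  have hcRK : ∀ x, cR x ∈ K := by
    intro x i
    change max (l i) (min (r i) (x i)) ∈ Icc (l i) (r i)
    exact ⟨le_max_left _ _, max_le ((hl i).trans (hr i)).le (min_le_left _ _)⟩
  obtain ⟨h, hh, hfix⟩ := MPd0c340.brouwer_convex K hKc hconv hne (fun h => cR (h - G h))
    (hcR.comp_continuousOn (continuousOn_id.sub hG)) (fun x _ => hcRK _)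
  refine ⟨h, hh, ?_⟩
  by_contra hv
  have hco : ∀ i, max (l i) (min (r i) (h i - G h i)) = h i := by
    intro i
    have := congrArg (fun z : E2 => z i) hfix
    exact this
  have hlr : ∀ i, l i < r i := fun i => (hl i).trans (hr i)
  have hprod : ∀ i, G h i * h i ≤ 0 := by
    intro i
    have h1 := hco i
    have h2 := hl i
    have h3 := hr i
    rcases le_total (G h i) 0 with h4 | h4
    · rcases le_or_gt 0 (h i) with h5 | h5
      · exact mul_nonpos_of_nonpos_of_nonneg h4 h5
      · -- `h i < 0`, `G h i ≤ 0`: must have `G h i = 0`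
        have h6 : G h i = 0 := by
          rcases max_choice (l i) (min (r i) (h i - G h i)) with h7 | h7
          · rw [h7] at h1
            have h8 : min (r i) (h i - G h i) ≤ l i := by rw [← h7]; exact le_max_right _ _
            rcases min_le_iff.1 h8 with h9 | h9
            · linarith
            · linarith
          · rw [h7] at h1
            rcases min_choice (r i) (h i - G h i) with h9 | h9
            · rw [h9] at h1; linarith
            · rw [h9] at h1; linarith
        rw [h6]; simp
    · rcases le_or_gt (h i) 0 with h5 | h5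
      · exact mul_nonpos_of_nonneg_of_nonpos h4 h5
      · have h6 : G h i = 0 := by
          rcases max_choice (l i) (min (r i) (h i - G h i)) with h7 | h7
          · rw [h7] at h1; linarith
          · rw [h7] at h1
            rcases min_choice (r i) (h i - G h i) with h9 | h9
            · have h10 : r i ≤ h i - G h i := by rw [← h9]; exact min_le_right _ _
              rw [h9] at h1
              linarith
            · rw [h9] at h1; linarith
        rw [h6]; simp
  have hbd : ∃ i, h i = l i ∨ h i = r i := by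
    by_contra hnb
    push Not at hnb
    apply hv
    ext i
    change G h i = 0
    have h1 := hco i
    rcases max_choice (l i) (min (r i) (h i - G h i)) with h7 | h7
    · rw [h7] at h1; exact absurd h1.symm (hnb i).1
    · rw [h7] at h1
      rcases min_choice (r i) (h i - G h i) with h9 | h9
      · rw [h9] at h1; exact absurd h1.symm (hnb i).2
      · rw [h9] at h1; linarith
  have hlt := hb h hh hbd
  have hsq : ‖h‖ ^ 2 ≤ ‖G h - h‖ ^ 2 := by
    rw [EuclideanSpace.norm_sq_eq, EuclideanSpace.norm_sq_eq]
    refine Finset.sum_le_sum fun i _ => ?_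
    have h1 := hprod i
    rw [Real.norm_eq_abs, Real.norm_eq_abs, sq_abs, sq_abs]
    change h i ^ 2 ≤ (G h i - h i) ^ 2
    nlinarith [sq_nonneg (G h i)]
  have := (sq_lt_sq₀ (norm_nonneg _) (norm_nonneg _)).2 hlt
  linarith

end Pool.Agent.MP_ccb05f_an.G2
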