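import Pool.Agent.MP_ccb05f_an.G2.Basic

/-! # [GRL-G1] the pieces are closed -/

set_option autoImplicit false

open MeasureTheory Set Filter Topology Metric
open scoped ENNReal NNReal

namespace Pool.Agent.MP_ccb05f_an.G2

theorem closed_exists_curve (f : Hm) (c : Ix) : ∃ Φ : ℝ × ℝ → E4, Continuous Φ ∧
    (∀ p, Φ p ∈ graph f) ∧
    (∀ s ∈ Icc (0 : ℝ) 1, ∀ u ∈ Icc (0 : ℝ) 1, co c (Φ (s, u)) = s) ∧
    ∀ z ∈ graph f, ∃ u ∈ Icc (0 : ℝ) 1, Φ (co c z, u) = z := by
  obtain ⟨b, i⟩ := c
  cases b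
  · exact ⟨fun p => curveS f i p.1 p.2, continuous_curveS f i, fun p => curveS_mem f i p.1 p.2,
      fun s hs u hu => (co_curveS hs hu).1,
      fun z hz => ⟨co (false, ot i) z, co_mem_Icc hz _, curveS_co hz i⟩⟩
  · exact ⟨fun p => curveT f i p.1 p.2, continuous_curveT f i, fun p => curveT_mem f i p.1 p.2,
      fun s hs u hu => (co_curveT hs hu).1,
      fun z hz => ⟨co (true, ot i) z, co_mem_Icc hz _, curveT_co hz i⟩⟩

/-- [GRL-G1] `Cone`: the points `z' ∈ graph f` with `co c z' = co c z` are the points `curveS f i (co c z) u` resp.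
`curveT f j (co c z) u`, `u ∈ Icc 0 1` (`slice_source`, `slice_target`). So `Cone` is the intersection of `graph f` with the
intersection over `u ∈ Icc 0 1` of the sets `{z | ¬ ‖curve (co c z) u - z‖ < δ ∨ ‖…‖ ≤ ε * |…|}`, each closed because the
curves are jointly continuous. -/
theorem isClosed_Cone (f : Hm) (c c' : Ix) (w : E4) (ε δ : ℝ) :
    IsClosed (Cone (graph f) c c' w ε δ) := by
  obtain ⟨Φ, hΦ, hm, hco, hsurj⟩ := closed_exists_curve f c
  have h : Cone (graph f) c c' w ε δ = graph f ∩ ⋂ u ∈ Icc (0 : ℝ) 1,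
      ({z | δ ≤ ‖Φ (co c z, u) - z‖} ∪
        {z | ‖Φ (co c z, u) - z - (co c' (Φ (co c z, u)) - co c' z) • w‖ ≤
          ε * |co c' (Φ (co c z, u)) - co c' z|}) := by
    ext z
    rw [mem_inter_iff, mem_iInter₂]
    constructor
    · rintro ⟨hz, h1⟩
      refine ⟨hz, fun u hu => ?_⟩
      by_cases h2 : δ ≤ ‖Φ (co c z, u) - z‖
      · exact Or.inl h2
      · exact Or.inr (h1 _ (hm _) (hco _ (co_mem_Icc hz c) u hu) (not_le.1 h2))
    · rintro ⟨hz, h1⟩
      refine ⟨hz, fun z' hz' he hd => ?_⟩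
      obtain ⟨u, hu, h2⟩ := hsurj z' hz'
      rw [he] at h2
      have h3 := h1 u hu
      rw [mem_union, mem_ofPred_eq, mem_ofPred_eq, h2] at h3
      rcases h3 with h3 | h3
      · exact absurd hd (not_lt.2 h3)
      · exact h3
  rw [h]
  have hcu : ∀ u : ℝ, Continuous fun z : E4 => Φ (co c z, u) := fun u =>
    hΦ.comp ((continuous_co c).prodMk continuous_const)
  refine (isClosed_graph f).inter (isClosed_biInter fun u _ => IsClosed.union ?_ ?_)
  · exact isClosed_le continuous_const ((hcu u).sub continuous_id).norm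
  · have h1 : Continuous fun z : E4 => co c' (Φ (co c z, u)) - co c' z :=
      ((continuous_co c').comp (hcu u)).sub (continuous_co c')
    exact isClosed_le (((hcu u).sub continuous_id).sub (h1.smul continuous_const)).norm
      (continuous_const.mul h1.abs)

/-- Intersection of `graph f` over `s ∈ Icc 0 1` of `{z | δ' ≤ |s - co c' z|} ∪ {z | ∃ z' ∈ graph f, co c z' = co c z ∧
co c' z' = s ∧ ‖z' - z‖ ≤ δ}`; the second set intersected with `graph f` is the projection of a compact set. -/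
theorem isClosed_Cross (f : Hm) (c c' : Ix) (δ δ' : ℝ) :
    IsClosed (Cross (graph f) c c' δ δ') := by
  have h : Cross (graph f) c c' δ δ' = graph f ∩ ⋂ s ∈ Icc (0 : ℝ) 1,
      ({z | δ' ≤ |s - co c' z|} ∪
        Prod.fst '' ((graph f ×ˢ graph f) ∩
          {p : E4 × E4 | co c p.2 = co c p.1 ∧ co c' p.2 = s ∧ ‖p.2 - p.1‖ ≤ δ})) := by
    ext z
    rw [mem_inter_iff, mem_iInter₂]
    constructor
    · rintro ⟨hz, h1⟩
      refine ⟨hz, fun s hs => ?_⟩
      by_cases h2 : δ' ≤ |s - co c' z|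
      · exact Or.inl h2
      · obtain ⟨z', hz', h3, h4, h5⟩ := h1 s (not_le.1 h2) hs
        exact Or.inr ⟨(z, z'), ⟨⟨hz, hz'⟩, h3, h4, h5⟩, rfl⟩
    · rintro ⟨hz, h1⟩
      refine ⟨hz, fun s hd hs => ?_⟩
      rcases h1 s hs with h2 | h2
      · exact absurd hd (not_lt.2 h2)
      · obtain ⟨⟨a, b⟩, ⟨⟨_, hb⟩, h3, h4, h5⟩, h6⟩ := h2
        have h7 : a = z := h6
        subst h7
        exact ⟨b, hb, h3, h4, h5⟩
  rw [h]
  refine (isClosed_graph f).inter (isClosed_biInter fun s _ => IsClosed.union ?_ ?_)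
  · exact isClosed_le continuous_const (continuous_const.sub (continuous_co c')).abs
  · refine (IsCompact.image ?_ continuous_fst).isClosed
    refine ((isCompact_graph f).prod (isCompact_graph f)).inter_right ?_
    have h1 : IsClosed {p : E4 × E4 | co c p.2 = co c p.1} :=
      isClosed_eq ((continuous_co c).comp continuous_snd) ((continuous_co c).comp continuous_fst)
    have h2 : IsClosed {p : E4 × E4 | co c' p.2 = s} :=
      isClosed_eq ((continuous_co c').comp continuous_snd) continuous_const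
    have h3 : IsClosed {p : E4 × E4 | ‖p.2 - p.1‖ ≤ δ} :=
      isClosed_le (continuous_snd.sub continuous_fst).norm continuous_const
    exact h1.inter (h2.inter h3)

theorem isClosed_Piece (f : Hm) (c c' : Ix) (w w' : E4) (ε δ δ' : ℝ) :
    IsClosed (Piece (graph f) c c' w w' ε δ δ') :=
  ((isClosed_Cone f c c' w ε δ).inter (isClosed_Cone f c' c w' ε δ)).inter
    (isClosed_Cross f c' c (δ / 4) δ')

end Pool.Agent.MP_ccb05f_an.G2
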