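import Pool.Agent.MP_ccb05f_an.G2.Basic

/-! # [GRL-F2] Lipschitz curves -/

set_option autoImplicit false

open MeasureTheory Set Filter Topology Metric
open scoped ENNReal NNReal

namespace Pool.Agent.MP_ccb05f_an.G2

theorem lip1_cs : ContinuousSMul ℝ E4 :=
  (IsBoundedSMul.continuousSMul : ContinuousSMul ℝ E4)

attribute [local instance] lip1_cs

/-- Lipschitz maps of the line preserve null sets -/
theorem lip1_image_null {C : ℝ≥0} {g : ℝ → ℝ} {s : Set ℝ} (hg : LipschitzOnWith C g s)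
    (hs : volume s = 0) : volume (g '' s) = 0 := by
  have h := hg.hausdorffMeasure_image_le (d := 1) zero_le_one
  rw [hausdorffMeasure_real, hs, mul_zero] at h
  exact le_antisymm h zero_le

/-- if `h` expands on `P` and `h '' P` is null then `P` is null -/
theorem lip1_null_of_expand {h : ℝ → ℝ} {P : Set ℝ} (C : ℝ≥0)
    (hP : ∀ v ∈ P, ∀ v' ∈ P, dist v v' ≤ C * dist (h v) (h v')) (hN : volume (h '' P) = 0) :
    volume P = 0 := by
  have hinj : InjOn h P := by
    intro v hv v' hv' e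
    have := hP v hv v' hv'
    rw [e, dist_self, mul_zero] at this
    exact dist_le_zero.1 this
  have hLip : LipschitzOnWith C (Function.invFunOn h P) (h '' P) := by
    refine LipschitzOnWith.of_dist_le_mul ?_
    rintro _ ⟨v, hv, rfl⟩ _ ⟨v', hv', rfl⟩
    rw [hinj.leftInvOn_invFunOn hv, hinj.leftInvOn_invFunOn hv']
    exact hP v hv v' hv'
  have hPP : Function.invFunOn h P '' (h '' P) = P := by
    rw [hinj.leftInvOn_invFunOn.image_image]
  rw [← hPP]
  exact lip1_image_null hLip hN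

/-- the set of points with nonzero derivative and value in a null set is null -/
theorem lip1_null {h : ℝ → ℝ} {N A : Set ℝ} (hN : volume N = 0)
    (hA : ∀ v ∈ A, h v ∈ N ∧ ∃ d : ℝ, HasDerivAt h d v ∧ d ≠ 0) : volume A = 0 := by
  have hcov : A ⊆ ⋃ k : ℕ, ⋃ n : ℤ, {v | v ∈ A ∧
      (∀ v', |v' - v| * ((k : ℝ) + 1) < 1 → |v' - v| ≤ ((k : ℝ) + 1) * |h v' - h v|) ∧
      ⌊v * ((k : ℝ) + 1)⌋ = n} := by
    intro v hv
    obtain ⟨-, d, hd, hd0⟩ := hA v hv
    have hpos : 0 < |d| / 2 := by positivity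
    have h1 := hd.isLittleO.def hpos
    rw [Metric.eventually_nhds_iff] at h1
    obtain ⟨δ, hδ, h1⟩ := h1
    obtain ⟨k, hk⟩ := exists_nat_gt (max (1 / δ) (2 / |d|))
    have hk1 : 1 / δ < (k : ℝ) + 1 := by
      have := le_max_left (1 / δ) (2 / |d|); linarith
    have hk2 : 2 / |d| < (k : ℝ) + 1 := by
      have := le_max_right (1 / δ) (2 / |d|); linarith
    have hk0 : (0 : ℝ) < (k : ℝ) + 1 := by positivity
    refine mem_iUnion.2 ⟨k, mem_iUnion.2 ⟨⌊v * ((k : ℝ) + 1)⌋, hv, ?_, rfl⟩⟩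
    intro v' hv'
    have hlt : dist v' v < δ := by
      rw [Real.dist_eq]
      have h2 : |v' - v| < 1 / ((k : ℝ) + 1) := by
        rw [lt_div_iff₀ hk0]; exact hv'
      have h3 : 1 / ((k : ℝ) + 1) ≤ δ := by
        rw [div_le_iff₀ hk0]
        rw [div_lt_iff₀ hδ] at hk1
        linarith
      linarith
    have h4 := h1 hlt
    rw [Real.norm_eq_abs, Real.norm_eq_abs, smul_eq_mul] at h4
    have h5 : |(v' - v) * d| ≤ |h v' - h v| + |d| / 2 * |v' - v| := by
      have h6 : |(v' - v) * d| ≤ |h v' - h v| + |h v' - h v - (v' - v) * d| := by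
        have := abs_sub (h v' - h v) (h v' - h v - (v' - v) * d)
        have h7 : h v' - h v - (h v' - h v - (v' - v) * d) = (v' - v) * d := by ring
        rw [h7] at this
        exact this
      linarith
    rw [abs_mul] at h5
    have h8 : |d| / 2 * |v' - v| ≤ |h v' - h v| := by nlinarith
    have h9 : 1 ≤ ((k : ℝ) + 1) * (|d| / 2) := by
      rw [div_lt_iff₀ (abs_pos.2 hd0)] at hk2
      linarith
    calc |v' - v| = 1 * |v' - v| := by ring
      _ ≤ (((k : ℝ) + 1) * (|d| / 2)) * |v' - v| :=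
          mul_le_mul_of_nonneg_right h9 (abs_nonneg _)
      _ = ((k : ℝ) + 1) * (|d| / 2 * |v' - v|) := by ring
      _ ≤ _ := mul_le_mul_of_nonneg_left h8 hk0.le
  refine measure_mono_null hcov ?_
  rw [measure_iUnion_null_iff]
  intro k
  rw [measure_iUnion_null_iff]
  intro n
  refine lip1_null_of_expand (h := h) ((k : ℝ≥0) + 1) ?_ ?_
  · rintro v ⟨-, -, hv⟩ v' ⟨-, hv', hv'n⟩
    rw [Real.dist_eq, Real.dist_eq]
    push_cast
    apply hv'
    have h1 : |v * ((k : ℝ) + 1) - v' * ((k : ℝ) + 1)| < 1 :=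
      Int.abs_sub_lt_one_of_floor_eq_floor (hv.trans hv'n.symm)
    have h2 : |v - v'| * ((k : ℝ) + 1) = |v * ((k : ℝ) + 1) - v' * ((k : ℝ) + 1)| := by
      rw [← sub_mul, abs_mul, abs_of_pos (by positivity : (0 : ℝ) < (k : ℝ) + 1)]
    rw [h2]
    exact h1
  · refine measure_mono_null ?_ hN
    rintro _ ⟨v, ⟨hv, -, -⟩, rfl⟩
    exact (hA v hv).1

/-- [GRL-F2] `Ψ` is differentiable a.e. (`LipschitzWith.ae_differentiableAt`). The image under the Lipschitz function
`g = co c₃ ∘ Ψ` of a null set is null. The set of `v` with `HasDerivAt Ψ D v`, `co c₃ D = 0` has null image under `g`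
(`addHaar_image_eq_zero_of_det_fderiv_eq_zero`). Let `N' ⊇ N` be Borel null and
`A = {v | co c₁ (Ψ v) ∈ N', Ψ differentiable at v with derivative D, co c₁ D ≠ 0}`, `h = co c₁ ∘ Ψ`. `A` is null:
by `exists_partition_approximatesLinearOn_of_hasFDerivWithinAt` (for `h`, on `A`, with error smaller than
half the norm of the derivative) `A` is a countable union of sets on which `h` satisfies `|h v - h v'| ≥ c |v - v'|`, `c > 0`
(`ApproximatesLinearOn.antilipschitz`), and `h` maps these sets into the null set `N'`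
(direct argument: `A ⊆ ⋃_k A_k`, `A_k = {v ∈ A | ∀ v', |v' - v| < 1/(k+1) → |h v' - h v| ≥ |v' - v|/(k+1)}`, cut `A_k` into pieces of
diameter `< 1/(k+1)`, on each piece the inverse of `h` is Lipschitz and defined on a null set).
So `g '' A` is null. Collect the three null sets. -/
theorem lip_good (Ψ : ℝ → E4) (hΨ : LipschitzWith 1 Ψ) (c₁ c₃ : Ix) (N : Set ℝ)
    (hN : volume N = 0) :
    ∀ᵐ t : ℝ, ∀ v, co c₃ (Ψ v) = t →
      ∃ D : E4, HasDerivAt Ψ D v ∧ co c₃ D ≠ 0 ∧ (co c₁ (Ψ v) ∈ N → co c₁ D = 0) := by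
  have hder : ∀ (c : Ix) (v : ℝ) (D : E4), HasDerivAt Ψ D v →
      HasDerivAt (fun v => co c (Ψ v)) (co c D) v := by
    intro c v D hD
    exact (coL c).hasFDerivAt.comp_hasDerivAt v hD
  have hg : LipschitzWith 1 (fun v => co c₃ (Ψ v)) := by
    have := (lipschitz_co c₃).comp hΨ
    rwa [one_mul] at this
  set g : ℝ → ℝ := fun v => co c₃ (Ψ v) with hgdef
  set B1 : Set ℝ := {v | ¬ DifferentiableAt ℝ Ψ v} with hB1
  set B2 : Set ℝ := {v | HasDerivAt g 0 v} with hB2
  set B3 : Set ℝ := {v | co c₁ (Ψ v) ∈ N ∧ ∃ D : E4, HasDerivAt Ψ D v ∧ co c₁ D ≠ 0} with hB3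
  have n1 : volume (g '' B1) = 0 := by
    refine lip1_image_null (hg.lipschitzOnWith (s := B1)) ?_
    exact ae_iff.1 hΨ.ae_differentiableAt
  have n2 : volume (g '' B2) = 0 := by
    refine addHaar_image_eq_zero_of_det_fderivWithin_eq_zero volume
      (f' := fun _ => (0 : ℝ →L[ℝ] ℝ)) ?_ ?_
    · intro v hv
      have h1 : HasDerivAt g 0 v := hv
      have h2 := h1.hasFDerivAt
      have h3 : (ContinuousLinearMap.toSpanSingleton ℝ (0 : ℝ)) = 0 := by
        ext; simp
      rw [h3] at h2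
      exact h2.hasFDerivWithinAt
    · intro v hv
      simp [ContinuousLinearMap.det]
  have n3 : volume (g '' B3) = 0 := by
    refine lip1_image_null (hg.lipschitzOnWith (s := B3)) ?_
    refine lip1_null (h := fun v => co c₁ (Ψ v)) hN ?_
    rintro v ⟨hv, D, hD, hD0⟩
    exact ⟨hv, co c₁ D, hder c₁ v D hD, hD0⟩
  have hnull : volume (g '' B1 ∪ (g '' B2 ∪ g '' B3)) = 0 :=
    measure_union_null n1 (measure_union_null n2 n3)
  rw [ae_iff]
  refine measure_mono_null ?_ hnull
  intro t ht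
  rw [mem_ofPred_eq] at ht
  push Not at ht
  obtain ⟨v, hv, hbad⟩ := ht
  by_cases hd : DifferentiableAt ℝ Ψ v
  · right
    by_cases h0 : co c₃ (deriv Ψ v) = 0
    · left
      refine ⟨v, ?_, hv⟩
      have := hder c₃ v _ hd.hasDerivAt
      rw [h0] at this
      exact this
    · right
      refine ⟨v, ?_, hv⟩
      obtain ⟨h1, h2⟩ := hbad _ hd.hasDerivAt h0
      exact ⟨h1, _, hd.hasDerivAt, h2⟩
  · left
    exact ⟨v, hd, hv⟩

end Pool.Agent.MP_ccb05f_an.G2
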