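import Pool.Agent.MP_ccb05f_an.G2.Arc
import Pool.Agent.MP_ccb05f_an.G2.Lip1

/-! # [GRL-F3] tangents of rectifiable curves relative to a coordinate -/

set_option autoImplicit false

open MeasureTheory Set Filter Topology Metric
open scoped ENNReal NNReal

namespace Pool.Agent.MP_ccb05f_an.G2

/-- [GRL-F3] Take `Vf, Ψ` from `arclength` (`Ψ (Vf u) = φ u`), and `t` outside the null set of `lip_good` (for
`c₁, c₃, N`) and different from `co c₃ (φ 0), co c₃ (φ 1)`. Let `co c₃ (φ u) = t`, `v = Vf u` (so `0 < u < 1`,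
`0 < v < Λ`), `D` from `lip_good`, `w = (co c₃ D)⁻¹ • D`. (1) and (2) are clear (`co c₁ (φ u) = u`).
(3): `φ u' - φ u = (v' - v) • D + o(v' - v)`, `v' = Vf u'`, hence
`co c₃ (φ u') - co c₃ (φ u) = (v' - v) co c₃ D + o(v' - v)`; subtract; `Vf` is continuous. (4): `co c₃ ∘ Ψ` has nonzero
derivative at the interior point `v`, so it takes values above and below `t` near `v`; intermediate value theorem
for `co c₃ ∘ φ`. (5): if `co c₂ (φ u')` is constant then `co c₂ D = 0` (apply `co c₂` to the difference quotient along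
`v' = Vf u'`, `u' → u`; `Vf` maps `Icc 0 1` onto `Icc 0 Λ`). -/
theorem curve_lemma (φ : ℝ → E4) (hφ : Continuous φ) (hinj : InjOn φ (Icc 0 1))
    (hfin : μH[1] (φ '' Icc 0 1) ≠ ∞) (c₁ c₃ : Ix) (h1 : ∀ u ∈ Icc (0 : ℝ) 1, co c₁ (φ u) = u)
    (N : Set ℝ) (hN : volume N = 0) :
    ∀ᵐ t : ℝ, ∀ u ∈ Icc (0 : ℝ) 1, co c₃ (φ u) = t → ∃ w : E4,
      co c₃ w = 1 ∧ (u ∈ N → co c₁ w = 0) ∧
      (∀ ε > 0, ∃ δ > 0, ∀ u' ∈ Icc (0 : ℝ) 1, |u' - u| < δ →
        ‖φ u' - φ u - (co c₃ (φ u') - co c₃ (φ u)) • w‖ ≤ ε * |co c₃ (φ u') - co c₃ (φ u)|) ∧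
      (∀ δ > 0, ∃ η > 0, ∀ t', |t' - co c₃ (φ u)| < η →
        ∃ u' ∈ Icc (0 : ℝ) 1, |u' - u| < δ ∧ co c₃ (φ u') = t') ∧
      ∀ c₂, (∀ u' ∈ Icc (0 : ℝ) 1, co c₂ (φ u') = co c₂ (φ u)) → co c₂ w = 0 := by
  obtain ⟨Λ, Vf, Ψ, hΛ, hVc, hVm, hV0, hV1, hΨ, hΨV⟩ := arclength φ hφ.continuousOn hinj hfin
  have hne : ∀ᵐ t : ℝ, t ∉ ({co c₃ (φ 0), co c₃ (φ 1)} : Set ℝ) :=
    (Set.toFinite _).countable.ae_notMem volume
  filter_upwards [lip_good Ψ hΨ c₁ c₃ N hN, hne] with t ht htne u hu hut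
  rw [mem_insert_iff, mem_singleton_iff, not_or] at htne
  have hu0 : 0 < u := lt_of_le_of_ne hu.1 fun h => htne.1 (by rw [h, hut])
  have hu1 : u < 1 := lt_of_le_of_ne hu.2 fun h => htne.2 (by rw [← h, hut])
  have m0 : (0 : ℝ) ∈ Icc (0 : ℝ) 1 := ⟨le_rfl, zero_le_one⟩
  have m1 : (1 : ℝ) ∈ Icc (0 : ℝ) 1 := ⟨zero_le_one, le_rfl⟩
  have hv0 : 0 < Vf u := by rw [← hV0]; exact hVm m0 hu hu0
  have hv1 : Vf u < Λ := by rw [← hV1]; exact hVm hu m1 hu1
  obtain ⟨D, hD, hD3, hD1⟩ := ht (Vf u) (by rw [hΨV u hu, hut])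
  set d : ℝ := co c₃ D with hd
  set w : E4 := d⁻¹ • D with hw
  have hdw : d • w = D := by rw [hw, smul_smul, mul_inv_cancel₀ hD3, one_smul]
  have hw3 : co c₃ w = 1 := by rw [hw, co_smul, ← hd, inv_mul_cancel₀ hD3]
  have hd0 : 0 < |d| := abs_pos.2 hD3
  -- the derivative in `ε`-form along `φ`
  have hder : ∀ c > 0, ∃ δ > 0, ∀ u' ∈ Icc (0 : ℝ) 1, |u' - u| < δ →
      ‖φ u' - φ u - (Vf u' - Vf u) • D‖ ≤ c * |Vf u' - Vf u| := by
    intro c hc
    have h2 := (hasDerivAt_iff_isLittleO.1 hD).bound hc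
    obtain ⟨η, hη, h3⟩ := Metric.eventually_nhds_iff.1 h2
    obtain ⟨δ, hδ, h4⟩ := Metric.continuousOn_iff.1 hVc u hu η hη
    refine ⟨δ, hδ, fun u' hu' hlt => ?_⟩
    have h5 := h3 (h4 u' hu' (by rwa [Real.dist_eq]))
    rw [hΨV u' hu', hΨV u hu] at h5
    simpa [Real.norm_eq_abs] using h5
  -- consequences for the coordinate `c₃`
  have hco : ∀ u' : ℝ, co c₃ (φ u') - co c₃ (φ u) =
      (Vf u' - Vf u) * d + co c₃ (φ u' - φ u - (Vf u' - Vf u) • D) := by
    intro u'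
    rw [co_sub, co_sub, co_smul, ← hd]
    ring
  refine ⟨w, hw3, ?_, ?_, ?_, ?_⟩
  · intro huN
    have h2 := hD1 (by rw [hΨV u hu, h1 u hu]; exact huN)
    rw [hw, co_smul, h2, mul_zero]
  · intro ε hε
    have hnw : 0 < 1 + ‖w‖ := by positivity
    obtain ⟨δ, hδ, h2⟩ := hder (min (|d| / 2) (ε * |d| / (2 * (1 + ‖w‖))))
      (lt_min (by positivity) (by positivity))
    refine ⟨δ, hδ, fun u' hu' hlt => ?_⟩
    have h3 := h2 u' hu' hlt
    set R := φ u' - φ u - (Vf u' - Vf u) • D with hR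
    set a := Vf u' - Vf u with ha
    set Δ := co c₃ (φ u') - co c₃ (φ u) with hΔ
    have h4 : Δ = a * d + co c₃ R := hco u'
    have h5 : ‖R‖ ≤ |d| / 2 * |a| :=
      h3.trans (mul_le_mul_of_nonneg_right (min_le_left _ _) (abs_nonneg _))
    have h6 : ‖R‖ ≤ ε * |d| / (2 * (1 + ‖w‖)) * |a| :=
      h3.trans (mul_le_mul_of_nonneg_right (min_le_right _ _) (abs_nonneg _))
    have h7 : |d| * |a| / 2 ≤ |Δ| := by
      have h8 : |a * d| ≤ |Δ| + |co c₃ R| := by
        have : a * d = Δ - co c₃ R := by rw [h4]; ring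
        rw [this]
        exact abs_sub _ _
      rw [abs_mul] at h8
      have h9 := abs_co_le c₃ R
      nlinarith
    have h8 : φ u' - φ u - Δ • w = R - co c₃ R • w := by
      have h9 : φ u' - φ u = R + a • D := by rw [hR]; abel
      rw [h9, h4, add_smul, mul_smul, hdw]
      abel
    rw [h8]
    calc ‖R - co c₃ R • w‖ ≤ ‖R‖ + ‖co c₃ R • w‖ := norm_sub_le _ _
      _ = ‖R‖ + |co c₃ R| * ‖w‖ := by rw [norm_smul, Real.norm_eq_abs]
      _ ≤ ‖R‖ + ‖R‖ * ‖w‖ := by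
          have := mul_le_mul_of_nonneg_right (abs_co_le c₃ R) (norm_nonneg w)
          linarith
      _ = ‖R‖ * (1 + ‖w‖) := by ring
      _ ≤ (ε * |d| / (2 * (1 + ‖w‖)) * |a|) * (1 + ‖w‖) :=
          mul_le_mul_of_nonneg_right h6 hnw.le
      _ = ε * (|d| * |a| / 2) := by field_simp
      _ ≤ ε * |Δ| := mul_le_mul_of_nonneg_left h7 hε.le
  · intro δ hδ
    obtain ⟨δ₀, hδ₀, h2⟩ := hder (|d| / 2) (by positivity)
    obtain ⟨ρ, hρ0, hρ⟩ : ∃ ρ > 0, ρ < δ ∧ ρ < δ₀ ∧ ρ < u ∧ ρ < 1 - u := by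
      have h3 : 0 < min (min δ δ₀) (min u (1 - u)) :=
        lt_min (lt_min hδ hδ₀) (lt_min hu0 (by linarith))
      obtain ⟨ρ, hρ0, hρ1⟩ := exists_between h3
      rw [lt_min_iff, lt_min_iff, lt_min_iff] at hρ1
      exact ⟨ρ, hρ0, hρ1.1.1, hρ1.1.2, hρ1.2.1, hρ1.2.2⟩
    obtain ⟨r1, r2, r3, r4⟩ := hρ
    -- the sign of the increment
    have hsign : ∀ u' ∈ Icc (0 : ℝ) 1, |u' - u| < δ₀ → u' ≠ u →
        0 < (co c₃ (φ u') - co c₃ (φ u)) * ((Vf u' - Vf u) * d) := by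
      intro u' hu' hlt hne'
      have h3 := h2 u' hu' hlt
      have ha : Vf u' - Vf u ≠ 0 := by
        intro h
        exact hne' (hVm.injOn hu' hu (by linarith))
      rw [hco u']
      set R := φ u' - φ u - (Vf u' - Vf u) • D with hR
      set a := Vf u' - Vf u with ha'
      have h4 := (abs_co_le c₃ R).trans h3
      have h5 : 0 < |a| * |d| := mul_pos (abs_pos.2 ha) hd0
      have h6 : |co c₃ R * (a * d)| ≤ (|a| * |d|) ^ 2 / 2 := by
        rw [abs_mul, abs_mul]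
        nlinarith [mul_le_mul_of_nonneg_right h4 h5.le]
      have h7 : (a * d) ^ 2 = (|a| * |d|) ^ 2 := by rw [← abs_mul, sq_abs]
      have h8 := neg_abs_le (co c₃ R * (a * d))
      nlinarith [sq_pos_of_pos h5]
    have mA : u - ρ ∈ Icc (0 : ℝ) 1 := ⟨by linarith, by linarith⟩
    have mB : u + ρ ∈ Icc (0 : ℝ) 1 := ⟨by linarith, by linarith⟩
    have sA := hsign _ mA (by rw [sub_sub_cancel_left, abs_neg, abs_of_pos hρ0]; exact r2)
      (by linarith)
    have sB := hsign _ mB (by rw [add_sub_cancel_left, abs_of_pos hρ0]; exact r2)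
      (by linarith)
    have vA : Vf (u - ρ) - Vf u < 0 := by
      have := hVm mA hu (by linarith); linarith
    have vB : 0 < Vf (u + ρ) - Vf u := by
      have := hVm hu mB (by linarith); linarith
    set FA := co c₃ (φ (u - ρ)) - co c₃ (φ u) with hFA
    set FB := co c₃ (φ (u + ρ)) - co c₃ (φ u) with hFB
    have hFA0 : FA ≠ 0 := fun h => by rw [h, zero_mul] at sA; exact lt_irrefl _ sA
    have hFB0 : FB ≠ 0 := fun h => by rw [h, zero_mul] at sB; exact lt_irrefl _ sB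
    have hopp : (FA < 0 ∧ 0 < FB) ∨ (FB < 0 ∧ 0 < FA) := by
      rcases lt_or_gt_of_ne hD3 with hdn | hdp
      · right
        constructor
        · by_contra hcon
          have h3 : 0 < FB := lt_of_le_of_ne (not_lt.1 hcon) hFB0.symm
          have h4 : (Vf (u + ρ) - Vf u) * d < 0 := mul_neg_of_pos_of_neg vB hdn
          nlinarith
        · by_contra hcon
          have h3 : FA < 0 := lt_of_le_of_ne (not_lt.1 hcon) hFA0
          have h4 : 0 < (Vf (u - ρ) - Vf u) * d := mul_pos_of_neg_of_neg vA hdn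
          nlinarith
      · left
        constructor
        · by_contra hcon
          have h3 : 0 < FA := lt_of_le_of_ne (not_lt.1 hcon) hFA0.symm
          have h4 : (Vf (u - ρ) - Vf u) * d < 0 := mul_neg_of_neg_of_pos vA hdp
          nlinarith
        · by_contra hcon
          have h3 : FB < 0 := lt_of_le_of_ne (not_lt.1 hcon) hFB0
          have h4 : 0 < (Vf (u + ρ) - Vf u) * d := mul_pos vB hdp
          nlinarith
    refine ⟨min |FA| |FB|, lt_min (abs_pos.2 hFA0) (abs_pos.2 hFB0), fun t' ht' => ?_⟩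
    rw [lt_min_iff] at ht'
    have hcont : ContinuousOn (fun x => co c₃ (φ x)) (uIcc (u - ρ) (u + ρ)) :=
      ((continuous_co c₃).comp hφ).continuousOn
    have hmem : t' ∈ uIcc (co c₃ (φ (u - ρ))) (co c₃ (φ (u + ρ))) := by
      obtain ⟨h3, h4⟩ := ht'
      rw [abs_lt] at h3 h4
      rw [mem_uIcc]
      rcases hopp with ⟨h5, h6⟩ | ⟨h5, h6⟩
      · left
        rw [abs_of_neg h5] at h3
        rw [abs_of_pos h6] at h4
        constructor
        · linarith only [h3.1, h3.2, h4.1, h4.2, hFA, hFB]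
        · linarith only [h3.1, h3.2, h4.1, h4.2, hFA, hFB]
      · right
        rw [abs_of_pos h6] at h3
        rw [abs_of_neg h5] at h4
        constructor
        · linarith only [h3.1, h3.2, h4.1, h4.2, hFA, hFB]
        · linarith only [h3.1, h3.2, h4.1, h4.2, hFA, hFB]
    obtain ⟨u', hu', hut'⟩ := intermediate_value_uIcc hcont hmem
    rw [uIcc_of_le (by linarith)] at hu'
    refine ⟨u', ⟨by linarith only [hu'.1, r3], by linarith only [hu'.2, r4]⟩, ?_, hut'⟩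
    rw [abs_lt]
    constructor
    · linarith only [hu'.1, hu'.2, r1]
    · linarith only [hu'.1, hu'.2, r1]
  · intro c₂ hc₂
    have h2 : HasDerivAt (fun v => co c₂ (Ψ v)) (co c₂ D) (Vf u) := by
      have := (coL c₂).hasFDerivAt.comp_hasDerivAt (Vf u) hD
      exact this
    have h3 : (fun v => co c₂ (Ψ v)) =ᶠ[𝓝 (Vf u)] fun _ => co c₂ (φ u) := by
      filter_upwards [Ioo_mem_nhds hv0 hv1] with v hv
      have h4 : v ∈ Icc (Vf 0) (Vf 1) := by
        rw [hV0, hV1]; exact ⟨hv.1.le, hv.2.le⟩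
      obtain ⟨u', hu', rfl⟩ := intermediate_value_Icc zero_le_one hVc h4
      rw [hΨV u' hu']
      exact hc₂ u' hu'
    have h4 : HasDerivAt (fun v => co c₂ (Ψ v)) 0 (Vf u) :=
      (hasDerivAt_const (Vf u) (co c₂ (φ u))).congr_of_eventuallyEq h3
    have h5 := h2.unique h4
    rw [hw, co_smul, h5, mul_zero]

end Pool.Agent.MP_ccb05f_an.G2
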