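import Mathlib

/-! # [GRL-E] Eilenberg's inequality (qualitative) -/

set_option autoImplicit false

open MeasureTheory Set Filter Topology Metric
open scoped ENNReal NNReal

namespace Pool.Agent.MP_ccb05f_an.G2

theorem slice_cover {X : Type} [MetricSpace X] [MeasurableSpace X] [BorelSpace X] (S : Set X)
    (hS : μH[2] S ≠ ∞) (r : ℝ≥0∞) (hr : 0 < r) :
    ∃ t : ℕ → Set X, S ⊆ ⋃ n, t n ∧ (∀ n, ediam (t n) ≤ r) ∧
      ∑' n, ediam (t n) ^ (2 : ℝ) ≤ μH[2] S + 1 := by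
  have h1 : (⨅ (t : ℕ → Set X) (_ : S ⊆ ⋃ n, t n) (_ : ∀ n, ediam (t n) ≤ r),
          ∑' n, ⨆ _ : (t n).Nonempty, ediam (t n) ^ (2 : ℝ)) ≤ μH[2] S := by
    rw [Measure.hausdorffMeasure_apply]
    exact le_iSup₂ (f := fun (r : ℝ≥0∞) (_ : 0 < r) =>
      ⨅ (t : ℕ → Set X) (_ : S ⊆ ⋃ n, t n) (_ : ∀ n, ediam (t n) ≤ r),
          ∑' n, ⨆ _ : (t n).Nonempty, ediam (t n) ^ (2 : ℝ)) r hr
  have h2 : (⨅ (t : ℕ → Set X) (_ : S ⊆ ⋃ n, t n) (_ : ∀ n, ediam (t n) ≤ r),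
          ∑' n, ⨆ _ : (t n).Nonempty, ediam (t n) ^ (2 : ℝ)) < μH[2] S + 1 :=
    lt_of_le_of_lt h1 (ENNReal.lt_add_right hS one_ne_zero)
  simp only [iInf_lt_iff] at h2
  obtain ⟨t, ht1, ht2, ht3⟩ := h2
  refine ⟨t, ht1, ht2, le_trans (le_of_eq ?_) ht3.le⟩
  refine tsum_congr fun n => ?_
  rcases (t n).eq_empty_or_nonempty with h | h
  · rw [h]; simp
  · rw [ciSup_pos h]

/-- [GRL-E] For every `n` there are sets `t n i`, `i : ℕ`, of diameter `≤ 1 / (n + 1)` with `S ⊆ ⋃ i, t n i` and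
`∑' i, (diam (t n i))² ≤ μH[2] S + 1` (`Measure.hausdorffMeasure_apply`, where for `t` empty the term is `0`).
Put `g n s = ∑' i, diam (t n i) * 1_{J n i} s`, `J n i` a closed interval of length `≤ diam (t n i)` containing
`c '' t n i` (`= ∅` if `t n i = ∅`). Then `∫⁻ g n ≤ μH[2] S + 1`, so by Fatou (`lintegral_liminf_le`)
`∫⁻ liminf g n < ∞` and `liminf (g n s) < ∞` for a.e. `s`. The sets `t n i` with `s ∈ J n i` cover `S ∩ c⁻¹ {s}`, so
`μH[1] (S ∩ c⁻¹ {s}) ≤ liminf_n g n s` (`hausdorffMeasure_le_liminf_tsum`). -/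
theorem slice_fin {X : Type} [MetricSpace X] [MeasurableSpace X] [BorelSpace X] (S : Set X)
    (c : X → ℝ) (hc : LipschitzWith 1 c) (hS : μH[2] S ≠ ∞) :
    ∀ᵐ s : ℝ, μH[1] (S ∩ c ⁻¹' {s}) ≠ ∞ := by
  classical
  have hcov : ∀ n : ℕ, ∃ t : ℕ → Set X, S ⊆ ⋃ i, t i ∧ (∀ i, ediam (t i) ≤ (n : ℝ≥0∞)⁻¹) ∧
      ∑' i, ediam (t i) ^ (2 : ℝ) ≤ μH[2] S + 1 := fun n =>
    slice_cover S hS _ (ENNReal.inv_pos.2 (ENNReal.natCast_ne_top n))
  choose t ht1 ht2 ht3 using hcov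
  set J : ℕ → ℕ → Set ℝ := fun n i => closure (c '' t n i) with hJ
  have hJm : ∀ n i, MeasurableSet (J n i) := fun n i => isClosed_closure.measurableSet
  have hJv : ∀ n i, volume (J n i) ≤ ediam (t n i) := by
    intro n i
    refine (Real.volume_le_diam _).trans ?_
    rw [hJ]
    simp only
    rw [Metric.ediam_closure]
    have := hc.ediam_image_le (t n i)
    simpa using this
  set g : ℕ → ℝ → ℝ≥0∞ := fun n s => ∑' i, (J n i).indicator (fun _ => ediam (t n i)) s with hg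
  have hgm : ∀ n, Measurable (g n) := fun n =>
    Measurable.ennreal_tsum fun i => measurable_const.indicator (hJm n i)
  have hgi : ∀ n, ∫⁻ s, g n s ≤ μH[2] S + 1 := by
    intro n
    rw [hg]
    simp only
    rw [lintegral_tsum fun i => (measurable_const.indicator (hJm n i)).aemeasurable]
    refine le_trans (ENNReal.tsum_le_tsum fun i => ?_) (ht3 n)
    rw [lintegral_indicator_const (hJm n i)]
    refine (mul_le_mul_right (hJv n i) _).trans (le_of_eq ?_)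
    rw [ENNReal.rpow_two, sq]
  have hfat : ∫⁻ s, liminf (fun n => g n s) atTop ≤ μH[2] S + 1 := by
    refine (lintegral_liminf_le hgm).trans ?_
    refine liminf_le_of_le (by isBoundedDefault) fun b hb => ?_
    obtain ⟨n, hn⟩ := hb.exists
    exact hn.trans (hgi n)
  have hae := ae_lt_top (Measurable.liminf hgm)
    (ne_top_of_le_ne_top (ENNReal.add_ne_top.2 ⟨hS, ENNReal.one_ne_top⟩) hfat)
  filter_upwards [hae] with s hs
  refine ne_top_of_le_ne_top hs.ne ?_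
  have key := Measure.hausdorffMeasure_le_liminf_tsum (X := X) (β := ℕ) (ι := fun _ => ℕ) 1
    (S ∩ c ⁻¹' {s}) (l := atTop) (fun n => (n : ℝ≥0∞)⁻¹) ENNReal.tendsto_inv_nat_nhds_zero
    (fun n i => if s ∈ J n i then t n i else ∅) ?_ ?_
  · refine key.trans (le_of_eq ?_)
    congr 1
    ext n
    refine tsum_congr fun i => ?_
    by_cases h : s ∈ J n i
    · rw [if_pos h, indicator_of_mem h, ENNReal.rpow_one]
    · rw [if_neg h, indicator_of_notMem h]; simp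
  · refine Eventually.of_forall fun n i => ?_
    by_cases h : s ∈ J n i
    · rw [if_pos h]; exact ht2 n i
    · rw [if_neg h]; simp
  · refine Eventually.of_forall fun n x hx => ?_
    obtain ⟨i, hi⟩ := mem_iUnion.1 (ht1 n hx.1)
    refine mem_iUnion.2 ⟨i, ?_⟩
    have h : s ∈ J n i := subset_closure ⟨x, hi, hx.2⟩
    rw [if_pos h]
    exact hi

end Pool.Agent.MP_ccb05f_an.G2
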