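import Pool.Agent.MP_ccb05f_an.G2.Closed
import Pool.Agent.MP_ccb05f_an.G2.Curve
import Pool.Agent.MP_ccb05f_an.G2.Slice

/-! # [GRL-KA] almost every point of the square lies in a type A piece -/

set_option autoImplicit false

open MeasureTheory Set Filter Topology Metric
open scoped ENNReal NNReal

namespace Pool.Agent.MP_ccb05f_an.G2

/-- Fubini for subsets of the graph -/
theorem coverA_fubini (f : Hm) (i : Fin 2) (B : Set E4) (hB : MeasurableSet B)
    (h : ∀ᵐ s : ℝ, s ∈ Icc (0 : ℝ) 1 → ∀ᵐ u : ℝ, u ∈ Icc (0 : ℝ) 1 → curveS f i s u ∉ B) :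
    volume (pr (false, i) (false, ot i) '' (graph f ∩ B)) = 0 := by
  have h1 : pr (false, i) (false, ot i) '' (graph f ∩ B)
      = (Icc (0 : ℝ) 1 ×ˢ Icc (0 : ℝ) 1) ∩ (fun p : ℝ × ℝ => curveS f i p.1 p.2) ⁻¹' B := by
    ext p
    constructor
    · rintro ⟨z, ⟨hz, hzB⟩, rfl⟩
      refine ⟨⟨co_mem_Icc hz (false, i), co_mem_Icc hz (false, ot i)⟩, ?_⟩
      change curveS f i (co (false, i) z) (co (false, ot i) z) ∈ B
      rwa [curveS_co hz]
    · rintro ⟨⟨hp1, hp2⟩, hpB⟩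
      refine ⟨curveS f i p.1 p.2, ⟨curveS_mem _ _ _ _, hpB⟩, ?_⟩
      have h2 := co_curveS (f := f) (i := i) hp1 hp2
      exact Prod.ext h2.1 h2.2
  rw [h1]
  have hm : MeasurableSet ((Icc (0 : ℝ) 1 ×ˢ Icc (0 : ℝ) 1) ∩
      (fun p : ℝ × ℝ => curveS f i p.1 p.2) ⁻¹' B) :=
    (measurableSet_Icc.prod measurableSet_Icc).inter
      ((continuous_curveS f i).measurable hB)
  rw [Measure.volume_eq_prod, Measure.measure_prod_null hm]
  filter_upwards [h] with s hs
  by_cases hs1 : s ∈ Icc (0 : ℝ) 1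
  · have h3 := hs hs1
    rw [ae_iff] at h3
    refine measure_mono_null ?_ h3
    rintro u ⟨⟨_, hu⟩, huB⟩ hcon
    exact hcon hu huB
  · have : Prod.mk s ⁻¹' ((Icc (0 : ℝ) 1 ×ˢ Icc (0 : ℝ) 1) ∩
      (fun p : ℝ × ℝ => curveS f i p.1 p.2) ⁻¹' B) = ∅ := by
      ext u
      simp only [mem_preimage, mem_inter_iff, mem_prod, mem_empty_iff_false, iff_false]
      exact fun h4 => hs1 h4.1.1
    rw [this]
    simp

theorem coverA_cone_anti {Γ : Set E4} {c c' : Ix} {w : E4} {ε δ δ' : ℝ} (h : δ ≤ δ') :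
    Cone Γ c c' w ε δ' ⊆ Cone Γ c c' w ε δ := fun _ hz =>
  ⟨hz.1, fun z' hz' h1 h2 => hz.2 z' hz' h1 (h2.trans_le h)⟩

/-- a.e. point has a tangent on the lines `{x i = s}` -/
theorem coverA_tangent (f : Hm) (hfin : μH[2] (graph f) ≠ ∞) (ε : ℝ) (hε : 0 < ε) (a : ℕ → E2)
    (ha : DenseRange a) (i : Fin 2) :
    volume (pr (false, i) (false, ot i) '' (graph f ∩ (⋃ k : ℕ × ℕ,
      Cone (graph f) (false, i) (false, ot i) (wA (ot i) (a k.1)) ε (1 / ((k.2 : ℝ) + 1)))ᶜ)) = 0 := by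
  refine coverA_fubini f i _ ?_ ?_
  · exact (MeasurableSet.iUnion fun k => (isClosed_Cone f _ _ _ _ _).measurableSet).compl
  · have h1 := slice_fin (graph f) (co (false, i)) (lipschitz_co _) hfin
    filter_upwards [h1] with s hs hs1
    rw [slice_source f i s hs1] at hs
    have hcont : Continuous (curveS f i s) :=
      (continuous_curveS f i).comp (Continuous.prodMk_right s)
    have h2 := curve_lemma (curveS f i s) hcont (injOn_curveS f i s hs1) hs (false, ot i)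
      (false, ot i) (fun u hu => (co_curveS hs1 hu).2) ∅ (by simp)
    filter_upwards [h2] with u hu hu1
    obtain ⟨w, hw1, -, hw3, -, hw5⟩ := hu u hu1 (co_curveS hs1 hu1).2
    have hwi : co (false, i) w = 0 := by
      refine hw5 (false, i) fun u' hu' => ?_
      rw [(co_curveS hs1 hu').1, (co_curveS hs1 hu1).1]
    rw [Set.notMem_compl_iff, mem_iUnion]
    obtain ⟨p, hp⟩ := ha.exists_dist_lt w.snd (half_pos hε)
    obtain ⟨δ, hδ, hδ2⟩ := hw3 (ε / 2) (half_pos hε)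
    obtain ⟨n, hn⟩ := exists_nat_one_div_lt hδ
    refine ⟨(p, n), coverA_cone_anti hn.le ⟨curveS_mem _ _ _ _, ?_⟩⟩
    intro z' hz' hz1 hz2
    rw [(co_curveS hs1 hu1).1] at hz1
    have hz3 := curveS_co hz' i
    rw [hz1] at hz3
    set u' := co (false, ot i) z' with hu'
    have hu'1 : u' ∈ Icc (0 : ℝ) 1 := co_mem_Icc hz' _
    have hd : |u' - u| < δ := by
      have h3 := abs_co_le (false, ot i) (z' - curveS f i s u)
      rw [co_sub, (co_curveS hs1 hu1).2] at h3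
      exact h3.trans_lt hz2
    have h4 := hδ2 u' hu'1 hd
    rw [hz3, (co_curveS hs1 hu1).2, ← hu'] at h4
    have hwA : ‖w - wA (ot i) (a p)‖ ≤ ε / 2 := by
      have h5 : w - wA (ot i) (a p) = WithLp.toLp 2 ((0 : E2), w.snd - a p) := by
        refine ext_co fun c => ?_
        rw [co_sub]
        obtain ⟨b, k⟩ := c
        cases b
        · simp only [co_false, wA]
          rcases eq_or_eq_ot i k with h | h
          · subst h
            rw [co_false] at hwi
            simp [hwi, (ot_ne k).symm]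
          · subst h
            rw [co_false] at hw1
            simp [hw1]
        · simp [wA]
      rw [h5]
      have h6 : ‖(WithLp.toLp 2 ((0 : E2), w.snd - a p) : E4)‖ ^ 2 = ‖w.snd - a p‖ ^ 2 := by
        rw [WithLp.prod_norm_sq_eq_of_L2]
        simp
      have h7 : ‖(WithLp.toLp 2 ((0 : E2), w.snd - a p) : E4)‖ = ‖w.snd - a p‖ :=
        (sq_eq_sq₀ (norm_nonneg _) (norm_nonneg _)).1 h6
      rw [h7, ← dist_eq_norm]
      exact hp.le
    have hsplit : z' - curveS f i s u - (u' - u) • wA (ot i) (a p)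
        = (z' - curveS f i s u - (u' - u) • w) + (u' - u) • (w - wA (ot i) (a p)) := by
      rw [smul_sub]; abel
    simp only
    rw [(co_curveS hs1 hu1).2, hsplit]
    calc ‖(z' - curveS f i s u - (u' - u) • w) + (u' - u) • (w - wA (ot i) (a p))‖
        ≤ ‖z' - curveS f i s u - (u' - u) • w‖ + ‖(u' - u) • (w - wA (ot i) (a p))‖ :=
          norm_add_le _ _
      _ ≤ ε / 2 * |u' - u| + |u' - u| * (ε / 2) := by
          refine add_le_add h4 ?_
          rw [norm_smul, Real.norm_eq_abs]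
          exact mul_le_mul_of_nonneg_left hwA (abs_nonneg _)
      _ = ε * |u' - u| := by ring

theorem coverA_cross (f : Hm) {z : E4} (hz : z ∈ graph f) (i : Fin 2) {δ : ℝ} (hδ : 0 < δ) :
    ∃ m : ℕ, z ∈ Cross (graph f) (false, i) (false, ot i) δ (1 / ((m : ℝ) + 1)) := by
  have hcont : Continuous (curveS f i (co (false, i) z)) :=
    (continuous_curveS f i).comp (Continuous.prodMk_right _)
  have h1 := Metric.continuous_iff.1 hcont (co (false, ot i) z) δ hδ
  obtain ⟨η, hη, h2⟩ := h1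
  obtain ⟨m, hm⟩ := exists_nat_one_div_lt hη
  refine ⟨m, hz, fun s hs hs1 => ?_⟩
  refine ⟨curveS f i (co (false, i) z) s, curveS_mem _ _ _ _,
    (co_curveS (co_mem_Icc hz _) hs1).1, (co_curveS (co_mem_Icc hz _) hs1).2, ?_⟩
  have h3 := h2 s (by rw [Real.dist_eq]; exact hs.trans hm)
  rw [curveS_co hz, dist_eq_norm] at h3
  exact h3.le

/-- [GRL-KA] `Cone Γ c c' w ε δ` is monotone in `δ` (decreasing) . Let `Γ = graph f`,
`G1 = ⋃ p n, Cone Γ (false,1) (false,0) (wA 0 (a p)) ε (1/(n+1))`, `G2 = ⋃ p n, Cone Γ (false,0) (false,1) (wA 1 (a p)) ε (1/(n+1))`,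
`G3 = ⋂ n, ⋃ m, Cross Γ (false,0) (false,1) (1/(n+1)/4) (1/(m+1))`: `G1 ∩ G2 ∩ G3 ⊆ ⋃ k, PA f ε a k`, all three Borel.
For a Borel `B ⊆ E4` the set `pr (false,0) (false,1) '' (Γ ∩ B)` is `{p ∈ Icc 0 1 ×ˢ Icc 0 1 | curveS f 0 p.1 p.2 ∈ B}`, Borel; so by
Fubini (`measure_prod_null`) it is enough that for a.e. `s` a.e. point of the line `{x 1 = s}` is in `G1` and for a.e. `s` a.e.
point of the line `{x 0 = s}` is in `G2` and in `G3`.
Line `{x 1 = s}`: `φ = curveS f 1 s` has `μH[1] (φ '' Icc 0 1) < ∞` for a.e. `s` (`slice_fin` with `S = Γ`, `slice_source`).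
`curve_lemma` with `c₁ = c₃ = (false, 0)`, `N = ∅`: for a.e. `u` there is `w` with `co (false,0) w = 1`, `co (false,1) w = 0` (item
(5)), i.e. `w = wA 0 A`, `A = w.snd`; choose `a p` with `‖a p - A‖ ≤ ε / 2` and `δ` for `ε / 2`: `z = φ u ∈ Cone …`
(`z' ∈ Γ`, `co (false,1) z' = s` means `z' = φ u'`, `|u' - u| ≤ ‖z' - z‖ < δ`). Same for the line `{x 0 = s}`.
`G3`: every point is in `G3` by continuity of `φ` (`co (false,1) (φ u') = u'`). -/
theorem cover_A (f : Hm) (hfin : μH[2] (graph f) ≠ ∞) (ε : ℝ) (hε : 0 < ε) (a : ℕ → E2)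
    (ha : DenseRange a) :
    volume (pr (false, 0) (false, 1) '' (graph f \ ⋃ k, PA f ε a k)) = 0 := by
  have h1 := coverA_tangent f hfin ε hε a ha 1
  have h0 := coverA_tangent f hfin ε hε a ha 0
  have e1 : ot 1 = 0 := by decide
  have e0 : ot 0 = 1 := by decide
  rw [e1] at h1
  rw [e0] at h0
  have h1' := null_pr_swap h1
  refine measure_mono_null ?_ (measure_union_null h1' h0)
  rw [← image_union]
  refine image_mono ?_
  rintro z ⟨hz, hzn⟩
  by_contra hcon
  apply hzn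
  rw [mem_union, not_or] at hcon
  obtain ⟨hc1, hc2⟩ := hcon
  have hc1' : z ∈ ⋃ k : ℕ × ℕ, Cone (graph f) (false, 1) (false, 0) (wA 0 (a k.1)) ε
      (1 / ((k.2 : ℝ) + 1)) := by
    by_contra h
    exact hc1 ⟨hz, h⟩
  have hc2' : z ∈ ⋃ k : ℕ × ℕ, Cone (graph f) (false, 0) (false, 1) (wA 1 (a k.1)) ε
      (1 / ((k.2 : ℝ) + 1)) := by
    by_contra h
    exact hc2 ⟨hz, h⟩
  obtain ⟨⟨p, n⟩, hp⟩ := mem_iUnion.1 hc1'
  obtain ⟨⟨q, m⟩, hq⟩ := mem_iUnion.1 hc2'
  have hpos : (0 : ℝ) < 1 / (((max n m : ℕ) : ℝ) + 1) / 4 := by positivity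
  obtain ⟨l, hl⟩ := coverA_cross f hz 0 hpos
  rw [e0] at hl
  refine mem_iUnion.2 ⟨(p, q, max n m, l), ⟨⟨?_, ?_⟩, hl⟩⟩
  · refine coverA_cone_anti ?_ hp
    simp only
    apply one_div_le_one_div_of_le (by positivity)
    have : (n : ℝ) ≤ ((max n m : ℕ) : ℝ) := by exact_mod_cast le_max_left n m
    linarith
  · refine coverA_cone_anti ?_ hq
    simp only
    apply one_div_le_one_div_of_le (by positivity)
    have : (m : ℝ) ≤ ((max n m : ℕ) : ℝ) := by exact_mod_cast le_max_right n m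
    linarith

end Pool.Agent.MP_ccb05f_an.G2
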