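import Pool.Agent.MP_ccb05f_an.G2.Basic

/-! # [GRL-NU] the measure of the projections with multiplicity -/

set_option autoImplicit false

open MeasureTheory Set Filter Topology Metric
open scoped ENNReal NNReal

namespace Pool.Agent.MP_ccb05f_an.G2

/-- the area of the projection with multiplicity (metric outer measure generated by the area of the projection) -/
noncomputable def nu (c c' : Ix) : Measure E4 := Measure.mkMetric' fun S => volume (pr c c' '' S)

/-- [GRL-NU] `S ↦ volume (pr '' S)` is an outer measure (`OuterMeasure.comap`), and it is below each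
`OuterMeasure.mkMetric'.pre` (`OuterMeasure.mkMetric'.le_pre`). -/
theorem vol_le_nu (c c' : Ix) (S : Set E4) : volume (pr c c' '' S) ≤ nu c c' S := by
  have h1 : OuterMeasure.comap (pr c c') (volume : Measure (ℝ × ℝ)).toOuterMeasure ≤
      OuterMeasure.mkMetric' fun S => volume (pr c c' '' S) := by
    refine le_trans ?_ (le_iSup₂ (f := fun (r : ℝ≥0∞) (_ : r > 0) =>
      OuterMeasure.mkMetric'.pre (fun S => volume (pr c c' '' S)) r) 1 one_pos)
    rw [OuterMeasure.mkMetric'.le_pre]
    intro s _
    rw [OuterMeasure.comap_apply]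
    rfl
  have h2 := h1 S
  rw [OuterMeasure.comap_apply] at h2
  exact h2.trans (le_toMeasure_apply _ (OuterMeasure.mkMetric'_isMetric _).le_caratheodory _)

theorem nu_pre_mono {m m' : Set E4 → ℝ≥0∞} (h : ∀ s, m s ≤ m' s) :
    OuterMeasure.mkMetric' m ≤ OuterMeasure.mkMetric' m' := by
  refine iSup₂_mono fun r _ => ?_
  rw [OuterMeasure.mkMetric'.le_pre]
  intro s hs
  exact (OuterMeasure.mkMetric'.pre_le hs).trans (h s)

/-- `volume (pr '' S) ≤ (diam S)²` : apply `vol_pr_le`-type estimate (`pr` is `1`-Lipschitz into `ℝ × ℝ` with the sup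
metric, a set of diameter `d` is contained in a square of side `d`), then compare the premeasures with those of
`μH[2] = mkMetric (fun d => d ^ 2)`. -/
theorem nu_le (c c' : Ix) (S : Set E4) : nu c c' S ≤ μH[2] S := by
  have hlip : ∀ (c : Ix) (s : Set E4), volume (co c '' s) ≤ ediam s := by
    intro c s
    refine (Real.volume_le_diam _).trans ?_
    have := (lipschitz_co c).ediam_image_le s
    simpa using this
  have hle : nu c c' ≤ μH[2] := by
    rw [Measure.le_iff]
    intro s hs
    unfold nu Measure.mkMetric'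
    rw [toMeasure_apply _ _ hs]
    refine le_trans ?_ (le_toMeasure_apply (OuterMeasure.mkMetric fun r : ℝ≥0∞ => r ^ (2 : ℝ))
      (OuterMeasure.mkMetric'_isMetric _).le_caratheodory s)
    refine nu_pre_mono (fun t => ?_) s
    have h1 : pr c c' '' t ⊆ (co c '' t) ×ˢ (co c' '' t) := by
      rintro _ ⟨z, hz, rfl⟩
      exact ⟨⟨z, hz, rfl⟩, ⟨z, hz, rfl⟩⟩
    calc volume (pr c c' '' t) ≤ volume ((co c '' t) ×ˢ (co c' '' t)) := measure_mono h1
      _ = volume (co c '' t) * volume (co c' '' t) := by
        rw [Measure.volume_eq_prod, Measure.prod_prod]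
      _ ≤ ediam t * ediam t := mul_le_mul' (hlip c t) (hlip c' t)
      _ = ediam t ^ (2 : ℝ) := by
        rw [ENNReal.rpow_two, sq]
  exact hle S

/-- Let `r > 0`. `S` is a countable union of sets `S ∩ B` of diameter `≤ r`, and `volume (pr '' (S ∩ B)) = 0`. -/
theorem nu_eq_zero (c c' : Ix) (S : Set E4) (h : volume (pr c c' '' S) = 0) : nu c c' S = 0 := by
  obtain ⟨N, hSN, hNm, hN0⟩ := exists_measurable_superset_of_null h
  set S' : Set E4 := pr c c' ⁻¹' N with hS'
  have hSS' : S ⊆ S' := fun z hz => hSN ⟨z, hz, rfl⟩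
  have hm : MeasurableSet S' := (continuous_pr c c').measurable hNm
  have h0 : volume (pr c c' '' S') = 0 := measure_mono_null (image_preimage_subset _ _) hN0
  refine measure_mono_null hSS' ?_
  unfold nu Measure.mkMetric'
  rw [toMeasure_apply _ _ hm]
  unfold OuterMeasure.mkMetric'
  rw [OuterMeasure.iSup_apply]
  simp only [ENNReal.iSup_eq_zero]
  intro r
  by_cases hr : r > 0
  · simp only [OuterMeasure.iSup_apply, ENNReal.iSup_eq_zero]
    intro _
    have hr2 : 0 < r / 2 := ENNReal.div_pos hr.ne' (by norm_num)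
    have hcov : S' ⊆ ⋃ n : ℕ, S' ∩ closedEBall (TopologicalSpace.denseSeq E4 n) (r / 2) := by
      intro z hz
      obtain ⟨_, ⟨n, rfl⟩, hn⟩ := EMetric.mem_closure_iff.1
        (TopologicalSpace.denseRange_denseSeq E4 z) (r / 2) hr2
      exact mem_iUnion.2 ⟨n, hz, hn.le⟩
    refine le_antisymm ?_ zero_le
    calc OuterMeasure.mkMetric'.pre (fun S => volume (pr c c' '' S)) r S'
        ≤ OuterMeasure.mkMetric'.pre (fun S => volume (pr c c' '' S)) r
          (⋃ n : ℕ, S' ∩ closedEBall (TopologicalSpace.denseSeq E4 n) (r / 2)) :=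
          (OuterMeasure.mkMetric'.pre _ r).mono hcov
      _ ≤ ∑' n : ℕ, OuterMeasure.mkMetric'.pre (fun S => volume (pr c c' '' S)) r
          (S' ∩ closedEBall (TopologicalSpace.denseSeq E4 n) (r / 2)) := measure_iUnion_le _
      _ ≤ ∑' n : ℕ, 0 := by
        refine ENNReal.tsum_le_tsum fun n => ?_
        refine (OuterMeasure.mkMetric'.pre_le ?_).trans ?_
        · refine (ediam_mono inter_subset_right).trans ?_
          refine ediam_closedEBall_le.trans ?_
          rw [ENNReal.mul_div_cancel (by norm_num) (by norm_num)]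
        · exact (measure_mono (image_mono inter_subset_left)).trans h0.le
      _ = 0 := by simp
  · simp [hr]

/-- If all compact subsets of the Borel set `D` have null projection then `D` has null projection: `nu c c'`
restricted to `graph f` is a finite Borel measure on `E4`, hence inner regular with respect to compact sets
(`MeasurableSet.exists_lt_isCompact_of_ne_top` or similar); compact `K ⊆ D` have `nu c c' K = 0` by `nu_eq_zero`. -/
theorem inner_null (f : Hm) (hfin : μH[2] (graph f) ≠ ∞) (c c' : Ix) (D : Set E4)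
    (hD : MeasurableSet D) (hsub : D ⊆ graph f)
    (h : ∀ K ⊆ D, IsCompact K → volume (pr c c' '' K) = 0) : volume (pr c c' '' D) = 0 := by
  have hG : MeasurableSet (graph f) := (isClosed_graph f).measurableSet
  have hfin' : nu c c' (graph f) < ∞ := (nu_le c c' _).trans_lt (lt_top_iff_ne_top.2 hfin)
  have : IsFiniteMeasure ((nu c c').restrict (graph f)) := ⟨by
    rw [Measure.restrict_apply_univ]; exact hfin'⟩
  have h1 : (nu c c').restrict (graph f) D = nu c c' D := by
    rw [Measure.restrict_apply hD, inter_eq_left.2 hsub]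
  have h2 : nu c c' D = 0 := by
    rw [← h1, hD.measure_eq_iSup_isCompact_of_ne_top (measure_ne_top _ _)]
    simp only [ENNReal.iSup_eq_zero]
    intro K hK hKc
    refine le_antisymm ((Measure.restrict_apply_le _ _).trans ?_) zero_le
    exact (nu_eq_zero c c' K (h K hK hKc)).le
  exact le_antisymm ((vol_le_nu c c' D).trans h2.le) zero_le

end Pool.Agent.MP_ccb05f_an.G2
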