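import Pool.Agent.MP_ccb05f_an.G2.Closed
import Pool.Agent.MP_ccb05f_an.G2.Curve
import Pool.Agent.MP_ccb05f_an.G2.Slice
import Pool.Agent.MP_ccb05f_an.G2.Nu

/-! # [GRL-KC] the mixed projections of the rest -/

set_option autoImplicit false

open MeasureTheory Set Filter Topology Metric
open scoped ENNReal NNReal

namespace Pool.Agent.MP_ccb05f_an.G2

/-- the common part of the three cases of `cover_C` -/
theorem KC_gen_null (f : Hm) (hfin : μH[2] (graph f) ≠ ∞) (c c₁ c₃ : Ix) (cur : ℝ → ℝ → E4)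
    (hcont : ∀ s, Continuous (cur s)) (hinj : ∀ s ∈ Icc (0 : ℝ) 1, InjOn (cur s) (Icc 0 1))
    (hslice : ∀ s ∈ Icc (0 : ℝ) 1, graph f ∩ co c ⁻¹' {s} = cur s '' Icc 0 1)
    (hco : ∀ s ∈ Icc (0 : ℝ) 1, ∀ u ∈ Icc (0 : ℝ) 1, co c (cur s u) = s ∧ co c₁ (cur s u) = u)
    (hrec : ∀ z ∈ graph f, cur (co c z) (co c₁ z) = z)
    (D : Set E4) (hsub : D ⊆ graph f) (hnull : volume (pr c c₁ '' D) = 0)
    (K : Set E4) (hKD : K ⊆ D) (hK : IsCompact K)
    (hP : ∀ z ∈ K, ∀ w : E4, co c₃ w = 1 → co c₁ w = 0 → co c w = 0 →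
      (∀ ε > 0, ∃ δ > 0, ∀ z' ∈ graph f, co c z' = co c z → ‖z' - z‖ < δ →
        ‖z' - z - (co c₃ z' - co c₃ z) • w‖ ≤ ε * |co c₃ z' - co c₃ z|) →
      (∀ δ > 0, ∃ η > 0, ∀ t', |t' - co c₃ z| < η →
        ∃ z' ∈ graph f, co c z' = co c z ∧ co c₃ z' = t' ∧ ‖z' - z‖ ≤ δ) → False) :
    volume (pr c c₃ '' K) = 0 := by
  have hS : MeasurableSet (pr c c₃ '' K) := (hK.image (continuous_pr c c₃)).measurableSet
  rw [Measure.volume_eq_prod, Measure.measure_prod_null hS]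
  obtain ⟨M, hM1, hM2, hM3⟩ := exists_measurable_superset_of_null hnull
  rw [Measure.volume_eq_prod, Measure.measure_prod_null hM2] at hM3
  filter_upwards [slice_fin (graph f) (co c) (lipschitz_co c) hfin, hM3] with s hs1 hs2
  by_cases hs : s ∈ Icc (0 : ℝ) 1
  swap
  · have h0 : Prod.mk s ⁻¹' (pr c c₃ '' K) = ∅ := by
      rw [eq_empty_iff_forall_notMem]
      rintro t ⟨z, hz, hzt⟩
      apply hs
      have h1 : co c z = s := congrArg Prod.fst hzt
      rw [← h1]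
      exact co_mem_Icc (hsub (hKD hz)) c
    rw [h0]
    simp
  rw [hslice s hs] at hs1
  have hs2' : volume (Prod.mk s ⁻¹' M) = 0 := hs2
  have hcl := curve_lemma (cur s) (hcont s) (hinj s hs) hs1 c₁ c₃
    (fun u hu => (hco s hs u hu).2) (Prod.mk s ⁻¹' M) hs2'
  refine measure_mono_null ?_ hcl
  rintro t ⟨z, hz, hzt⟩ hPt
  have hcz : co c z = s := congrArg Prod.fst hzt
  have hc3z : co c₃ z = t := congrArg Prod.snd hzt
  have hzΓ : z ∈ graph f := hsub (hKD hz)
  have hu : co c₁ z ∈ Icc (0 : ℝ) 1 := co_mem_Icc hzΓ c₁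
  have hcur : cur s (co c₁ z) = z := by
    have := hrec z hzΓ
    rwa [hcz] at this
  obtain ⟨w, hw1, hw2, hw3, hw4, hw5⟩ := hPt (co c₁ z) hu (by rw [hcur]; exact hc3z)
  refine hP z hz w hw1 (hw2 ?_) (hw5 c ?_) ?_ ?_
  · show (s, co c₁ z) ∈ M
    apply hM1
    refine ⟨z, hKD hz, ?_⟩
    show (co c z, co c₁ z) = (s, co c₁ z)
    rw [hcz]
  · intro u' hu'
    rw [(hco s hs u' hu').1, hcur, hcz]
  · intro ε hε
    obtain ⟨δ, hδ, h⟩ := hw3 ε hε
    refine ⟨δ, hδ, fun z' hz' hc' hn => ?_⟩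
    have hcur' : cur s (co c₁ z') = z' := by
      have := hrec z' hz'
      rwa [hc', hcz] at this
    have h1 := h (co c₁ z') (co_mem_Icc hz' c₁) (by
      rw [← co_sub]
      exact lt_of_le_of_lt (abs_co_le c₁ _) hn)
    rw [hcur', hcur] at h1
    exact h1
  · intro δ hδ
    obtain ⟨δ1, hδ1, h1⟩ := Metric.continuousAt_iff.1 ((hcont s).continuousAt (x := co c₁ z)) δ hδ
    obtain ⟨η, hη, h⟩ := hw4 δ1 hδ1
    refine ⟨η, hη, fun t' ht' => ?_⟩
    obtain ⟨u', hu', h2, h3⟩ := h t' (by rw [hcur]; exact ht')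
    have h4 : cur s u' ∈ graph f ∩ co c ⁻¹' {s} := by
      rw [hslice s hs]; exact ⟨u', hu', rfl⟩
    refine ⟨cur s u', h4.1, ?_, h3, ?_⟩
    · rw [(hco s hs u' hu').1, hcz]
    · have h5 := h1 (x := u') (by rw [Real.dist_eq]; exact h2)
      rw [hcur, dist_eq_norm] at h5
      exact h5.le

theorem KC_cone_anti {Γ : Set E4} {c c' : Ix} {w : E4} {ε δ δ' : ℝ} (h : δ' ≤ δ) :
    Cone Γ c c' w ε δ ⊆ Cone Γ c c' w ε δ' := by
  rintro z ⟨hz, h1⟩
  exact ⟨hz, fun z' hz' hc hn => h1 z' hz' hc (lt_of_lt_of_le hn h)⟩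

/-- change of the tangent vector -/
theorem KC_cone_change {x w w' : E4} {d ε : ℝ} (h1 : ‖x - d • w‖ ≤ ε / 2 * |d|)
    (h2 : ‖w - w'‖ ≤ ε / 2) : ‖x - d • w'‖ ≤ ε * |d| := by
  have h3 : x - d • w' = (x - d • w) + d • (w - w') := by
    rw [smul_sub]; abel
  rw [h3]
  refine (norm_add_le _ _).trans ?_
  rw [norm_smul, Real.norm_eq_abs]
  have h4 : |d| * ‖w - w'‖ ≤ |d| * (ε / 2) := mul_le_mul_of_nonneg_left h2 (abs_nonneg _)
  linarith

theorem KC_wT_sub (j : Fin 2) (β β' : ℝ) : ‖wT j β - wT j β'‖ ≤ 2 * |β - β'| := by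
  apply norm_le_of_co (abs_nonneg _)
  rintro ⟨b, k⟩
  rw [co_sub]
  cases b
  · rw [co_false, co_false]
    simp [wT]
  · rw [co_true, co_true]
    show |mk2 j 1 β k - mk2 j 1 β' k| ≤ |β - β'|
    rw [mk2_apply, mk2_apply]
    split_ifs <;> simp

theorem KC_wU_sub (i : Fin 2) (β β' : ℝ) : ‖wU i β - wU i β'‖ ≤ 2 * |β - β'| := by
  apply norm_le_of_co (abs_nonneg _)
  rintro ⟨b, k⟩
  rw [co_sub]
  cases b
  · rw [co_false, co_false]
    show |mk2 i 1 β k - mk2 i 1 β' k| ≤ |β - β'|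
    rw [mk2_apply, mk2_apply]
    split_ifs <;> simp
  · rw [co_true, co_true]
    simp [wU]

theorem KC_eq_wT {i j : Fin 2} {w : E4} (h1 : co (true, j) w = 1) (h2 : co (false, ot i) w = 0)
    (h3 : co (false, i) w = 0) : w = wT j (co (true, ot j) w) := by
  apply ext_co
  rintro ⟨b, k⟩
  cases b
  · have h4 : co (false, k) (wT j (co (true, ot j) w)) = 0 := by
      rw [co_false]; simp [wT]
    rw [h4]
    rcases eq_or_eq_ot i k with h | h
    · rw [h]; exact h3
    · rw [h]; exact h2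
  · have h4 : co (true, k) (wT j (co (true, ot j) w)) = if k = j then 1 else co (true, ot j) w := by
      rw [co_true]; simp [wT]
    rw [h4]
    rcases eq_or_eq_ot j k with h | h
    · rw [if_pos h, h]; exact h1
    · rw [if_neg (by rw [h]; exact ot_ne j), h]

theorem KC_eq_wU {i j : Fin 2} {w : E4} (h1 : co (false, i) w = 1) (h2 : co (true, ot j) w = 0)
    (h3 : co (true, j) w = 0) : w = wU i (co (false, ot i) w) := by
  apply ext_co
  rintro ⟨b, k⟩
  cases b
  · have h4 : co (false, k) (wU i (co (false, ot i) w)) = if k = i then 1 else co (false, ot i) w := by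
      rw [co_false]; simp [wU]
    rw [h4]
    rcases eq_or_eq_ot i k with h | h
    · rw [if_pos h, h]; exact h1
    · rw [if_neg (by rw [h]; exact ot_ne i), h]
  · have h4 : co (true, k) (wU i (co (false, ot i) w)) = 0 := by
      rw [co_true]; simp [wU]
    rw [h4]
    rcases eq_or_eq_ot j k with h | h
    · rw [h]; exact h3
    · rw [h]; exact h2

/-- [GRL-KC] Let `Γ = graph f`, `c = (false, i)`, `c' = (true, j)`,
`G1 = ⋃ p n, Cone Γ c c' (wT j (b p)) ε (1/(n+1))`, `G2 = ⋃ p n, Cone Γ c' c (wU i (b p)) ε (1/(n+1))`,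
`G3 = ⋂ n, ⋃ m, Cross Γ c' c (1/(n+1)/4) (1/(m+1))`: `G1 ∩ G2 ∩ G3 ⊆ ⋃ k, PC f ε i j b k` (`Cone` is decreasing in `δ`).
So `D \ ⋃ PC` is the union of three Borel sets `⊆ D \ G_l`; by `inner_null` it is enough to show
`volume (pr c c' '' K) = 0` for compact `K ⊆ D \ G_l`. `S = pr c c' '' K` is compact.
`l = 1`: by Fubini it is enough that for a.e. `s`, for a.e. `t`: `(s, t) ∉ S`. For a.e. `s ∈ Icc 0 1` the curve `φ = curveS f i s`
has finite `μH[1]` (`slice_fin`, `slice_source`), and `N = {u ∈ Icc 0 1 | φ u ∈ D}` is null (`hx`: cover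
`pr (false,0) (false,1) '' D` by a Borel null set and use Fubini). `curve_lemma` with `c₁ = (false, ot i)`, `c₃ = c'`: for a.e. `t`
and all `u` with `co c' (φ u) = t`, `φ u ∈ D`, there is `w` with `co c' w = 1`, `co (false, ot i) w = 0`, `co (false, i) w = 0` (item
(5)): `w = wT j β`. Choose `b p` with `|b p - β| ≤ ε / 2` and `δ` for `ε / 2`: `φ u ∈ G1`, so `φ u ∉ K`.
`l = 2, 3`: the same with `φ = curveT f j t`, `c₁ = (true, ot j)`, `c₃ = c` (`hy`): for a.e. `t`, a.e. `s`, `(s, t) ∉ S`. `G3` is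
item (4) of `curve_lemma` and continuity of `φ` at `u`. -/
theorem cover_C (f : Hm) (hfin : μH[2] (graph f) ≠ ∞) (ε : ℝ) (hε : 0 < ε) (i j : Fin 2)
    (b : ℕ → ℝ) (hb : DenseRange b) (D : Set E4) (hD : MeasurableSet D) (hsub : D ⊆ graph f)
    (hx : volume (pr (false, 0) (false, 1) '' D) = 0)
    (hy : volume (pr (true, 0) (true, 1) '' D) = 0) :
    volume (pr (false, i) (true, j) '' (D \ ⋃ k, PC f ε i j b k)) = 0 := by
  -- the projections in the source and in the target, in the right order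
  have hx' : volume (pr (false, i) (false, ot i) '' D) = 0 := by
    fin_cases i
    · exact hx
    · exact null_pr_swap hx
  have hy' : volume (pr (true, j) (true, ot j) '' D) = 0 := by
    fin_cases j
    · exact hy
    · exact null_pr_swap hy
  set G1 : Set E4 := ⋃ p : ℕ, ⋃ n : ℕ,
    Cone (graph f) (false, i) (true, j) (wT j (b p)) ε (1 / ((n : ℝ) + 1)) with hG1
  set G2 : Set E4 := ⋃ p : ℕ, ⋃ n : ℕ,
    Cone (graph f) (true, j) (false, i) (wU i (b p)) ε (1 / ((n : ℝ) + 1)) with hG2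
  set G3 : Set E4 := ⋂ n : ℕ, ⋃ m : ℕ,
    Cross (graph f) (true, j) (false, i) (1 / ((n : ℝ) + 1) / 4) (1 / ((m : ℝ) + 1)) with hG3
  have hG1m : MeasurableSet G1 := MeasurableSet.iUnion fun p => MeasurableSet.iUnion fun n =>
    (isClosed_Cone f _ _ _ _ _).measurableSet
  have hG2m : MeasurableSet G2 := MeasurableSet.iUnion fun p => MeasurableSet.iUnion fun n =>
    (isClosed_Cone f _ _ _ _ _).measurableSet
  have hG3m : MeasurableSet G3 := MeasurableSet.iInter fun p => MeasurableSet.iUnion fun n =>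
    (isClosed_Cross f _ _ _ _).measurableSet
  have hinc : G1 ∩ G2 ∩ G3 ⊆ ⋃ k, PC f ε i j b k := by
    rintro z ⟨⟨h1, h2⟩, h3⟩
    rw [hG1] at h1
    rw [hG2] at h2
    rw [hG3] at h3
    simp only [mem_iUnion, mem_iInter] at h1 h2 h3
    obtain ⟨p, n1, h1⟩ := h1
    obtain ⟨p', n2, h2⟩ := h2
    obtain ⟨m, h3⟩ := h3 (max n1 n2)
    rw [mem_iUnion]
    refine ⟨(p, p', max n1 n2, m), ?_⟩
    have hle1 : 1 / (((max n1 n2 : ℕ) : ℝ) + 1) ≤ 1 / ((n1 : ℝ) + 1) := by
      apply one_div_le_one_div_of_le (by positivity)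
      have : (n1 : ℝ) ≤ ((max n1 n2 : ℕ) : ℝ) := by exact_mod_cast le_max_left _ _
      linarith
    have hle2 : 1 / (((max n1 n2 : ℕ) : ℝ) + 1) ≤ 1 / ((n2 : ℝ) + 1) := by
      apply one_div_le_one_div_of_le (by positivity)
      have : (n2 : ℝ) ≤ ((max n1 n2 : ℕ) : ℝ) := by exact_mod_cast le_max_right _ _
      linarith
    exact ⟨⟨KC_cone_anti hle1 h1, KC_cone_anti hle2 h2⟩, h3⟩
  have hdecomp : D \ ⋃ k, PC f ε i j b k ⊆ (D \ G1) ∪ ((D \ G2) ∪ (D \ G3)) := by
    rintro z ⟨hz, hn⟩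
    by_cases h1 : z ∈ G1
    · by_cases h2 : z ∈ G2
      · by_cases h3 : z ∈ G3
        · exact absurd (hinc ⟨⟨h1, h2⟩, h3⟩) hn
        · exact Or.inr (Or.inr ⟨hz, h3⟩)
      · exact Or.inr (Or.inl ⟨hz, h2⟩)
    · exact Or.inl ⟨hz, h1⟩
  -- the small numbers
  have hsmall : ∀ δ : ℝ, 0 < δ → ∃ n : ℕ, 1 / ((n : ℝ) + 1) < δ := fun δ hδ =>
    exists_nat_one_div_lt hδ
  -- part 1
  have P1 : volume (pr (false, i) (true, j) '' (D \ G1)) = 0 := by
    refine inner_null f hfin _ _ _ (hD.diff hG1m) (sdiff_subset.trans hsub) fun K hK hKc => ?_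
    refine KC_gen_null f hfin (false, i) (false, ot i) (true, j) (curveS f i)
      (fun s => (continuous_curveS f i).comp (by fun_prop : Continuous fun u : ℝ => (s, u)))
      (injOn_curveS f i) (slice_source f i) (fun s hs u hu => co_curveS hs hu)
      (fun z hz => curveS_co hz i) D hsub hx' K (hK.trans sdiff_subset) hKc ?_
    intro z hz w hw1 hw2 hw3 h3 _
    apply (hK hz).2
    have hw := KC_eq_wT hw1 hw2 hw3
    obtain ⟨p, hp⟩ := hb.exists_dist_lt (co (true, ot j) w) (show (0 : ℝ) < ε / 4 by positivity)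
    obtain ⟨δ, hδ, h⟩ := h3 (ε / 2) (by positivity)
    obtain ⟨n, hn⟩ := hsmall δ hδ
    rw [hG1]
    simp only [mem_iUnion]
    refine ⟨p, n, hsub (hK hz).1, fun z' hz' hc' hnz => ?_⟩
    refine KC_cone_change (h z' hz' hc' (hnz.trans hn)) ?_
    rw [hw]
    refine (KC_wT_sub j _ _).trans ?_
    rw [Real.dist_eq] at hp
    linarith
  have P2 : volume (pr (false, i) (true, j) '' (D \ G2)) = 0 := by
    refine inner_null f hfin _ _ _ (hD.diff hG2m) (sdiff_subset.trans hsub) fun K hK hKc => ?_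
    apply null_pr_swap
    refine KC_gen_null f hfin (true, j) (true, ot j) (false, i) (curveT f j)
      (fun s => (continuous_curveT f j).comp (by fun_prop : Continuous fun u : ℝ => (s, u)))
      (injOn_curveT f j) (slice_target f j) (fun s hs u hu => co_curveT hs hu)
      (fun z hz => curveT_co hz j) D hsub hy' K (hK.trans sdiff_subset) hKc ?_
    intro z hz w hw1 hw2 hw3 h3 _
    apply (hK hz).2
    have hw := KC_eq_wU hw1 hw2 hw3
    obtain ⟨p, hp⟩ := hb.exists_dist_lt (co (false, ot i) w) (show (0 : ℝ) < ε / 4 by positivity)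
    obtain ⟨δ, hδ, h⟩ := h3 (ε / 2) (by positivity)
    obtain ⟨n, hn⟩ := hsmall δ hδ
    rw [hG2]
    simp only [mem_iUnion]
    refine ⟨p, n, hsub (hK hz).1, fun z' hz' hc' hnz => ?_⟩
    refine KC_cone_change (h z' hz' hc' (hnz.trans hn)) ?_
    rw [hw]
    refine (KC_wU_sub i _ _).trans ?_
    rw [Real.dist_eq] at hp
    linarith
  have P3 : volume (pr (false, i) (true, j) '' (D \ G3)) = 0 := by
    refine inner_null f hfin _ _ _ (hD.diff hG3m) (sdiff_subset.trans hsub) fun K hK hKc => ?_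
    apply null_pr_swap
    refine KC_gen_null f hfin (true, j) (true, ot j) (false, i) (curveT f j)
      (fun s => (continuous_curveT f j).comp (by fun_prop : Continuous fun u : ℝ => (s, u)))
      (injOn_curveT f j) (slice_target f j) (fun s hs u hu => co_curveT hs hu)
      (fun z hz => curveT_co hz j) D hsub hy' K (hK.trans sdiff_subset) hKc ?_
    intro z hz w hw1 hw2 hw3 _ h4
    apply (hK hz).2
    rw [hG3]
    simp only [mem_iUnion, mem_iInter]
    intro n
    obtain ⟨η, hη, h⟩ := h4 (1 / ((n : ℝ) + 1) / 4) (by positivity)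
    obtain ⟨m, hm⟩ := hsmall η hη
    exact ⟨m, hsub (hK hz).1, fun s hs _ => h s (hs.trans hm)⟩
  refine measure_mono_null (image_mono hdecomp) ?_
  rw [image_union, image_union]
  exact measure_union_null P1 (measure_union_null P2 P3)

end Pool.Agent.MP_ccb05f_an.G2
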