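import Pool.Agent.MP_ccb05f_an.G2.ProjLower

/-! # [GRL-C] -/

set_option autoImplicit false

open MeasureTheory Set Filter Topology Metric
open scoped ENNReal NNReal

namespace Pool.Agent.MP_ccb05f_an.G2

/-- `mm S ≤ 12 μH[2] S` (`vol_pr_le`) -/
theorem mm_le (S : Set E4) : mm S ≤ 12 * μH[2] S := by
  have h1 : mm S ≤ ∑ c : Ix, ∑ c' : Ix, if c = c' then 0 else μH[2] S := by
    unfold mm
    refine Finset.sum_le_sum fun c _ => Finset.sum_le_sum fun c' _ => ?_
    split_ifs
    · exact le_rfl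
    · exact vol_pr_le c c' S
  refine h1.trans (le_of_eq ?_)
  simp only [Fintype.sum_prod_type, Fintype.sum_bool, Fin.sum_univ_two]
  norm_num
  ring

theorem ahlfors (g : Hm) (z : E4) (hz : z ∈ graph g) (r : ℝ) (h0 : 0 < r) (h1 : r < 1 / 2) :
    ENNReal.ofReal (r ^ 2 / 240) ≤ μH[2] (graph g ∩ Box z r) := by
  have h2 := (proj_lower g z hz r h0 h1).trans (mm_le _)
  have h3 : ENNReal.ofReal (r ^ 2 / 20) = 12 * ENNReal.ofReal (r ^ 2 / 240) := by
    rw [show (12 : ℝ≥0∞) = ENNReal.ofReal 12 by norm_num, ← ENNReal.ofReal_mul (by norm_num)]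
    congr 1
    ring
  rw [h3] at h2
  exact (ENNReal.mul_le_mul_iff_right (by norm_num) (by norm_num)).1 h2

/-- the packing bound -/
theorem crude_pack (f : Hm) (fn : ℕ → Hm) (hc : Conv fn f) (C : ℝ≥0∞)
    (h : ∀ n, μH[2] (graph (fn n)) ≤ C) (r : ℝ) (h0 : 0 < r) (h1 : r < 1) (t : Finset E4)
    (ht : (t : Set E4) ⊆ graph f) (hs : (t : Set E4).Pairwise fun z w => r ≤ dist z w) :
    (t.card : ℝ≥0∞) * ENNReal.ofReal ((r / 8) ^ 2 / 240) ≤ C := by
  obtain ⟨n, hn⟩ := (hc.pt (r / 8) (by positivity)).exists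
  have hx : ∀ z : E4, ∃ x : Cube 2, z ∈ t → pt f x = z := by
    intro z
    by_cases hz : z ∈ t
    · obtain ⟨x, hx⟩ := ht hz
      exact ⟨x, fun _ => hx⟩
    · exact ⟨cl 0, fun h => absurd h hz⟩
  choose x hx using hx
  set z' : E4 → E4 := fun z => pt (fn n) (x z) with hz'
  have hclose : ∀ z ∈ t, ‖z' z - z‖ < r / 8 := by
    intro z hz
    have := hn (x z)
    rw [hx z hz] at this
    exact this
  have hdisj : (t : Set E4).PairwiseDisjoint fun z => graph (fn n) ∩ Box (z' z) (r / 8) := by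
    intro z hz w hw hzw
    change Disjoint (graph (fn n) ∩ Box (z' z) (r / 8)) (graph (fn n) ∩ Box (z' w) (r / 8))
    rw [Set.disjoint_left]
    rintro y ⟨-, hy1⟩ ⟨-, hy2⟩
    have e1 : ‖y - z' z‖ ≤ 2 * (r / 8) := by
      refine norm_le_of_co (by positivity) fun c => ?_
      rw [co_sub]
      exact hy1 c
    have e2 : ‖y - z' w‖ ≤ 2 * (r / 8) := by
      refine norm_le_of_co (by positivity) fun c => ?_
      rw [co_sub]
      exact hy2 c
    have e3 := hclose z hz
    have e4 := hclose w hw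
    have e5 : r ≤ dist z w := hs hz hw hzw
    rw [dist_eq_norm] at e5
    have e6 : z - w = -(z' z - z) + -(y - z' z) + (y - z' w) + (z' w - w) := by abel
    have e7 : ‖z - w‖ ≤ ‖z' z - z‖ + ‖y - z' z‖ + ‖y - z' w‖ + ‖z' w - w‖ := by
      rw [e6]
      refine (norm_add_le _ _).trans (add_le_add_left ?_ _)
      refine (norm_add_le _ _).trans (add_le_add_left ?_ _)
      refine (norm_add_le _ _).trans (le_of_eq ?_)
      rw [norm_neg, norm_neg]
    linarith
  have hmeas : ∀ z ∈ t, MeasurableSet (graph (fn n) ∩ Box (z' z) (r / 8)) := fun z _ =>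
    ((isClosed_graph _).inter (isClosed_Box _ _)).measurableSet
  have hsum := measure_biUnion_finset (μ := μH[2]) hdisj hmeas
  have hle : μH[2] (⋃ z ∈ t, graph (fn n) ∩ Box (z' z) (r / 8)) ≤ C :=
    (measure_mono (iUnion₂_subset fun z _ => inter_subset_left)).trans (h n)
  rw [hsum] at hle
  refine le_trans ?_ hle
  rw [← nsmul_eq_mul]
  refine Finset.card_nsmul_le_sum _ _ _ fun z hz => ?_
  exact ahlfors (fn n) (z' z) (pt_mem _ _) (r / 8) (by positivity) (by linarith)

/-- the covering -/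
theorem crude_cover (f : Hm) (fn : ℕ → Hm) (hc : Conv fn f) (C : ℝ≥0∞) (hC : C ≠ ∞)
    (h : ∀ n, μH[2] (graph (fn n)) ≤ C) (r : ℝ) (h0 : 0 < r) (h1 : r < 1) :
    ∃ t : Finset E4, (t.card : ℝ≥0∞) * ENNReal.ofReal ((r / 8) ^ 2 / 240) ≤ C ∧
      graph f ⊆ ⋃ z : t, closedBall (z : E4) r := by
  classical
  set P : Set ℕ := {m | ∃ t : Finset E4, (t : Set E4) ⊆ graph f ∧
    ((t : Set E4).Pairwise fun z w => r ≤ dist z w) ∧ t.card = m} with hP
  have hc0 : (0 : ℝ) < (r / 8) ^ 2 / 240 := by positivity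
  have hbdd : BddAbove P := by
    have hc1 : ENNReal.ofReal ((r / 8) ^ 2 / 240) ≠ 0 := (ENNReal.ofReal_pos.2 hc0).ne'
    obtain ⟨B, hB⟩ := ENNReal.exists_nat_gt (ENNReal.div_ne_top hC hc1)
    refine ⟨B, ?_⟩
    rintro m ⟨t, ht, hs, rfl⟩
    have h2 := crude_pack f fn hc C h r h0 h1 t ht hs
    have h3 : (t.card : ℝ≥0∞) ≤ C / ENNReal.ofReal ((r / 8) ^ 2 / 240) := by
      rw [ENNReal.le_div_iff_mul_le (Or.inl hc1) (Or.inl ENNReal.ofReal_ne_top)]
      exact h2
    exact_mod_cast (h3.trans hB.le)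
  have hne : P.Nonempty := ⟨0, ∅, by simp, by simp, by simp⟩
  obtain ⟨t, ht, hs, hcard⟩ := Nat.sSup_mem hne hbdd
  refine ⟨t, crude_pack f fn hc C h r h0 h1 t ht hs, ?_⟩
  intro z hz
  by_contra hcon
  have hfar : ∀ w ∈ t, r ≤ dist z w := by
    intro w hw
    by_contra hlt
    apply hcon
    rw [mem_iUnion]
    exact ⟨⟨w, hw⟩, mem_closedBall.2 (not_le.1 hlt).le⟩
  have hzt : z ∉ t := by
    intro hzt
    have := hfar z hzt
    rw [dist_self] at this
    linarith
  have hmem : t.card + 1 ∈ P := by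
    refine ⟨insert z t, ?_, ?_, Finset.card_insert_of_notMem hzt⟩
    · rw [Finset.coe_insert]
      exact insert_subset hz ht
    · rw [Finset.coe_insert]
      refine hs.insert fun w hw _ => ⟨hfar w hw, ?_⟩
      rw [dist_comm]
      exact hfar w hw
  have := le_csSup hbdd hmem
  omega

/-- [GRL-C] (`mm_le` and `ahlfors` are immediate from `vol_pr_le` and `proj_lower`.) Let `0 < r < 1`; let `t ⊆ graph f` be a
maximal `r`-separated set (finite, `N` elements; compactness). For `n` large (`Conv.pt` with `r / 8`) there are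
`z' ∈ graph (fn n)` with `‖z' - z‖ < r / 8` for `z ∈ t`; the boxes `Box z' (r / 8)` are contained in the balls with centre `z`
and radius `r / 8 + 2 * r / 8 < r / 2` (`norm_le_of_co`), so they are disjoint and `ahlfors` gives
`N * (r / 8)² / 240 ≤ μH[2] (graph (fn n)) ≤ C`. The balls `closedBall z r`, `z ∈ t`, cover `graph f`, so `graph f` is covered
by `N` sets of diameter `≤ 2 r`, and `N * (2 r)² ≤ 61440 * C`. Hence `μH[2] (graph f) ≤ 61440 * C`
(`hausdorffMeasure_le_liminf_sum` or `hausdorffMeasure_le_liminf_tsum` along `r = 1 / (n + 2)`). -/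
theorem crude (f : Hm) (fn : ℕ → Hm) (hc : Conv fn f) (C : ℝ≥0∞) (hC : C ≠ ∞)
    (h : ∀ n, μH[2] (graph (fn n)) ≤ C) : μH[2] (graph f) ≠ ∞ := by
  set r : ℕ → ℝ := fun n => 1 / ((n : ℝ) + 2) with hr
  have hr0 : ∀ n, 0 < r n := fun n => by positivity
  have hr1 : ∀ n, r n < 1 := fun n => by
    rw [hr]
    simp only
    rw [div_lt_one (by positivity)]
    have : (0 : ℝ) ≤ n := Nat.cast_nonneg n
    linarith
  have hex := fun n => crude_cover f fn hc C hC h (r n) (hr0 n) (hr1 n)
  choose t ht1 ht2 using hex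
  have hlim : Tendsto (fun n => ENNReal.ofReal (2 * r n)) atTop (𝓝 0) := by
    rw [← ENNReal.ofReal_zero]
    refine ENNReal.tendsto_ofReal ?_
    have h1 : Tendsto r atTop (𝓝 0) := by
      have h2 : Tendsto (fun n : ℕ => (n : ℝ) + 2) atTop atTop :=
        tendsto_atTop_add_const_right _ _ tendsto_natCast_atTop_atTop
      have h3 := h2.inv_tendsto_atTop
      refine h3.congr fun n => ?_
      rw [hr]
      simp [one_div]
    simpa using h1.const_mul 2
  have hd : ∀ n, ∀ z : t n, ediam (closedBall (z : E4) (r n)) ≤ ENNReal.ofReal (2 * r n) := by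
    intro n z
    refine Metric.ediam_le_of_forall_dist_le fun x hx y hy => ?_
    rw [mem_closedBall] at hx hy
    have := dist_triangle_right x y (z : E4)
    linarith
  have key := Measure.hausdorffMeasure_le_liminf_sum (2 : ℝ) (graph f) (l := atTop)
    (fun n => ENNReal.ofReal (2 * r n)) hlim (fun n (z : t n) => closedBall (z : E4) (r n))
    (Eventually.of_forall hd) (Eventually.of_forall ht2)
  have hbound : ∀ n, ∑ z : t n, ediam (closedBall (z : E4) (r n)) ^ (2 : ℝ) ≤ 61440 * C := by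
    intro n
    have h2 : ∑ z : t n, ediam (closedBall (z : E4) (r n)) ^ (2 : ℝ) ≤
        ∑ z : t n, ENNReal.ofReal (4 * (r n) ^ 2) := by
      refine Finset.sum_le_sum fun z _ => ?_
      have h3 := ENNReal.rpow_le_rpow (hd n z) (by norm_num : (0 : ℝ) ≤ 2)
      refine h3.trans (le_of_eq ?_)
      rw [ENNReal.ofReal_rpow_of_nonneg (by have := hr0 n; positivity) (by norm_num)]
      congr 1
      rw [show (2 : ℝ) = ((2 : ℕ) : ℝ) by norm_num, Real.rpow_natCast]
      push_cast
      ring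
    refine h2.trans ?_
    rw [Finset.sum_const, nsmul_eq_mul, Finset.card_univ, Fintype.card_coe]
    have h4 : ENNReal.ofReal (4 * (r n) ^ 2) =
        ENNReal.ofReal ((r n / 8) ^ 2 / 240) * 61440 := by
      rw [show (61440 : ℝ≥0∞) = ENNReal.ofReal 61440 by norm_num,
        ← ENNReal.ofReal_mul (by positivity)]
      congr 1
      ring
    rw [h4, ← mul_assoc, mul_comm]
    gcongr
    exact ht1 n
  have hfin : μH[2] (graph f) ≤ 61440 * C := by
    refine key.trans ?_
    refine Filter.liminf_le_of_le (by isBoundedDefault) ?_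
    intro b hb
    obtain ⟨n, hn⟩ := hb.exists
    exact hn.trans (hbound n)
  exact ne_top_of_le_ne_top (ENNReal.mul_ne_top (by norm_num) hC) hfin

end Pool.Agent.MP_ccb05f_an.G2
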