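import Pool.Agent.MP_ccb05f_an.G2.Basic

/-! # flatness of the pieces (linear algebra) -/

set_option autoImplicit false

open MeasureTheory Set Filter Topology Metric
open scoped ENNReal NNReal

namespace Pool.Agent.MP_ccb05f_an.G2

theorem piece_flat {f : Hm} {c c' : Ix} {w w' : E4} {ε δ δ' : ℝ} (hδ : 0 < δ) {z₀ z₁ : E4}
    (h0 : z₀ ∈ Piece (graph f) c c' w w' ε δ δ') (h1 : z₁ ∈ Piece (graph f) c c' w w' ε δ δ')
    (hd : ‖z₁ - z₀‖ < δ / 4) (hd' : ‖z₁ - z₀‖ < δ') :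
    ‖z₁ - z₀ - ((co c z₁ - co c z₀) • w' + (co c' z₁ - co c' z₀) • w)‖ ≤
      ε * (|co c z₁ - co c z₀| + |co c' z₁ - co c' z₀|) := by
  obtain ⟨⟨hA0, hB0⟩, hC0⟩ := h0
  obtain ⟨⟨hA1, hB1⟩, hC1⟩ := h1
  obtain ⟨z₂, hz2, h21, h20, hn⟩ := hC1.2 (co c z₀) (by
    rw [← co_sub]
    refine (abs_co_le c _).trans_lt ?_
    rw [← norm_neg, neg_sub]
    exact hd') (co_mem_Icc hA0.1 c)
  have e1 := hB1.2 z₂ hz2 h21 (by linarith)
  have e0 := hA0.2 z₂ hz2 h20 (by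
    have : z₂ - z₀ = (z₂ - z₁) + (z₁ - z₀) := by abel
    rw [this]
    refine (norm_add_le _ _).trans_lt ?_
    linarith)
  rw [h20] at e1
  rw [h21] at e0
  have e : z₁ - z₀ - ((co c z₁ - co c z₀) • w' + (co c' z₁ - co c' z₀) • w) =
      (z₂ - z₀ - (co c' z₁ - co c' z₀) • w) - (z₂ - z₁ - (co c z₀ - co c z₁) • w') := by
    simp only [sub_smul]
    abel
  rw [e]
  refine (norm_sub_le _ _).trans ?_
  rw [abs_sub_comm (co c z₀)] at e1
  linarith [mul_add ε |co c z₁ - co c z₀| |co c' z₁ - co c' z₀|]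

/-- from near-linearity to flatness relative to the orthogonal projection `L ∘ T` -/
theorem flat_of_near {L : E2 →ₗ[ℝ] E4} {T : E4 →ₗ[ℝ] E2} (hTL : ∀ h, T (L h) = h)
    (hLT : ∀ z, ‖L (T z)‖ ≤ ‖z‖) (hL : ∀ h, ‖h‖ ≤ ‖L h‖) {ε : ℝ} (hε : 0 ≤ ε) (hε' : ε ≤ 1 / 8)
    {y : E4} {q : E2} (h : ‖y - L q‖ ≤ 2 * ε * ‖q‖) : ‖y‖ ≤ (1 + 8 * ε) * ‖L (T y)‖ := by
  have h1 : ‖y - L q‖ ≤ 2 * ε * ‖L q‖ := h.trans (mul_le_mul_of_nonneg_left (hL q) (by positivity))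
  have h2 : ‖y‖ ≤ (1 + 2 * ε) * ‖L q‖ := by
    have : ‖y‖ ≤ ‖y - L q‖ + ‖L q‖ := by
      have h3 := norm_add_le (y - L q) (L q)
      rwa [sub_add_cancel] at h3
    linarith
  have h3 : (1 - 2 * ε) * ‖L q‖ ≤ ‖L (T y)‖ := by
    have e : L q = L (T y) - L (T (y - L q)) := by
      rw [map_sub T, hTL, map_sub L]
      abel
    have h4 : ‖L q‖ ≤ ‖L (T y)‖ + ‖L (T (y - L q))‖ := by
      conv_lhs => rw [e]
      exact norm_sub_le _ _
    have h5 := (hLT (y - L q)).trans h1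
    linarith
  have h6 : 0 ≤ ‖L q‖ := norm_nonneg _
  have h7 : (1 + 2 * ε) ≤ (1 + 8 * ε) * (1 - 2 * ε) := by nlinarith
  calc ‖y‖ ≤ (1 + 2 * ε) * ‖L q‖ := h2
    _ ≤ ((1 + 8 * ε) * (1 - 2 * ε)) * ‖L q‖ := mul_le_mul_of_nonneg_right h7 h6
    _ = (1 + 8 * ε) * ((1 - 2 * ε) * ‖L q‖) := by ring
    _ ≤ (1 + 8 * ε) * ‖L (T y)‖ := mul_le_mul_of_nonneg_left h3 (by linarith)

/-- a linear map with `‖h‖ ≤ ‖L h‖` has a left inverse `T` such that `L ∘ T` is the orthogonal projection -/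
theorem exists_T (L : E2 →ₗ[ℝ] E4) (hL : ∀ h, ‖h‖ ≤ ‖L h‖) :
    ∃ T : E4 →ₗ[ℝ] E2, (∀ h, T (L h) = h) ∧ (∀ z, ‖L (T z)‖ ≤ ‖z‖) ∧ ∀ z, ‖T z‖ ≤ ‖z‖ := by
  have hinj : Function.Injective L := by
    intro x y hxy
    have h1 := hL (x - y)
    rw [map_sub, hxy, sub_self, norm_zero] at h1
    exact sub_eq_zero.1 (norm_eq_zero.1 (le_antisymm h1 (norm_nonneg _)))
  let e := LinearEquiv.ofInjective L hinj
  let P := (LinearMap.range L).orthogonalProjectionOnto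
  refine ⟨e.symm.toLinearMap ∘ₗ P.toLinearMap, ?_, ?_, ?_⟩
  · intro h
    have h1 : P (L h) = e h := by
      have := Submodule.orthogonalProjectionOnto_mem_subspace_eq_self (K := LinearMap.range L) (e h)
      exact this
    simp only [LinearMap.comp_apply, ContinuousLinearMap.coe_coe, LinearEquiv.coe_coe]
    rw [h1, LinearEquiv.symm_apply_apply]
  · intro z
    have h1 : L ((e.symm.toLinearMap ∘ₗ P.toLinearMap) z) = (P z : E4) := by
      have h2 : ((e (e.symm (P z)) : LinearMap.range L) : E4) = P z := by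
        rw [LinearEquiv.apply_symm_apply]
      exact h2
    rw [h1]
    exact Submodule.norm_orthogonalProjectionOnto_apply_le _ z
  · intro z
    have h1 : L ((e.symm.toLinearMap ∘ₗ P.toLinearMap) z) = (P z : E4) := by
      have h2 : ((e (e.symm (P z)) : LinearMap.range L) : E4) = P z := by
        rw [LinearEquiv.apply_symm_apply]
      exact h2
    refine (hL _).trans ?_
    rw [h1]
    exact Submodule.norm_orthogonalProjectionOnto_apply_le _ z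

end Pool.Agent.MP_ccb05f_an.G2
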