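import Pool.Agent.MP_ccb05f_an.G2.Basic

/-! # [GRL-J] from stable projections to measures; [GRL-M] countable decomposition -/

set_option autoImplicit false

open MeasureTheory Set Filter Topology Metric
open scoped ENNReal NNReal

namespace Pool.Agent.MP_ccb05f_an.G2

/-- liminf of measures of arbitrary sets -/
theorem meas_liminf {α : Type*} [MeasurableSpace α] (m : Measure α) (A : ℕ → Set α) :
    m {p | ∀ᶠ n in atTop, p ∈ A n} ≤ liminf (fun n => m (A n)) atTop := by
  have h : {p | ∀ᶠ n in atTop, p ∈ A n} = ⋃ N : ℕ, ⋂ n ≥ N, A n := by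
    ext p
    simp [eventually_atTop]
  rw [h, Monotone.measure_iUnion, liminf_eq_iSup_iInf_of_nat]
  · refine iSup_mono fun N => le_iInf₂ fun n hn => measure_mono ?_
    exact biInter_subset_of_mem hn
  · intro N N' hN
    exact biInter_subset_biInter_left fun n hn => le_trans hN hn

/-- [GRL-J] Let `m = μH[2].map L⁻¹`, i.e. `m B = μH[2] (L '' B)`: a translation invariant measure on `E2`, finite on bounded sets
(`L` is Lipschitz and `μH[2]` of a bounded subset of `E2` is finite: `E2` is Lipschitz equivalent to `ℝ × ℝ` or `Fin 2 → ℝ`,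
`hausdorffMeasure_pi_real`), so `m = κ • volume`, `κ < ∞` (`Measure.isAddHaarMeasure…`/`addHaarMeasure_unique`, or directly
`m ≪ volume`). `L ∘ T` is `1`-Lipschitz, so `m (T '' S n) = μH[2] (L '' (T '' S n)) ≤ μH[2] (S n)`. By `hflat` the set `K` is
the image of `L '' (T '' K)` under a `κ`-Lipschitz map: `μH[2] K ≤ κ² μH[2] (L '' (T '' K)) = κ² m (T '' K)`. By `hev`
`T '' K ⊆ {p | ∀ᶠ n, p ∈ T '' S n}` up to an `m`-null set, and `m {p | ∀ᶠ n, p ∈ T '' S n} ≤ liminf m (T '' S n)`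
(`measure_liminf_le`/Fatou). -/
theorem lsc_piece (L : E2 →ₗ[ℝ] E4) (T : E4 →ₗ[ℝ] E2) (hTL : ∀ h, T (L h) = h)
    (hLT : ∀ z, ‖L (T z)‖ ≤ ‖z‖) (K : Set E4) (hK : IsCompact K) (κ : ℝ) (hκ : 0 ≤ κ)
    (hflat : ∀ z ∈ K, ∀ z' ∈ K, ‖z - z'‖ ≤ κ * ‖L (T (z - z'))‖) (S : ℕ → Set E4)
    (hS : ∀ n, MeasurableSet (T '' S n))
    (hev : ∀ᵐ p : E2, p ∈ T '' K → ∀ᶠ n in atTop, p ∈ T '' S n) :
    μH[2] K ≤ ENNReal.ofReal (κ ^ 2) * liminf (fun n => μH[2] (S n)) atTop := by
  lift κ to ℝ≥0 using hκ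
  have hinj : Function.Injective L := fun x y h => by rw [← hTL x, ← hTL y, h]
  have hcl : Topology.IsClosedEmbedding L := LinearMap.isClosedEmbedding_of_injective
    (LinearMap.ker_eq_bot.2 hinj)
  have hme : MeasurableEmbedding L := hcl.measurableEmbedding
  set m : Measure E2 := Measure.comap L μH[2] with hm
  have hmap : ∀ B, m B = μH[2] (L '' B) := fun B => hme.comap_apply _ _
  -- absolute continuity
  have hac : m ≪ volume := by
    refine Measure.AbsolutelyContinuous.mk fun B _ hB => ?_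
    rw [hmap]
    have h1 : (μH[2] : Measure E2) B = 0 := by
      have h2 : (μH[2] : Measure E2) ≪ volume := by
        have h3 : Measure.IsAddHaarMeasure (μH[2] : Measure E2) := by
          simpa using isAddHaarMeasure_hausdorffMeasure (E := E2)
        exact Measure.absolutelyContinuous_isAddHaarMeasure _ _
      exact h2 hB
    have h4 := (L.toContinuousLinearMap.lipschitz).hausdorffMeasure_image_le (d := 2)
      (by norm_num) B
    rw [h1, mul_zero] at h4
    exact le_antisymm h4 (zero_le)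
  -- 1-Lipschitz
  have hlip : LipschitzWith 1 (fun z => L (T z)) := by
    refine LipschitzWith.of_dist_le_mul fun z z' => ?_
    rw [dist_eq_norm, dist_eq_norm, ← map_sub, ← map_sub, NNReal.coe_one, one_mul]
    exact hLT _
  have hmS : ∀ n, m (T '' S n) ≤ μH[2] (S n) := by
    intro n
    rw [hmap, ← image_comp]
    have h := hlip.hausdorffMeasure_image_le (d := 2) (by norm_num) (S n)
    simpa using h
  have hmK : m (T '' K) ≤ liminf (fun n => μH[2] (S n)) atTop := by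
    have h1 : m (T '' K) ≤ m {p | ∀ᶠ n in atTop, p ∈ T '' S n} := by
      refine measure_mono_ae ?_
      exact hac.ae_le hev
    refine h1.trans ((meas_liminf m _).trans ?_)
    exact liminf_le_liminf (Eventually.of_forall hmS)
  -- the flat side
  have hanti : AntilipschitzWith κ (fun z : K => L (T (z : E4))) := by
    refine AntilipschitzWith.of_le_mul_dist fun z z' => ?_
    rw [dist_eq_norm (L (T (z : E4))), ← map_sub, ← map_sub, Subtype.dist_eq, dist_eq_norm]
    exact hflat _ z.2 _ z'.2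
  have h5 := hanti.le_hausdorffMeasure_image (d := 2) (by norm_num) univ
  have h6 : μH[2] (univ : Set K) = μH[2] K := by
    have := (isometry_subtype_coe (s := K)).hausdorffMeasure_image (d := 2)
      (Or.inl (by norm_num)) univ
    rw [← this, image_univ, Subtype.range_coe]
  have h7 : (fun z : K => L (T (z : E4))) '' univ = L '' (T '' K) := by
    rw [image_univ, ← image_comp]
    ext y
    constructor
    · rintro ⟨z, rfl⟩
      exact ⟨z, z.2, rfl⟩
    · rintro ⟨z, hz, rfl⟩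
      exact ⟨⟨z, hz⟩, rfl⟩
  rw [h6, h7, ← hmap] at h5
  refine h5.trans ?_
  have h8 : (κ : ℝ≥0∞) ^ (2 : ℝ) = ENNReal.ofReal ((κ : ℝ) ^ 2) := by
    rw [ENNReal.rpow_two, ← NNReal.coe_pow, ENNReal.ofReal_coe_nnreal, ENNReal.coe_pow]
  rw [h8]
  gcongr

/-- finite sums and liminf -/
theorem meas_sum_liminf (N : ℕ) (a : ℕ → Fin N → ℝ≥0∞) :
    ∑ k, liminf (fun n => a n k) atTop ≤ liminf (fun n => ∑ k, a n k) atTop := by
  have h := lintegral_liminf_le (μ := (Measure.count : Measure (Fin N))) (f := a) (u := atTop)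
    (fun n => measurable_of_finite _)
  simpa [lintegral_count, tsum_fintype] using h

/-- disjoint open neighbourhoods of finitely many disjoint compact sets -/
theorem meas_sep (N : ℕ) (K : Fin N → Set E4) (hK : ∀ k, IsCompact (K k))
    (hd : Pairwise (Function.onFun Disjoint K)) :
    ∃ U : Fin N → Set E4, (∀ k, IsOpen (U k)) ∧ (∀ k, K k ⊆ U k) ∧
      Pairwise (Function.onFun Disjoint U) := by
  have h1 : Pairwise (Function.onFun Disjoint fun k => 𝓝ˢ (K k)) := fun k l hkl =>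
    (SeparatedNhds.of_isCompact_isCompact (hK k) (hK l) (hd hkl)).disjoint_nhdsSet
  obtain ⟨s, hs, hsd⟩ := h1.exists_mem_filter_of_disjoint
  have h2 : ∀ k, ∃ U, IsOpen U ∧ K k ⊆ U ∧ U ⊆ s k := fun k => mem_nhdsSet_iff_exists.1 (hs k)
  choose U hU1 hU2 hU3 using h2
  exact ⟨U, hU1, hU2, fun k l hkl => (hsd hkl).mono (hU3 k) (hU3 l)⟩

/-- [GRL-M] `μ = μH[2].restrict Γ` is finite. Disjointify: `P' k = P k \ ⋃ l < k, P l`, `∑ μ (P' k) = μ Γ`. Given `η > 0`
choose `N` with `∑_{k < N} μ (P' k) ≥ μ Γ - η` and compact `K k ⊆ P' k ∩ Γ` with `μ (K k) ≥ μ (P' k) - η / N`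
(`MeasurableSet.exists_isCompact_lt_add`). The `K k`, `k < N`, are disjoint compact sets, so there are disjoint open
`U k ⊇ K k` (e.g. thickenings). Then
`μ Γ - 2 η ≤ ∑_{k<N} μH[2] (K k) ≤ C ∑ liminf μH[2] (Γn n ∩ U k) ≤ C liminf ∑ μH[2] (Γn n ∩ U k) ≤ C liminf μH[2] (Γn n)`. -/
theorem lsc_of_pieces (Γ : Set E4) (hΓ : IsClosed Γ) (hfin : μH[2] Γ ≠ ∞) (P : ℕ → Set E4)
    (hP : ∀ k, IsClosed (P k)) (hcov : μH[2] (Γ \ ⋃ k, P k) = 0) (Γn : ℕ → Set E4)
    (hm : ∀ n, MeasurableSet (Γn n)) (C : ℝ≥0∞) (hC : C ≠ ∞)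
    (h : ∀ k, ∀ K ⊆ P k ∩ Γ, IsCompact K → ∀ U, IsOpen U → K ⊆ U →
      μH[2] K ≤ C * liminf (fun n => μH[2] (Γn n ∩ U)) atTop) :
    μH[2] Γ ≤ C * liminf (fun n => μH[2] (Γn n)) atTop := by
  set D : ℕ → Set E4 := disjointed P with hD
  have hDm : ∀ k, MeasurableSet (D k) := fun k =>
    MeasurableSet.disjointed (fun i => (hP i).measurableSet) k
  have hDd : Pairwise (Function.onFun Disjoint D) := disjoint_disjointed P
  have hDU : ⋃ k, D k = ⋃ k, P k := iUnion_disjointed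
  have hDs : ∀ k, D k ⊆ P k := fun k => disjointed_subset P k
  set μ : Measure E4 := (μH[2] : Measure E4).restrict Γ with hμ
  have : IsFiniteMeasure μ := ⟨by rw [hμ, Measure.restrict_apply_univ]; exact hfin.lt_top⟩
  have hsum : μH[2] Γ ≤ ∑' k, μ (D k) := by
    have h1 : ∑' k, μ (D k) = μ (⋃ k, D k) := (measure_iUnion hDd hDm).symm
    rw [h1, hDU, hμ, Measure.restrict_apply (MeasurableSet.iUnion fun k => (hP k).measurableSet)]
    calc μH[2] Γ ≤ μH[2] (((⋃ k, P k) ∩ Γ) ∪ (Γ \ ⋃ k, P k)) := by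
          refine measure_mono fun x hx => ?_
          by_cases hx' : x ∈ ⋃ k, P k
          · exact Or.inl ⟨hx', hx⟩
          · exact Or.inr ⟨hx, hx'⟩
      _ ≤ μH[2] ((⋃ k, P k) ∩ Γ) + μH[2] (Γ \ ⋃ k, P k) := measure_union_le _ _
      _ = μH[2] ((⋃ k, P k) ∩ Γ) := by rw [hcov, add_zero]
  refine hsum.trans ?_
  refine ENNReal.tsum_le_of_sum_range_le fun N => ?_
  refine ENNReal.le_of_forall_pos_le_add fun ε hε hfin' => ?_
  -- choose compact subsets
  rcases Nat.eq_zero_or_pos N with hN | hN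
  · rw [hN]; simp
  have hε' : ((ε / N : ℝ≥0) : ℝ≥0∞) ≠ 0 := by
    have : (ε / N : ℝ≥0) ≠ 0 := by
      refine div_ne_zero hε.ne' ?_
      exact_mod_cast hN.ne'
    exact_mod_cast this
  have hK : ∀ k : Fin N, ∃ K, K ⊆ D k ∩ Γ ∧ IsCompact K ∧
      μ (D k ∩ Γ) < μ K + ((ε / N : ℝ≥0) : ℝ≥0∞) := fun k =>
    ((hDm k).inter hΓ.measurableSet).exists_isCompact_lt_add (measure_ne_top μ _) hε'
  choose K hK1 hK2 hK3 using hK
  have hKd : Pairwise (Function.onFun Disjoint K) := by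
    intro k l hkl
    have h1 : (k : ℕ) ≠ l := fun h => hkl (Fin.ext h)
    exact (hDd h1).mono (fun x hx => (hK1 k hx).1) (fun x hx => (hK1 l hx).1)
  obtain ⟨U, hU1, hU2, hU3⟩ := meas_sep N K hK2 hKd
  have h1 : ∀ k : Fin N, μ (D k) ≤ C * liminf (fun n => μH[2] (Γn n ∩ U k)) atTop +
      ((ε / N : ℝ≥0) : ℝ≥0∞) := by
    intro k
    have h2 : μ (D k) = μ (D k ∩ Γ) := by
      rw [hμ, Measure.restrict_apply (hDm k),
        Measure.restrict_apply ((hDm k).inter hΓ.measurableSet), inter_assoc, inter_self]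
    have h3 : μ (K k) ≤ μH[2] (K k) := Measure.restrict_apply_le _ _
    rw [h2]
    refine (hK3 k).le.trans ?_
    gcongr
    refine h3.trans (h k (K k) (fun x hx => ⟨hDs k (hK1 k hx).1, (hK1 k hx).2⟩) (hK2 k) (U k)
      (hU1 k) (hU2 k))
  have h4 : ∀ n, ∑ k : Fin N, μH[2] (Γn n ∩ U k) ≤ μH[2] (Γn n) := by
    intro n
    have h5 : μH[2] (⋃ k : Fin N, Γn n ∩ U k) = ∑' k : Fin N, μH[2] (Γn n ∩ U k) :=
      measure_iUnion (fun k l hkl => (hU3 hkl).mono inter_subset_right inter_subset_right)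
        (fun k => (hm n).inter (hU1 k).measurableSet)
    rw [tsum_fintype] at h5
    rw [← h5]
    exact measure_mono (iUnion_subset fun k => inter_subset_left)
  calc ∑ k ∈ Finset.range N, μ (D k) = ∑ k : Fin N, μ (D k) := by
        rw [Finset.sum_range]
    _ ≤ ∑ k : Fin N, (C * liminf (fun n => μH[2] (Γn n ∩ U k)) atTop +
          ((ε / N : ℝ≥0) : ℝ≥0∞)) := Finset.sum_le_sum fun k _ => h1 k
    _ = C * ∑ k : Fin N, liminf (fun n => μH[2] (Γn n ∩ U k)) atTop + ε := by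
        rw [Finset.sum_add_distrib, Finset.mul_sum, Finset.sum_const, Finset.card_univ,
          Fintype.card_fin, nsmul_eq_mul]
        congr 1
        have h6 : ((N : ℝ≥0) : ℝ≥0∞) * ((ε / N : ℝ≥0) : ℝ≥0∞) = (ε : ℝ≥0∞) := by
          rw [← ENNReal.coe_mul, mul_div_cancel₀]
          exact_mod_cast hN.ne'
        rw [← h6]
        simp
    _ ≤ C * liminf (fun n => μH[2] (Γn n)) atTop + ε := by
        gcongr
        refine (meas_sum_liminf N fun n k => μH[2] (Γn n ∩ U k)).trans ?_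
        exact liminf_le_liminf (Eventually.of_forall h4)

end Pool.Agent.MP_ccb05f_an.G2
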