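import Pool.Agent.MP_ccb05f_an.G2.Topo

/-! # [GRL-A2] -/

set_option autoImplicit false

open MeasureTheory Set Filter Topology Metric
open scoped ENNReal NNReal

namespace Pool.Agent.MP_ccb05f_an.G2

theorem slice_lintegral_le {S : Set (ℝ × ℝ)} (hS : MeasurableSet S) (s r : ℝ) :
    ∫⁻ t in Ioo 0 r, (volume (Prod.mk (s + t) ⁻¹' S) + volume (Prod.mk (s - t) ⁻¹' S)) ≤
      volume S := by
  have hφ : Measurable fun u : ℝ => (volume : Measure ℝ) (Prod.mk u ⁻¹' S) :=
    measurable_measure_prodMk_left hS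
  have h1 : ∫⁻ t in Ioo 0 r, (volume : Measure ℝ) (Prod.mk (s + t) ⁻¹' S) =
      ∫⁻ u in Ioo s (s + r), volume (Prod.mk u ⁻¹' S) := by
    have h := (measurePreserving_add_left (volume : Measure ℝ) s).setLIntegral_comp_preimage
      (measurableSet_Ioo : MeasurableSet (Ioo s (s + r))) hφ
    rw [← h]
    congr 2
    ext t
    simp only [mem_preimage, mem_Ioo]
    constructor
    · rintro ⟨h1, h2⟩
      exact ⟨by linarith, by linarith⟩
    · rintro ⟨h1, h2⟩
      exact ⟨by linarith, by linarith⟩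
  have h2 : ∫⁻ t in Ioo 0 r, (volume : Measure ℝ) (Prod.mk (s - t) ⁻¹' S) =
      ∫⁻ u in Ioo (s - r) s, volume (Prod.mk u ⁻¹' S) := by
    have h := (Measure.measurePreserving_sub_left (volume : Measure ℝ) s).setLIntegral_comp_preimage
      (measurableSet_Ioo : MeasurableSet (Ioo (s - r) s)) hφ
    rw [← h]
    congr 2
    ext t
    simp only [mem_preimage, mem_Ioo]
    constructor
    · rintro ⟨h1, h2⟩
      exact ⟨by linarith, by linarith⟩
    · rintro ⟨h1, h2⟩
      exact ⟨by linarith, by linarith⟩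
  have hd : Disjoint (Ioo s (s + r)) (Ioo (s - r) s) := by
    rw [Set.disjoint_left]
    rintro u ⟨h1, _⟩ ⟨_, h2⟩
    exact lt_asymm h1 h2
  have hm : Measurable fun t : ℝ => (volume : Measure ℝ) (Prod.mk (s + t) ⁻¹' S) :=
    hφ.comp (measurable_const_add s)
  rw [lintegral_add_left hm, h1, h2, ← lintegral_union measurableSet_Ioo hd]
  refine (setLIntegral_le_lintegral _ _).trans ?_
  rw [Measure.volume_eq_prod, Measure.prod_apply hS]

theorem lintegral_tenth (r : ℝ) (h0 : 0 < r) :
    ∫⁻ t in Ioo 0 r, ENNReal.ofReal (t / 10) = ENNReal.ofReal (r ^ 2 / 20) := by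
  have hi : IntegrableOn (fun t : ℝ => t / 10) (Ioo 0 r) :=
    ((continuous_id.div_const 10).integrableOn_Icc (a := 0) (b := r)).mono_set Ioo_subset_Icc_self
  rw [← ofReal_integral_eq_lintegral_ofReal hi]
  · congr 1
    rw [← integral_Ioc_eq_integral_Ioo, ← intervalIntegral.integral_of_le h0.le,
      intervalIntegral.integral_div, integral_id]
    ring
  · rw [EventuallyLE, ae_restrict_iff' measurableSet_Ioo]
    exact Eventually.of_forall fun t ht => div_nonneg ht.1.le (by norm_num)

theorem slice_pointwise (g : Hm) (z : E4) (hz : z ∈ graph g) (r : ℝ) (h1 : r < 1 / 2) (t : ℝ)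
    (ht : t ∈ Ioo 0 r) :
    ENNReal.ofReal (t / 10) ≤ ∑ c : Ix, ∑ c' : Ix, if c = c' then 0 else
      (volume (Prod.mk (co c z + t) ⁻¹' (pr c c' '' (graph g ∩ Box z r))) +
        volume (Prod.mk (co c z - t) ⁻¹' (pr c c' '' (graph g ∩ Box z r)))) := by
  classical
  obtain ⟨F, hFg, hF, c', hc'⟩ := topo g z hz t ht.1 (ht.2.trans h1)
  refine hc'.trans ?_
  have hsub : co c' '' F ⊆ ({co c' z + t, co c' z - t} : Set ℝ) ∪ ⋃ c : Ix,
      (if c = c' then ∅ else (Prod.mk (co c z + t) ⁻¹' (pr c c' '' (graph g ∩ Box z r))) ∪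
        (Prod.mk (co c z - t) ⁻¹' (pr c c' '' (graph g ∩ Box z r)))) := by
    rintro _ ⟨z', hz', rfl⟩
    obtain ⟨hb, c, hc⟩ := hF z' hz'
    have hB : z' ∈ graph g ∩ Box z r := ⟨hFg hz', fun c => (hb c).trans ht.2.le⟩
    have hc2 : co c z' = co c z + t ∨ co c z' = co c z - t := by
      rcases abs_eq ht.1.le |>.1 hc with h | h
      · left; linarith
      · right; linarith
    by_cases hcc : c = c'
    · subst hcc
      left
      rcases hc2 with h | h
      · rw [h]; exact Or.inl rfl
      · rw [h]; exact Or.inr rfl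
    · right
      refine mem_iUnion.2 ⟨c, ?_⟩
      rw [if_neg hcc]
      rcases hc2 with h | h
      · left
        refine ⟨z', hB, ?_⟩
        rw [pr, h]
      · right
        refine ⟨z', hB, ?_⟩
        rw [pr, h]
  refine (measure_mono hsub).trans ((measure_union_le _ _).trans ?_)
  have h0 : volume ({co c' z + t, co c' z - t} : Set ℝ) = 0 :=
    ((Set.finite_singleton _).insert _).measure_zero _
  rw [h0, zero_add]
  refine (measure_iUnion_fintype_le _ _).trans (Finset.sum_le_sum fun c _ => ?_)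
  have h2 : (volume : Measure ℝ) (if c = c' then ∅ else
      (Prod.mk (co c z + t) ⁻¹' (pr c c' '' (graph g ∩ Box z r))) ∪
        (Prod.mk (co c z - t) ⁻¹' (pr c c' '' (graph g ∩ Box z r)))) ≤
      if c = c' then 0 else
      (volume (Prod.mk (co c z + t) ⁻¹' (pr c c' '' (graph g ∩ Box z r))) +
        volume (Prod.mk (co c z - t) ⁻¹' (pr c c' '' (graph g ∩ Box z r)))) := by
    split_ifs
    · rw [measure_empty]
    · exact measure_union_le _ _
  refine h2.trans ?_
  exact Finset.single_le_sum (f := fun c' : Ix => if c = c' then (0 : ℝ≥0∞) else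
      (volume (Prod.mk (co c z + t) ⁻¹' (pr c c' '' (graph g ∩ Box z r))) +
        volume (Prod.mk (co c z - t) ⁻¹' (pr c c' '' (graph g ∩ Box z r)))))
      (fun _ _ => zero_le) (Finset.mem_univ c')

/-- [GRL-A2] Let `S c c' = pr c c' '' (graph g ∩ Box z r)` (compact) with slices `S_u = {y | (u, y) ∈ S}`.
For `0 < t < r` take `F, c'` from `topo`: `co c' '' F ⊆ {co c' z + t, co c' z - t} ∪ ⋃_{c ≠ c'} (S c c')_{co c z + t} ∪
(S c c')_{co c z - t}` (`F ⊆ Box z t ⊆ Box z r`, and some `|co c z' - co c z| = t`), so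
`t / 10 ≤ ∑_{c ≠ c'} (vol (S c c')_{co c z + t} + vol (S c c')_{co c z - t})` (sum over all ordered pairs). Integrate over
`t ∈ (0, r)`: `∫ t / 10 = r² / 20`, and
`∫_0^r (vol S_{co c z + t} + vol S_{co c z - t}) dt ≤ ∫_ℝ vol S_u du = vol S` (`Measure.prod_apply`). -/
theorem proj_lower (g : Hm) (z : E4) (hz : z ∈ graph g) (r : ℝ) (h0 : 0 < r) (h1 : r < 1 / 2) :
    ENNReal.ofReal (r ^ 2 / 20) ≤ mm (graph g ∩ Box z r) := by
  classical
  have hS : ∀ c c' : Ix, MeasurableSet (pr c c' '' (graph g ∩ Box z r)) := fun c c' =>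
    (((isCompact_graph g).inter_right (isClosed_Box z r)).image
      (continuous_pr c c')).isClosed.measurableSet
  have hφ : ∀ c c' : Ix, Measurable fun u : ℝ =>
      (volume : Measure ℝ) (Prod.mk u ⁻¹' (pr c c' '' (graph g ∩ Box z r))) := fun c c' =>
    measurable_measure_prodMk_left (hS c c')
  have hm : ∀ c c' : Ix, Measurable fun t : ℝ => if c = c' then (0 : ℝ≥0∞) else
      (volume (Prod.mk (co c z + t) ⁻¹' (pr c c' '' (graph g ∩ Box z r))) +
        volume (Prod.mk (co c z - t) ⁻¹' (pr c c' '' (graph g ∩ Box z r)))) := by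
    intro c c'
    split_ifs
    · exact measurable_const
    · exact ((hφ c c').comp (measurable_const_add _)).add
        ((hφ c c').comp (measurable_const.sub measurable_id))
  rw [← lintegral_tenth r h0]
  refine (setLIntegral_mono' measurableSet_Ioo fun t ht =>
    slice_pointwise g z hz r h1 t ht).trans ?_
  rw [lintegral_finsetSum _ fun c _ => Finset.measurable_sum _ fun c' _ => hm c c']
  unfold mm
  refine Finset.sum_le_sum fun c _ => ?_
  rw [lintegral_finsetSum _ fun c' _ => hm c c']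
  refine Finset.sum_le_sum fun c' _ => ?_
  by_cases hcc : c = c'
  · simp [hcc]
  · simp only [if_neg hcc]
    exact slice_lintegral_le (hS c c') (co c z) r

end Pool.Agent.MP_ccb05f_an.G2
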