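import Pool.Agent.MP_ccb05f_an.G2.Nu
import Pool.Agent.MP_ccb05f_an.G2.ProjLower

/-! # [GRL-D] -/

set_option autoImplicit false

open MeasureTheory Set Filter Topology Metric
open scoped ENNReal NNReal

namespace Pool.Agent.MP_ccb05f_an.G2

/-- the sum of the projection measures on the graph -/
noncomputable def nullproj_mu (f : Hm) : Measure E4 :=
  ∑ c : Ix, ∑ c' : Ix, if c = c' then 0 else (nu c c').restrict (graph f)

theorem nullproj_apply (f : Hm) (S : Set E4) : nullproj_mu f S =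
    ∑ c : Ix, ∑ c' : Ix, if c = c' then 0 else (nu c c').restrict (graph f) S := by
  unfold nullproj_mu
  rw [Measure.finsetSum_apply]
  refine Finset.sum_congr rfl fun c _ => ?_
  rw [Measure.finsetSum_apply]
  refine Finset.sum_congr rfl fun c' _ => ?_
  split_ifs <;> simp

theorem nullproj_finite (f : Hm) (hfin : μH[2] (graph f) ≠ ∞) :
    IsFiniteMeasure (nullproj_mu f) := by
  refine ⟨?_⟩
  rw [nullproj_apply]
  refine ENNReal.sum_lt_top.2 fun c _ => ENNReal.sum_lt_top.2 fun c' _ => ?_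
  split_ifs
  · exact ENNReal.zero_lt_top
  · rw [Measure.restrict_apply_univ]
    exact (nu_le c c' _).trans_lt (lt_top_iff_ne_top.2 hfin)

theorem nullproj_mm_le (f : Hm) (S : Set E4) (hS : S ⊆ graph f) : mm S ≤ nullproj_mu f S := by
  rw [nullproj_apply]
  unfold mm
  refine Finset.sum_le_sum fun c _ => Finset.sum_le_sum fun c' _ => ?_
  split_ifs
  · exact le_rfl
  · rw [Measure.restrict_eq_self _ hS]
    exact vol_le_nu c c' S

theorem nullproj_zero (f : Hm) (Z : Set E4) (hZ : Z ⊆ graph f)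
    (h : ∀ c c', c ≠ c' → volume (pr c c' '' Z) = 0) : nullproj_mu f Z = 0 := by
  rw [nullproj_apply]
  refine Finset.sum_eq_zero fun c _ => Finset.sum_eq_zero fun c' _ => ?_
  split_ifs with hc
  · rfl
  · rw [Measure.restrict_eq_self _ hZ]
    exact nu_eq_zero c c' Z (h c c' hc)

theorem nullproj_box (z : E4) (r : ℝ) (hr : 0 ≤ r) : Box z r ⊆ closedBall z (2 * r) := by
  intro z' hz'
  rw [mem_closedBall, dist_eq_norm]
  refine norm_le_of_co hr fun c => ?_
  rw [co_sub]
  exact hz' c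

theorem nullproj_cover (f : Hm) (hfin : μH[2] (graph f) ≠ ∞) (Z : Set E4) (hZ : Z ⊆ graph f)
    (h : ∀ c c', c ≠ c' → volume (pr c c' '' Z) = 0) (η : ℝ≥0∞) (hη : η ≠ 0) (ρ : ℝ)
    (hρ : 0 < ρ) : ∃ (u : Set E4) (r : E4 → ℝ), u.Countable ∧ (∀ z ∈ u, 0 < r z ∧ r z ≤ ρ) ∧
      Z ⊆ (⋃ z : u, closedBall (z : E4) (10 * r z)) ∧
      ∑' z : u, ENNReal.ofReal (r z ^ 2) ≤ 20 * η := by
  have hfm := nullproj_finite f hfin
  obtain ⟨U, hZU, hUo, hUη⟩ := Z.exists_isOpen_lt_of_lt (μ := nullproj_mu f) η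
    (by rw [nullproj_zero f Z hZ h]; exact pos_iff_ne_zero.2 hη)
  have hball : ∀ z : E4, ∃ r : ℝ, 0 < r ∧ r ≤ ρ ∧ r < 1 / 2 ∧
      (z ∈ Z → closedBall z (2 * r) ⊆ U) := by
    intro z
    by_cases hz : z ∈ Z
    · obtain ⟨ε, hε, hεU⟩ := Metric.nhds_basis_closedBall.mem_iff.1 (hUo.mem_nhds (hZU hz))
      refine ⟨min (ε / 2) (min (1 / 4) ρ), by positivity, ?_, ?_, fun _ => ?_⟩
      · exact (min_le_right _ _).trans (min_le_right _ _)
      · exact ((min_le_right _ _).trans (min_le_left _ _)).trans_lt (by norm_num)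
      · refine (closedBall_subset_closedBall ?_).trans hεU
        linarith [min_le_left (ε / 2) (min (1 / 4) ρ)]
    · refine ⟨min (1 / 4) ρ, by positivity, min_le_right _ _, ?_, fun hz' => absurd hz' hz⟩
      exact (min_le_left _ _).trans_lt (by norm_num)
  choose r hr0 hrρ hr2 hrU using hball
  obtain ⟨u, huZ, hdisj, hcov⟩ := Vitali.exists_disjoint_subfamily_covering_enlargement_closedBall
    Z (fun z : E4 => z) (fun z => 2 * r z) 1 (fun z _ => by linarith [hr2 z]) 5 (by norm_num)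
  have hucount : u.Countable := by
    refine hdisj.countable_of_nonempty_interior fun z _ => ?_
    refine ⟨z, ?_⟩
    exact ball_subset_interior_closedBall (mem_ball_self (by linarith [hr0 z]))
  refine ⟨u, r, hucount, fun z _ => ⟨hr0 z, hrρ z⟩, ?_, ?_⟩
  · intro z hz
    obtain ⟨b, hb, hsub⟩ := hcov z hz
    rw [mem_iUnion]
    refine ⟨⟨b, hb⟩, ?_⟩
    have h1 := hsub (mem_closedBall_self (by linarith [hr0 z]))
    have h2 : (5 : ℝ) * (2 * r b) = 10 * r b := by ring
    rw [h2] at h1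
    exact h1
  · have hterm : ∀ z : u, ENNReal.ofReal (r z ^ 2) ≤
        20 * nullproj_mu f (closedBall (z : E4) (2 * r z)) := by
      intro z
      have h1 := proj_lower f z (hZ (huZ z.2)) (r z) (hr0 z) (hr2 z)
      have h2 := nullproj_mm_le f (graph f ∩ Box (z : E4) (r z)) inter_subset_left
      have h3 : nullproj_mu f (graph f ∩ Box (z : E4) (r z)) ≤
          nullproj_mu f (closedBall (z : E4) (2 * r z)) :=
        measure_mono (inter_subset_right.trans (nullproj_box _ _ (hr0 z).le))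
      have h4 : ENNReal.ofReal (r z ^ 2) = 20 * ENNReal.ofReal (r z ^ 2 / 20) := by
        have h5 : (20 : ℝ≥0∞) = ENNReal.ofReal 20 := by norm_num
        rw [h5, ← ENNReal.ofReal_mul (by norm_num)]
        congr 1
        ring
      rw [h4]
      exact mul_le_mul_right ((h1.trans h2).trans h3) 20
    calc ∑' z : u, ENNReal.ofReal (r z ^ 2)
        ≤ ∑' z : u, 20 * nullproj_mu f (closedBall (z : E4) (2 * r z)) := ENNReal.tsum_le_tsum hterm
      _ = 20 * ∑' z : u, nullproj_mu f (closedBall (z : E4) (2 * r z)) := ENNReal.tsum_mul_left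
      _ = 20 * nullproj_mu f (⋃ z ∈ u, closedBall z (2 * r z)) := by
          rw [measure_biUnion hucount hdisj fun z _ => isClosed_closedBall.measurableSet]
      _ ≤ 20 * nullproj_mu f U := by
          refine mul_le_mul_right (measure_mono ?_) 20
          exact iUnion₂_subset fun z hz => hrU z (huZ hz)
      _ ≤ 20 * η := mul_le_mul_right hUη.le 20

/-- [GRL-D] Let `μ = ∑_{c ≠ c'} (nu c c').restrict (graph f)`, a finite measure (`nu_le`), with `mm S ≤ μ S` for
`S ⊆ graph f` (`vol_le_nu`) and `μ Z = 0` (`nu_eq_zero`). Let `η > 0`. There is an open `U ⊇ Z` with `μ U < η`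
(`Set.exists_isOpen_lt_of_lt`). Let `ρ > 0`. For `z ∈ Z` choose `0 < r z < min (1/2) ρ` with `closedBall z (2 * r z) ⊆ U`
(note `Box z r ⊆ closedBall z (2 r)` by `norm_le_of_co`). By
`Vitali.exists_disjoint_subfamily_covering_enlargement_closedBall` there is a countable disjoint subfamily of
the balls `closedBall z (2 * r z)` such that the balls of radius `10 * r z` cover `Z`. Then
`∑ (diam)² ≤ ∑ (20 r)² = 400 ∑ r² ≤ 8000 ∑ mm (graph f ∩ Box z r) ≤ 8000 ∑ μ (closedBall z (2 r)) ≤ 8000 μ U ≤ 8000 η`.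
Hence `μH[2] Z ≤ 8000 η` (`Measure.mkMetric_le_liminf_tsum` / `hausdorffMeasure_le_liminf_tsum` with `ρ = 1 / (n + 1)`;
or work with `OuterMeasure.mkMetric'.pre`). -/
theorem null_of_pr_null (f : Hm) (hfin : μH[2] (graph f) ≠ ∞) (Z : Set E4) (hZ : Z ⊆ graph f)
    (h : ∀ c c', c ≠ c' → volume (pr c c' '' Z) = 0) : μH[2] Z = 0 := by
  have key : ∀ η : ℝ≥0∞, η ≠ 0 → μH[2] Z ≤ 8000 * η := by
    intro η hη
    have hex : ∀ n : ℕ, ∃ (u : Set E4) (r : E4 → ℝ), u.Countable ∧
        (∀ z ∈ u, 0 < r z ∧ r z ≤ 1 / ((n : ℝ) + 1)) ∧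
        Z ⊆ (⋃ z : u, closedBall (z : E4) (10 * r z)) ∧
        ∑' z : u, ENNReal.ofReal (r z ^ 2) ≤ 20 * η := fun n =>
      nullproj_cover f hfin Z hZ h η hη (1 / ((n : ℝ) + 1)) (by positivity)
    choose u r hu hr hcov hsum using hex
    have hcnt : ∀ n, Countable (u n) := fun n => (hu n).to_subtype
    have hdiam : ∀ n (z : u n), Metric.ediam (closedBall (z : E4) (10 * r n z)) ≤
        ENNReal.ofReal (20 * r n z) := by
      intro n z
      have h0 := (hr n z z.2).1
      refine Metric.ediam_le_of_forall_dist_le fun x hx y hy => ?_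
      rw [mem_closedBall] at hx hy
      have := dist_triangle_right x y (z : E4)
      linarith
    have hlim : Tendsto (fun n : ℕ => ENNReal.ofReal (20 * (1 / ((n : ℝ) + 1)))) atTop (𝓝 0) := by
      have h1 : Tendsto (fun n : ℕ => 20 * (1 / ((n : ℝ) + 1))) atTop (𝓝 (20 * 0)) :=
        tendsto_one_div_add_atTop_nhds_zero_nat.const_mul 20
      rw [mul_zero] at h1
      have h2 := ENNReal.tendsto_ofReal h1
      rwa [ENNReal.ofReal_zero] at h2
    have hmain := Measure.hausdorffMeasure_le_liminf_tsum (X := E4) (β := ℕ)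
      (ι := fun n => u n) 2 Z (l := atTop)
      (fun n : ℕ => ENNReal.ofReal (20 * (1 / ((n : ℝ) + 1)))) hlim
      (fun n z => closedBall (z : E4) (10 * r n z))
      (Eventually.of_forall fun n z => (hdiam n z).trans
        (ENNReal.ofReal_le_ofReal (by linarith [(hr n z z.2).2])))
      (Eventually.of_forall fun n => hcov n)
    refine hmain.trans ?_
    refine liminf_le_of_le ⟨0, Eventually.of_forall fun _ => zero_le⟩ fun b hb => ?_
    obtain ⟨n, hn⟩ := hb.exists
    refine hn.trans ?_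
    calc ∑' z : u n, Metric.ediam (closedBall (z : E4) (10 * r n z)) ^ (2 : ℝ)
        ≤ ∑' z : u n, 400 * ENNReal.ofReal (r n z ^ 2) := by
          refine ENNReal.tsum_le_tsum fun z => ?_
          have h0 := (hr n z z.2).1
          refine (ENNReal.rpow_le_rpow (hdiam n z) (by norm_num)).trans ?_
          rw [ENNReal.ofReal_rpow_of_nonneg (by positivity) (by norm_num)]
          have h5 : (400 : ℝ≥0∞) = ENNReal.ofReal 400 := by norm_num
          rw [h5, ← ENNReal.ofReal_mul (by norm_num)]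
          refine ENNReal.ofReal_le_ofReal ?_
          rw [Real.rpow_two]
          nlinarith
      _ = 400 * ∑' z : u n, ENNReal.ofReal (r n z ^ 2) := ENNReal.tsum_mul_left
      _ ≤ 400 * (20 * η) := mul_le_mul_right (hsum n) 400
      _ = 8000 * η := by rw [← mul_assoc]; norm_num
  by_contra hne
  have h1 := key (μH[2] Z / 16000) (by
    rw [Ne, ENNReal.div_eq_zero_iff]
    push Not
    exact ⟨hne, by norm_num⟩)
  have hfinZ : μH[2] Z ≠ ∞ := ((measure_mono hZ).trans_lt (lt_top_iff_ne_top.2 hfin)).ne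
  have h2 : 8000 * (μH[2] Z / 16000) = μH[2] Z / 2 := by
    rw [ENNReal.div_eq_inv_mul, ENNReal.div_eq_inv_mul, ← mul_assoc]
    congr 1
    have h3 : (16000 : ℝ≥0∞) = 8000 * 2 := by norm_num
    rw [h3, ENNReal.mul_inv (by norm_num) (by norm_num), ← mul_assoc,
      ENNReal.mul_inv_cancel (by norm_num) (by norm_num), one_mul]
  rw [h2] at h1
  exact absurd h1 (not_le.2 (ENNReal.half_lt_self hne hfinZ))

end Pool.Agent.MP_ccb05f_an.G2
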