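import Pool.Agent.MP_ccb05f_an.G2.Basic

/-! # [GRL-TS] two-sided accumulation in both coordinate directions -/

set_option autoImplicit false

open MeasureTheory Set Filter Topology Metric
open scoped ENNReal NNReal

namespace Pool.Agent.MP_ccb05f_an.G2

/-- the points without a neighbour in the direction `σ` on the line parallel to the axis `i` -/
def TSBad (S : Set E2) (i : Fin 2) (σ : ℝ) (n : ℕ) : Set E2 :=
  {x | x ∈ S ∧ ¬ ∃ y ∈ S, y (ot i) = x (ot i) ∧ 0 < σ * (y i - x i) ∧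
    σ * (y i - x i) < 1 / ((n : ℝ) + 1)}

theorem ts_meas (S : Set E2) (hS : IsCompact S) (i : Fin 2) (σ : ℝ) (n : ℕ) :
    MeasurableSet (TSBad S i σ n) := by
  have h0 : TSBad S i σ n = S \ ⋃ m : ℕ, Prod.fst '' ((S ×ˢ S) ∩
      {p : E2 × E2 | p.2 (ot i) = p.1 (ot i) ∧ 1 / ((m : ℝ) + 1) ≤ σ * (p.2 i - p.1 i) ∧
        σ * (p.2 i - p.1 i) ≤ 1 / ((n : ℝ) + 1) - 1 / ((m : ℝ) + 1)}) := by
    ext x
    simp only [TSBad, mem_ofPred_eq, Set.mem_sdiff, mem_iUnion, mem_image, mem_inter_iff, mem_prod]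
    refine and_congr_right fun hx => not_congr ?_
    constructor
    · rintro ⟨y, hy, h1, h2, h3⟩
      obtain ⟨m, hm⟩ := exists_nat_one_div_lt (lt_min h2 (sub_pos.2 h3))
      refine ⟨m, (x, y), ⟨⟨hx, hy⟩, h1, ?_, ?_⟩, rfl⟩
      · exact (hm.trans_le (min_le_left _ _)).le
      · have := hm.trans_le (min_le_right _ _)
        simp only
        linarith
    · rintro ⟨m, ⟨x', y⟩, ⟨⟨h1, h2⟩, h3, h4, h5⟩, rfl⟩
      have hm : (0 : ℝ) < 1 / ((m : ℝ) + 1) := by positivity
      exact ⟨y, h2, h3, hm.trans_le h4, by simp only at h5; linarith⟩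
  rw [h0]
  refine hS.isClosed.measurableSet.diff (MeasurableSet.iUnion fun m => ?_)
  have hc : ∀ k : Fin 2, Continuous fun x : E2 => (x k : ℝ) := fun k => by fun_prop
  have hcl : IsClosed {p : E2 × E2 | p.2 (ot i) = p.1 (ot i) ∧
      1 / ((m : ℝ) + 1) ≤ σ * (p.2 i - p.1 i) ∧
        σ * (p.2 i - p.1 i) ≤ 1 / ((n : ℝ) + 1) - 1 / ((m : ℝ) + 1)} := by
    have hd : Continuous fun p : E2 × E2 => σ * (p.2 i - p.1 i) :=
      continuous_const.mul (((hc i).comp continuous_snd).sub ((hc i).comp continuous_fst))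
    have he : IsClosed {p : E2 × E2 | (p.2 (ot i) : ℝ) = p.1 (ot i)} :=
      isClosed_eq (X := ℝ) ((hc (ot i)).comp continuous_snd) ((hc (ot i)).comp continuous_fst)
    exact he.inter ((isClosed_le continuous_const hd).inter (isClosed_le hd continuous_const))
  exact (((hS.prod hS).inter_right hcl).image continuous_fst).isClosed.measurableSet

theorem ts_preserving (i : Fin 2) :
    MeasurePreserving (fun x : E2 => (x (ot i), x i)) volume volume := by
  have h1 : MeasurePreserving (fun x : E2 => (x 0, x 1)) volume volume :=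
    (volume_preserving_finTwoArrow ℝ).comp (PiLp.volume_preserving_ofLp (Fin 2))
  fin_cases i
  · exact Measure.measurePreserving_swap.comp h1
  · exact h1

theorem ts_countable (S : Set E2) (i : Fin 2) (σ : ℝ) (hσ : σ = 1 ∨ σ = -1) (n : ℕ) (a : ℝ) :
    {s : ℝ | mk2 i s a ∈ TSBad S i σ n}.Countable := by
  set δ : ℝ := 1 / ((n : ℝ) + 1) with hδ
  have hδ0 : 0 < δ := by rw [hδ]; positivity
  have key : ∀ s t : ℝ, mk2 i s a ∈ TSBad S i σ n → mk2 i t a ∈ TSBad S i σ n → s < t →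
      δ ≤ t - s := by
    intro s t hs ht hst
    by_contra hlt
    push Not at hlt
    rcases hσ with rfl | rfl
    · refine hs.2 ⟨mk2 i t a, ht.1, ?_, ?_, ?_⟩
      · rw [mk2_apply, mk2_apply, if_neg (ot_ne i), if_neg (ot_ne i)]
      · rw [mk2_apply, mk2_apply, if_pos rfl, if_pos rfl]; linarith
      · rw [mk2_apply, mk2_apply, if_pos rfl, if_pos rfl]; linarith
    · refine ht.2 ⟨mk2 i s a, hs.1, ?_, ?_, ?_⟩
      · rw [mk2_apply, mk2_apply, if_neg (ot_ne i), if_neg (ot_ne i)]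
      · rw [mk2_apply, mk2_apply, if_pos rfl, if_pos rfl]; linarith
      · rw [mk2_apply, mk2_apply, if_pos rfl, if_pos rfl]; linarith
  have key2 : ∀ s t : ℝ, s < t → δ ≤ t - s → ⌊s / δ⌋ ≠ ⌊t / δ⌋ := by
    intro s t _ h h1
    have h2 : s / δ + 1 ≤ t / δ := by
      rw [div_add_one hδ0.ne', div_le_div_iff_of_pos_right hδ0]
      linarith
    have h3 := Int.floor_le_floor h2
    rw [Int.floor_add_one] at h3
    omega
  refine MapsTo.countable_of_injOn (f := fun s : ℝ => ⌊s / δ⌋) (t := univ) (mapsTo_univ _ _) ?_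
    (countable_univ)
  intro s hs t ht hst
  rcases lt_trichotomy s t with h | h | h
  · exact absurd hst (key2 s t h (key s t hs ht h))
  · exact h
  · exact absurd hst.symm (key2 t s h (key t s ht hs h))

theorem ts_null (S : Set E2) (hS : IsCompact S) (i : Fin 2) (σ : ℝ) (hσ : σ = 1 ∨ σ = -1) (n : ℕ) :
    volume (TSBad S i σ n) = 0 := by
  have hmk : Continuous fun p : ℝ × ℝ => mk2 i p.2 p.1 := (continuous_mk2 i).comp continuous_swap
  have hB : MeasurableSet {p : ℝ × ℝ | mk2 i p.2 p.1 ∈ TSBad S i σ n} :=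
    hmk.measurable (ts_meas S hS i σ n)
  have h1 : TSBad S i σ n = (fun x : E2 => (x (ot i), x i)) ⁻¹'
      {p : ℝ × ℝ | mk2 i p.2 p.1 ∈ TSBad S i σ n} := by
    ext x
    simp only [mem_preimage, mem_ofPred_eq, mk2_coords]
  rw [h1, (ts_preserving i).measure_preimage hB.nullMeasurableSet, Measure.volume_eq_prod,
    Measure.measure_prod_null hB]
  refine Eventually.of_forall fun a => ?_
  exact (ts_countable S i σ hσ n a).measure_zero volume

/-- [GRL-TS] Fix `i` and `δ = 1/(n+1)` and (say) the right side. The set `B` of `x ∈ S` such that no `y ∈ S` has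
`y (ot i) = x (ot i)`, `x i < y i < x i + δ` is Borel (its complement in `S` is the union over `m` of the closed sets
`{x ∈ S | ∃ y ∈ S, y (ot i) = x (ot i) ∧ x i + 1/(m+1) ≤ y i ≤ x i + δ - 1/(m+1)}`, projections of compact sets — `S` compact),
and on every line `{x (ot i) = const}` its points have distance `≥ δ`, so they are countable. Fubini (in the
coordinates `mk2`, `EuclideanSpace.volume_preserving_measurableEquiv` and `MeasurableEquiv.finTwoArrow`): `B` is null.
Countable union over `i`, `n` and the two sides. -/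
theorem two_sided (S : Set E2) (hS : IsCompact S) :
    volume {x | x ∈ S ∧ ¬ ∀ i : Fin 2, ∀ δ : ℝ, 0 < δ →
      (∃ y ∈ S, y (ot i) = x (ot i) ∧ x i < y i ∧ y i < x i + δ) ∧
      (∃ y ∈ S, y (ot i) = x (ot i) ∧ x i - δ < y i ∧ y i < x i)} = 0 := by
  refine measure_mono_null (t := ⋃ i : Fin 2, ⋃ n : ℕ, (TSBad S i 1 n ∪ TSBad S i (-1) n)) ?_ ?_
  · rintro x ⟨hx, h⟩
    push Not at h
    obtain ⟨i, δ, hδ, h⟩ := h
    obtain ⟨n, hn⟩ := exists_nat_one_div_lt hδ
    refine mem_iUnion.2 ⟨i, mem_iUnion.2 ⟨n, ?_⟩⟩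
    by_contra hcon
    rw [mem_union, not_or] at hcon
    obtain ⟨h1, h2⟩ := hcon
    have h1' : ∃ y ∈ S, y (ot i) = x (ot i) ∧ 0 < (1 : ℝ) * (y i - x i) ∧
        (1 : ℝ) * (y i - x i) < 1 / ((n : ℝ) + 1) := by
      by_contra h3
      exact h1 ⟨hx, h3⟩
    have h2' : ∃ y ∈ S, y (ot i) = x (ot i) ∧ 0 < (-1 : ℝ) * (y i - x i) ∧
        (-1 : ℝ) * (y i - x i) < 1 / ((n : ℝ) + 1) := by
      by_contra h3
      exact h2 ⟨hx, h3⟩
    obtain ⟨y, hy, e1, e2, e3⟩ := h1'
    obtain ⟨z, hz, f1, f2, f3⟩ := h2'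
    have h4 := h ⟨y, hy, e1, by linarith, by linarith⟩ z hz f1 (by linarith)
    linarith
  · refine measure_iUnion_null fun i => measure_iUnion_null fun n => measure_union_null ?_ ?_
    · exact ts_null S hS i 1 (Or.inl rfl) n
    · exact ts_null S hS i (-1) (Or.inr rfl) n

end Pool.Agent.MP_ccb05f_an.G2
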