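import Pool.Agent.MP_ccb05f_an.G2.BrRect
import Pool.Agent.MP_ccb05f_an.G2.TwoSided

/-! # [GRL-I] stability of the projections onto planes `{(h, A h)}` -/

set_option autoImplicit false

open MeasureTheory Set Filter Topology Metric
open scoped ENNReal NNReal

namespace Pool.Agent.MP_ccb05f_an.G2

/-- the linear map `h ↦ (h, h 0 • A + h 1 • A')` -/
noncomputable def LA (A A' : E2) (h : E2) : E4 := WithLp.toLp 2 (h, h 0 • A + h 1 • A')

/-- the tangent vectors of a type A piece -/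
noncomputable def stabA_w (A A' : E2) (i : Fin 2) : E4 := if i = 0 then wA 0 A else wA 1 A'

theorem stabA_LA (A A' h : E2) (i : Fin 2) :
    LA A A' h = h i • stabA_w A A' i + h (ot i) • stabA_w A A' (ot i) := by
  have key : LA A A' h = h 0 • wA 0 A + h 1 • wA 1 A' := by
    apply ext_co
    rintro ⟨b, j⟩
    rw [co_add, co_smul, co_smul]
    cases b <;> fin_cases j <;> simp [LA, wA]
  rw [key]
  fin_cases i
  · simp [stabA_w, ot]
  · simp [stabA_w, ot, add_comm]

/-- the cone conditions in a uniform form -/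
theorem stabA_cone {f : Hm} {A A' : E2} {ε δ δ' : ℝ} {z : E4}
    (hz : z ∈ Piece (graph f) (false, 1) (false, 0) (wA 0 A) (wA 1 A') ε δ δ') (i : Fin 2)
    {z' : E4} (hz' : z' ∈ graph f) (h : z'.fst (ot i) = z.fst (ot i)) (hd : ‖z' - z‖ < δ) :
    ‖z' - z - (z'.fst i - z.fst i) • stabA_w A A' i‖ ≤ ε * |z'.fst i - z.fst i| := by
  obtain ⟨⟨h1, h2⟩, -⟩ := hz
  fin_cases i
  · have := h1.2 z' hz' (by simpa [ot] using h) hd
    simpa [stabA_w] using this
  · have := h2.2 z' hz' (by simpa [ot] using h) hd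
    simpa [stabA_w] using this

/-- two steps: first along the line `{x (ot i) = const}`, then along the line `{x i = const}` -/
theorem stabA_two {f : Hm} {A A' : E2} {ε δ δ' : ℝ} {z₀ z₁ z : E4} (i : Fin 2)
    (h₀ : z₀ ∈ Piece (graph f) (false, 1) (false, 0) (wA 0 A) (wA 1 A') ε δ δ')
    (h₁ : z₁ ∈ Piece (graph f) (false, 1) (false, 0) (wA 0 A) (wA 1 A') ε δ δ')
    (hz : z ∈ graph f) (e₁ : z₁.fst (ot i) = z₀.fst (ot i)) (e₂ : z.fst i = z₁.fst i)
    (d₁ : ‖z₁ - z₀‖ < δ) (d₂ : ‖z - z₁‖ < δ) :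
    ‖z - z₀ - LA A A' (z.fst - z₀.fst)‖ ≤
      ε * (|(z.fst - z₀.fst) 0| + |(z.fst - z₀.fst) 1|) := by
  have k1 := stabA_cone h₀ i h₁.1.1.1 e₁ d₁
  have k2 := stabA_cone h₁ (ot i) hz (by rw [ot_ot]; exact e₂) d₂
  have k3 : z - z₀ - LA A A' (z.fst - z₀.fst) =
      (z₁ - z₀ - (z₁.fst i - z₀.fst i) • stabA_w A A' i) +
      (z - z₁ - (z.fst (ot i) - z₁.fst (ot i)) • stabA_w A A' (ot i)) := by
    rw [stabA_LA A A' _ i, PiLp.sub_apply, PiLp.sub_apply, e₂, e₁]
    abel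
  have k4 : |(z.fst - z₀.fst) 0| + |(z.fst - z₀.fst) 1| =
      |z₁.fst i - z₀.fst i| + |z.fst (ot i) - z₁.fst (ot i)| := by
    rw [e₁]
    fin_cases i
    · simp only [ot, Fin.zero_eta, sub_zero] at e₂ ⊢
      rw [PiLp.sub_apply, PiLp.sub_apply, ← e₂]
    · simp only [ot, Fin.mk_one, sub_self] at e₂ ⊢
      rw [PiLp.sub_apply, PiLp.sub_apply, ← e₂, add_comm]
  rw [k3, k4, mul_add]
  exact (norm_add_le _ _).trans (add_le_add k1 k2)

theorem stabA_abs (h : E2) (i : Fin 2) : |h i| ≤ ‖h‖ := by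
  have := PiLp.norm_apply_le h i
  simpa [Real.norm_eq_abs] using this

theorem stabA_sum_le {h : E2} {ε : ℝ} (hε : 0 < ε) (hε' : ε ≤ 1 / 8) :
    ε * (|h 0| + |h 1|) ≤ ‖h‖ / 4 := by
  have h0 := stabA_abs h 0
  have h1 := stabA_abs h 1
  have hn := norm_nonneg h
  nlinarith

/-- null sets of the plane under Lipschitz maps -/
theorem stabA_null (g : E2 → E2) (S : Set E2) (K : ℝ≥0) (hg : LipschitzOnWith K g S)
    (h : volume S = 0) : volume (g '' S) = 0 := by
  have e : (Module.finrank ℝ E2 : ℝ) = 2 := by simp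
  have hH : (μH[2] : Measure E2).IsAddHaarMeasure := by
    have := MeasureTheory.isAddHaarMeasure_hausdorffMeasure (E := E2)
    rwa [e] at this
  have ac1 : (μH[2] : Measure E2) ≪ volume := Measure.absolutelyContinuous_isAddHaarMeasure _ _
  have ac2 : (volume : Measure E2) ≪ μH[2] := Measure.absolutelyContinuous_isAddHaarMeasure _ _
  apply ac2
  have h1 := hg.hausdorffMeasure_image_le (d := 2) (by norm_num)
  rw [ac1 h, mul_zero] at h1
  exact le_antisymm h1 bot_le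

/-- [GRL-I] Put `x z = z.fst`. Let `S = {z.fst | z ∈ K}` (compact).
(0) For `z₀, z₁ ∈ K`: let `z₂` be the point of the graph over `(z₁.fst 0, z₀.fst 1)`. If `‖z₂ - z₀‖, ‖z₂ - z₁‖ < δ` then the two
`Cone` conditions give `‖z₁ - z₀ - LA A A' (z₁.fst - z₀.fst)‖ ≤ 2 ε ‖z₁.fst - z₀.fst‖`. (`z₂` is the point provided by `Cross`
at `z₁`, so the distances are `≤ δ / 4` and `< δ / 2`.) So `T ∘ (z.fst ↦ z)` is Lipschitz on `S`, and the image under `T` of
`{z ∈ K | z.fst ∈ B}`, `B` null, is null.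
(1) So it is enough to treat `p = T z₀`, `z₀ = pt f x₀ ∈ K`, `x₀` outside of the null set of `two_sided S`. Choose
`x₁, x₂ ∈ S` on the horizontal line through `x₀`, to the left and to the right of `x₀`, and `y₁, y₂ ∈ S` on the vertical line,
below and above, all so close to `x₀` that for the rectangle `R` they span `‖pt f x - pt f x'‖ < δ` for `x, x' ∈ R` and
`pt f x ∈ U` for `x ∈ R`. On a vertical side, say over `x₁`: `Cone Γ (false,1) (false,0) (wA 0 A)` at `z₀` (the point `pt f x₁`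
is on the horizontal line through `z₀`) and `Cone Γ (false,0) (false,1) (wA 1 A')` at `pt f x₁ ∈ K` give
`‖pt f x - z₀ - LA A A' h‖ ≤ ε (|h 0| + |h 1|) ≤ 2 ε ‖h‖`, `h = x - x₀`; on a horizontal side the same with `y₁, y₂`.
(2) `G h = T (pt f (x₀ + h) - z₀)`: `‖G h - h‖ ≤ ‖T (…)‖ ≤ 2 ε ‖h‖ ≤ ‖h‖ / 4` on the boundary of `R - x₀`. For `n` large
`G_n h = T (pt (fn n) (x₀ + h) - z₀)` satisfies `‖G_n h - h‖ < ‖h‖` there (`‖h‖` is bounded below on the boundary, `Conv.pt`), so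
`br_rect` gives `h` with `T (pt (fn n) (x₀ + h)) = T z₀ = p`; and `pt (fn n) (x₀ + h) ∈ U` for `n` large (compactness of
`pt f '' R`). -/
theorem stab_A (f : Hm) (fn : ℕ → Hm) (hc : Conv fn f) (A A' : E2) (ε δ δ' : ℝ) (hε : 0 < ε)
    (hε' : ε ≤ 1 / 8) (hδ : 0 < δ) (hδ' : 0 < δ') (K : Set E4) (hK : IsCompact K)
    (hKP : K ⊆ Piece (graph f) (false, 1) (false, 0) (wA 0 A) (wA 1 A') ε δ δ')
    (hdiam : ∀ z ∈ K, ∀ z' ∈ K, ‖z - z'‖ < δ / 4 ∧ ‖z - z'‖ < δ')
    (U : Set E4) (hU : IsOpen U) (hKU : K ⊆ U) (T : E4 →ₗ[ℝ] E2) (hTL : ∀ h, T (LA A A' h) = h)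
    (hT : ∀ z, ‖T z‖ ≤ ‖z‖) :
    ∀ᵐ p : E2, p ∈ T '' K → ∀ᶠ n in atTop, p ∈ T '' (graph (fn n) ∩ U) := by
  have hKg : K ⊆ graph f := fun z hz => (hKP hz).1.1.1
  -- the projection of `K`
  set S : Set E2 := (fun z : E4 => z.fst) '' K with hSdef
  have hfst : Continuous fun z : E4 => z.fst := by fun_prop
  have hS : IsCompact S := hK.image hfst
  set B : Set E2 := {x | x ∈ S ∧ ¬ ∀ i : Fin 2, ∀ δ : ℝ, 0 < δ →
      (∃ y ∈ S, y (ot i) = x (ot i) ∧ x i < y i ∧ y i < x i + δ) ∧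
      (∃ y ∈ S, y (ot i) = x (ot i) ∧ x i - δ < y i ∧ y i < x i)} with hBdef
  have hB : volume B = 0 := two_sided S hS
  have hBS : B ⊆ S := fun x hx => hx.1
  -- the points of the graph over `S`
  have hptK : ∀ z ∈ K, pt f (cl z.fst) = z := by
    intro z hz
    obtain ⟨x, rfl⟩ := hKg hz
    change pt f (cl (x : E2)) = pt f x
    rw [cl_coe]
  have hSK : ∀ x ∈ S, pt f (cl x) ∈ K ∧ (pt f (cl x)).fst = x := by
    rintro x ⟨z, hz, rfl⟩
    rw [hptK z hz]
    exact ⟨hz, rfl⟩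
  have hTsub : ∀ z h, T z - h = T (z - LA A A' h) := by
    intro z h
    rw [map_sub, hTL]
  -- (0)
  have step0 : ∀ z₀ ∈ K, ∀ z₁ ∈ K, ‖T z₁ - T z₀‖ ≤ 2 * ‖z₁.fst - z₀.fst‖ := by
    intro z₀ hz₀ z₁ hz₁
    obtain ⟨z₂, hz₂, e1, e2, hd2⟩ := (hKP hz₁).2.2 (z₀.fst 1) (by
      rw [co_false, ← co_false, ← co_false, ← co_sub]
      exact (abs_co_le _ _).trans_lt (hdiam z₀ hz₀ z₁ hz₁).2) (by
      have := co_mem_Icc (hKg hz₀) (false, 1)
      rwa [co_false] at this)
    rw [co_false, co_false] at e1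
    rw [co_false] at e2
    have d1 : ‖z₂ - z₀‖ < δ := by
      have h1 : z₂ - z₀ = (z₂ - z₁) + (z₁ - z₀) := by abel
      rw [h1]
      have h2 := norm_add_le (z₂ - z₁) (z₁ - z₀)
      have h3 := (hdiam z₁ hz₁ z₀ hz₀).1
      linarith
    have d2 : ‖z₂ - z₁‖ < δ := by linarith
    have k1 := stabA_cone (hKP hz₀) 0 hz₂ (by simpa [ot] using e2) d1
    have k2 := stabA_cone (hKP hz₁) 1 hz₂ (by simpa [ot] using e1) d2
    rw [e1] at k1
    rw [e2] at k2
    have k3 : z₁ - z₀ - LA A A' (z₁.fst - z₀.fst) =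
        (z₂ - z₀ - (z₁.fst 0 - z₀.fst 0) • stabA_w A A' 0) -
        (z₂ - z₁ - (z₀.fst 1 - z₁.fst 1) • stabA_w A A' 1) := by
      rw [stabA_LA A A' _ 0, PiLp.sub_apply, PiLp.sub_apply]
      have : ot 0 = 1 := by simp [ot]
      rw [this, ← neg_sub (z₁.fst 1) (z₀.fst 1), neg_smul]
      abel
    have k4 : ‖z₁ - z₀ - LA A A' (z₁.fst - z₀.fst)‖ ≤ ‖z₁.fst - z₀.fst‖ / 4 := by
      rw [k3]
      refine (norm_sub_le _ _).trans ((add_le_add k1 k2).trans ?_)
      have h5 := stabA_sum_le (h := z₁.fst - z₀.fst) hε hε'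
      rw [PiLp.sub_apply, PiLp.sub_apply] at h5
      rw [abs_sub_comm (z₀.fst 1) (z₁.fst 1)]
      linarith
    have k5 : T z₁ - T z₀ = T (z₁ - z₀ - LA A A' (z₁.fst - z₀.fst)) + (z₁.fst - z₀.fst) := by
      rw [← hTsub, map_sub]
      abel
    rw [k5]
    refine (norm_add_le _ _).trans ?_
    have h6 := hT (z₁ - z₀ - LA A A' (z₁.fst - z₀.fst))
    have h7 := norm_nonneg (z₁.fst - z₀.fst)
    linarith
  have hN : volume (T '' {z | z ∈ K ∧ z.fst ∈ B}) = 0 := by
    have hlip : LipschitzOnWith 2 (fun x : E2 => T (pt f (cl x))) B := by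
      refine LipschitzOnWith.of_dist_le_mul fun x hx y hy => ?_
      obtain ⟨h1, h2⟩ := hSK x (hBS hx)
      obtain ⟨h3, h4⟩ := hSK y (hBS hy)
      have h5 := step0 _ h3 _ h1
      rw [h2, h4] at h5
      rw [dist_eq_norm, dist_eq_norm]
      exact h5
    refine measure_mono_null ?_ (stabA_null _ B 2 hlip hB)
    rintro _ ⟨z, ⟨hz, hzB⟩, rfl⟩
    refine ⟨z.fst, hzB, ?_⟩
    simp only [hptK z hz]
  filter_upwards [compl_mem_ae_iff.2 hN] with p hp hpK
  obtain ⟨z₀, hz₀, rfl⟩ := hpK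
  set x₀ : E2 := z₀.fst with hx₀
  have hx₀S : x₀ ∈ S := ⟨z₀, hz₀, rfl⟩
  have hgood : ∀ i : Fin 2, ∀ δ : ℝ, 0 < δ →
      (∃ y ∈ S, y (ot i) = x₀ (ot i) ∧ x₀ i < y i ∧ y i < x₀ i + δ) ∧
      (∃ y ∈ S, y (ot i) = x₀ (ot i) ∧ x₀ i - δ < y i ∧ y i < x₀ i) := by
    by_contra hcon
    exact hp ⟨z₀, ⟨hz₀, hx₀S, hcon⟩, rfl⟩
  -- (1) a small rectangle
  obtain ⟨ρ₁, hρ₁, hball⟩ := Metric.isOpen_iff.1 hU z₀ (hKU hz₀)
  set ρ : ℝ := min (ρ₁ / 2) (δ / 2) with hρdef
  have hρ : 0 < ρ := lt_min (by linarith) (by linarith)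
  have hρδ : ρ ≤ δ / 2 := min_le_right _ _
  have hρU : ∀ z : E4, ‖z - z₀‖ < 2 * ρ → z ∈ U := by
    intro z hz
    apply hball
    rw [Metric.mem_ball, dist_eq_norm]
    have : ρ ≤ ρ₁ / 2 := min_le_left _ _
    linarith
  have hcont : Continuous fun x : E2 => pt f (cl x) := (continuous_pt f).comp continuous_cl
  obtain ⟨τ, hτ, hτρ⟩ := Metric.continuousAt_iff.1 (hcont.continuousAt (x := x₀)) ρ hρ
  have hnear : ∀ x : E2, (∀ i, |(x - x₀) i| < τ / 2) → ‖pt f (cl x) - z₀‖ < ρ := by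
    intro x hx
    have h1 : ‖x - x₀‖ < τ := by
      have h2 : ‖x - x₀‖ ^ 2 < τ ^ 2 := by
        rw [EuclideanSpace.norm_sq_eq, Fin.sum_univ_two, Real.norm_eq_abs, Real.norm_eq_abs]
        have h3 := hx 0
        have h4 := hx 1
        have h5 := abs_nonneg ((x - x₀) 0)
        have h6 := abs_nonneg ((x - x₀) 1)
        nlinarith
      exact lt_of_pow_lt_pow_left₀ 2 hτ.le h2
    have h2 := hτρ (x := x) (by rw [dist_eq_norm]; exact h1)
    rw [dist_eq_norm, hptK z₀ hz₀] at h2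
    exact h2
  choose yr hyrS hyr1 hyr2 hyr3 using fun i => (hgood i (τ / 2) (by linarith)).1
  choose yl hylS hyl1 hyl2 hyl3 using fun i => (hgood i (τ / 2) (by linarith)).2
  let l : Fin 2 → ℝ := fun i => yl i i - x₀ i
  let r : Fin 2 → ℝ := fun i => yr i i - x₀ i
  have hl : ∀ i, l i < 0 := fun i => by
    have := hyl3 i
    simp only [l]
    linarith
  have hr : ∀ i, 0 < r i := fun i => by
    have := hyr2 i
    simp only [r]
    linarith
  have hS01 : ∀ x ∈ S, ∀ i, x i ∈ Icc (0 : ℝ) 1 := by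
    rintro _ ⟨z, hz, rfl⟩ i
    have := co_mem_Icc (hKg hz) (false, i)
    rwa [co_false] at this
  have hRcube : ∀ h : E2, (∀ i, h i ∈ Icc (l i) (r i)) → x₀ + h ∈ Cube 2 := by
    intro h hh i
    have h1 := hh i
    have h2 := hS01 _ (hylS i) i
    have h3 := hS01 _ (hyrS i) i
    simp only [l, r, mem_Icc] at h1 h2 h3
    rw [PiLp.add_apply]
    constructor
    · linarith
    · linarith
  have hRfst : ∀ h : E2, (∀ i, h i ∈ Icc (l i) (r i)) → (pt f (cl (x₀ + h))).fst = x₀ + h := by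
    intro h hh
    exact cl_of_mem (hRcube h hh)
  have hRnear : ∀ h : E2, (∀ i, h i ∈ Icc (l i) (r i)) → ‖pt f (cl (x₀ + h)) - z₀‖ < ρ := by
    intro h hh
    apply hnear
    intro i
    have h1 := hh i
    have h2 := hyl2 i
    have h3 := hyr3 i
    simp only [l, r, mem_Icc] at h1
    rw [add_sub_cancel_left, abs_lt]
    constructor
    · linarith
    · linarith
  -- the estimate on the boundary
  have hbd : ∀ h : E2, (∀ i, h i ∈ Icc (l i) (r i)) → (∃ i, h i = l i ∨ h i = r i) →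
      ‖T (pt f (cl (x₀ + h)) - z₀) - h‖ ≤ ‖h‖ / 4 := by
    intro h hh ⟨i, hi⟩
    have key : ∀ y ∈ S, y (ot i) = x₀ (ot i) → y i = (x₀ + h) i → ‖pt f (cl y) - z₀‖ < ρ →
        ‖T (pt f (cl (x₀ + h)) - z₀) - h‖ ≤ ‖h‖ / 4 := by
      intro y hy e1 e2 hd
      obtain ⟨hyK, hyf⟩ := hSK y hy
      have hf := hRfst h hh
      have hd2 := hRnear h hh
      have k := stabA_two i (hKP hz₀) (hKP hyK) (pt_mem f (cl (x₀ + h))) (by rw [hyf]; exact e1)
        (by rw [hf, hyf]; exact e2.symm) (by linarith) (by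
          have h1 : pt f (cl (x₀ + h)) - pt f (cl y) =
            (pt f (cl (x₀ + h)) - z₀) - (pt f (cl y) - z₀) := by abel
          rw [h1]
          refine (norm_sub_le _ _).trans_lt ?_
          linarith)
      rw [hf, ← hx₀, add_sub_cancel_left] at k
      rw [hTsub]
      exact (hT _).trans (k.trans (stabA_sum_le hε hε'))
    rcases hi with hi | hi
    · refine key (yl i) (hylS i) (hyl1 i) ?_ ?_
      · rw [PiLp.add_apply, hi]
        simp only [l]
        ring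
      · apply hnear
        intro j
        rw [PiLp.sub_apply]
        rcases eq_or_eq_ot i j with rfl | rfl
        · have h2 := hyl2 j
          have h3 := hyl3 j
          rw [abs_lt]
          constructor <;> linarith
        · rw [hyl1 i, sub_self, abs_zero]
          linarith
    · refine key (yr i) (hyrS i) (hyr1 i) ?_ ?_
      · rw [PiLp.add_apply, hi]
        simp only [r]
        ring
      · apply hnear
        intro j
        rw [PiLp.sub_apply]
        rcases eq_or_eq_ot i j with rfl | rfl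
        · have h2 := hyr2 j
          have h3 := hyr3 j
          rw [abs_lt]
          constructor <;> linarith
        · rw [hyr1 i, sub_self, abs_zero]
          linarith
  -- (2)
  set m : ℝ := min (min (-l 0) (-l 1)) (min (r 0) (r 1)) with hm
  have hm0 : 0 < m := by
    rw [hm]
    refine lt_min (lt_min ?_ ?_) (lt_min (hr 0) (hr 1))
    · have := hl 0; linarith
    · have := hl 1; linarith
  have hml : ∀ i, m ≤ -l i := by
    intro i
    fin_cases i
    · exact (min_le_left _ _).trans (min_le_left _ _)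
    · exact (min_le_left _ _).trans (min_le_right _ _)
  have hmr : ∀ i, m ≤ r i := by
    intro i
    fin_cases i
    · exact (min_le_right _ _).trans (min_le_left _ _)
    · exact (min_le_right _ _).trans (min_le_right _ _)
  have hTc : Continuous T := (T.mkContinuous 1 fun z => by
    rw [one_mul]
    exact hT z).continuous
  filter_upwards [hc.pt (min (m / 2) ρ) (lt_min (by linarith) hρ)] with n hn
  obtain ⟨h, hh, hG⟩ := br_rect l r hl hr (fun h => T (pt (fn n) (cl (x₀ + h)) - z₀))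
    (by
      apply Continuous.continuousOn
      have h1 : Continuous fun h : E2 => pt (fn n) (cl (x₀ + h)) :=
        (continuous_pt (fn n)).comp (continuous_cl.comp (by fun_prop))
      exact hTc.comp (h1.sub continuous_const)) (by
      intro h hh hb
      have h1 := hbd h hh hb
      have h2 : T (pt (fn n) (cl (x₀ + h)) - z₀) - h =
          T (pt (fn n) (cl (x₀ + h)) - pt f (cl (x₀ + h))) +
          (T (pt f (cl (x₀ + h)) - z₀) - h) := by
        rw [← add_sub_assoc, ← map_add]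
        congr 2
        abel
      have h3 := (hT (pt (fn n) (cl (x₀ + h)) - pt f (cl (x₀ + h)))).trans_lt (hn _)
      have h4 : m ≤ ‖h‖ := by
        obtain ⟨i, hi⟩ := hb
        refine le_trans ?_ (stabA_abs h i)
        rcases hi with hi | hi
        · rw [hi, abs_of_neg (hl i)]
          exact hml i
        · rw [hi, abs_of_pos (hr i)]
          exact hmr i
      have h5 : min (m / 2) ρ ≤ m / 2 := min_le_left _ _
      rw [h2]
      refine (norm_add_le _ _).trans_lt ?_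
      linarith)
  refine ⟨pt (fn n) (cl (x₀ + h)), ⟨pt_mem _ _, ?_⟩, ?_⟩
  · apply hρU
    have h1 : pt (fn n) (cl (x₀ + h)) - z₀ = (pt (fn n) (cl (x₀ + h)) - pt f (cl (x₀ + h))) +
      (pt f (cl (x₀ + h)) - z₀) := by abel
    rw [h1]
    refine (norm_add_le _ _).trans_lt ?_
    have h2 := hn (cl (x₀ + h))
    have h3 := hRnear h hh
    have h4 : min (m / 2) ρ ≤ ρ := min_le_right _ _
    linarith
  · rw [map_sub, sub_eq_zero] at hG
    exact hG

end Pool.Agent.MP_ccb05f_an.G2
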