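import Pool.Agent.MP_ccb05f_an.G2.Basic

/-! # [GRL-H] stability of the projections onto product planes -/

set_option autoImplicit false

open MeasureTheory Set Filter Topology Metric
open scoped ENNReal NNReal

namespace Pool.Agent.MP_ccb05f_an.G2

/-- local extremal values of a continuous function on an interval form a countable set: such a value is the
maximum or minimum of `g` on `I ∩ Icc p q` for some rationals `p < q` -/
theorem countable_extr (g : ℝ → ℝ) (hg : Continuous g) (I : Set ℝ) (hI : I.OrdConnected) :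
    {t | ∃ u ∈ I, g u = t ∧ ∃ δ > 0, (∀ u' ∈ I, |u' - u| < δ → g u' ≤ t) ∨
      (∀ u' ∈ I, |u' - u| < δ → t ≤ g u')}.Countable := by
  have hsub : {t | ∃ u ∈ I, g u = t ∧ ∃ δ > 0, (∀ u' ∈ I, |u' - u| < δ → g u' ≤ t) ∨
      (∀ u' ∈ I, |u' - u| < δ → t ≤ g u')} ⊆
      ⋃ pq : ℚ × ℚ, ({t | IsGreatest (g '' (I ∩ Icc (pq.1 : ℝ) (pq.2 : ℝ))) t} ∪
        {t | IsLeast (g '' (I ∩ Icc (pq.1 : ℝ) (pq.2 : ℝ))) t}) := by
    rintro t ⟨u, huI, rfl, δ, hδ, h⟩
    obtain ⟨p, hp1, hp2⟩ := exists_rat_btwn (show u - δ < u by linarith)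
    obtain ⟨q, hq1, hq2⟩ := exists_rat_btwn (show u < u + δ by linarith)
    rw [mem_iUnion]
    refine ⟨(p, q), ?_⟩
    have hu : g u ∈ g '' (I ∩ Icc (p : ℝ) (q : ℝ)) := ⟨u, ⟨huI, hp2.le, hq1.le⟩, rfl⟩
    have hd : ∀ u' ∈ Icc (p : ℝ) (q : ℝ), |u' - u| < δ := by
      intro u' hu'
      rw [abs_lt]
      constructor
      · linarith [hu'.1]
      · linarith [hu'.2]
    rcases h with h | h
    · left
      refine ⟨hu, ?_⟩
      rintro _ ⟨u', ⟨h1, h2⟩, rfl⟩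
      exact h u' h1 (hd u' h2)
    · right
      refine ⟨hu, ?_⟩
      rintro _ ⟨u', ⟨h1, h2⟩, rfl⟩
      exact h u' h1 (hd u' h2)
  refine Countable.mono hsub (countable_iUnion fun pq => Countable.union ?_ ?_)
  · exact Subsingleton.countable fun a ha b hb => ha.unique hb
  · exact Subsingleton.countable fun a ha b hb => ha.unique hb

/-- the direction orthogonal to `ξ` -/
noncomputable def stabcD (ξ : E2) : E2 := WithLp.toLp 2 ![-(ξ 1), ξ 0]

/-- the line `⟪ξ, ·⟫ = s` -/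
noncomputable def stabcL (ξ : E2) (s u : ℝ) : E2 := (s / (ξ 0 ^ 2 + ξ 1 ^ 2)) • ξ + u • stabcD ξ

theorem stabc_inner (x y : E2) : (inner ℝ x y : ℝ) = x 0 * y 0 + x 1 * y 1 := by
  rw [PiLp.inner_apply, Fin.sum_univ_two]
  simp [mul_comm]

theorem stabc_pos {ξ : E2} (hξ : ξ ≠ 0) : 0 < ξ 0 ^ 2 + ξ 1 ^ 2 := by
  by_contra h
  apply hξ
  have h0 : ξ 0 = 0 := by nlinarith [sq_nonneg (ξ 0), sq_nonneg (ξ 1)]
  have h1 : ξ 1 = 0 := by nlinarith [sq_nonneg (ξ 0), sq_nonneg (ξ 1)]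
  ext i
  fin_cases i
  · exact h0
  · exact h1

theorem stabcL_apply0 (ξ : E2) (s u : ℝ) :
    (stabcL ξ s u) 0 = s / (ξ 0 ^ 2 + ξ 1 ^ 2) * ξ 0 + u * (-(ξ 1)) := by
  simp [stabcL, stabcD]

theorem stabcL_apply1 (ξ : E2) (s u : ℝ) :
    (stabcL ξ s u) 1 = s / (ξ 0 ^ 2 + ξ 1 ^ 2) * ξ 1 + u * ξ 0 := by
  simp [stabcL, stabcD]

theorem stabc_inner_L {ξ : E2} (hξ : ξ ≠ 0) (s u : ℝ) : (inner ℝ ξ (stabcL ξ s u) : ℝ) = s := by
  have h := (stabc_pos hξ).ne'
  rw [stabc_inner, stabcL_apply0, stabcL_apply1]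
  field_simp
  ring

theorem stabc_surj {ξ : E2} (hξ : ξ ≠ 0) (x : E2) :
    ∃ u, stabcL ξ (inner ℝ ξ x) u = x := by
  have h := (stabc_pos hξ).ne'
  refine ⟨(-(ξ 1) * x 0 + ξ 0 * x 1) / (ξ 0 ^ 2 + ξ 1 ^ 2), ?_⟩
  ext i
  fin_cases i
  · change (stabcL ξ (inner ℝ ξ x) _) 0 = x 0
    rw [stabcL_apply0, stabc_inner]
    field_simp
    ring
  · change (stabcL ξ (inner ℝ ξ x) _) 1 = x 1
    rw [stabcL_apply1, stabc_inner]
    field_simp
    ring

theorem continuous_stabcL (ξ : E2) (s : ℝ) : Continuous (stabcL ξ s) := by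
  unfold stabcL
  fun_prop

theorem stabc_ord1 (c d : ℝ) : {u : ℝ | c + u * d ∈ Icc (0 : ℝ) 1}.OrdConnected := by
  rcases le_total 0 d with h | h
  · have hm : Monotone fun u : ℝ => c + u * d := fun a b hab => by
      have := mul_le_mul_of_nonneg_right hab h
      change c + a * d ≤ c + b * d
      linarith
    exact (ordConnected_Icc (a := (0 : ℝ)) (b := 1)).preimage_mono hm
  · have hm : Antitone fun u : ℝ => c + u * d := fun a b hab => by
      have := mul_le_mul_of_nonpos_right hab h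
      change c + b * d ≤ c + a * d
      linarith
    exact (ordConnected_Icc (a := (0 : ℝ)) (b := 1)).preimage_anti hm

theorem stabc_ord (ξ : E2) (s : ℝ) : {u : ℝ | stabcL ξ s u ∈ Cube 2}.OrdConnected := by
  have h : {u : ℝ | stabcL ξ s u ∈ Cube 2} =
      {u : ℝ | s / (ξ 0 ^ 2 + ξ 1 ^ 2) * ξ 0 + u * (-(ξ 1)) ∈ Icc (0 : ℝ) 1} ∩
      {u : ℝ | s / (ξ 0 ^ 2 + ξ 1 ^ 2) * ξ 1 + u * ξ 0 ∈ Icc (0 : ℝ) 1} := by
    ext u
    simp only [mem_ofPred_eq, Cube, mem_inter_iff]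
    rw [Fin.forall_fin_two, stabcL_apply0, stabcL_apply1]
  rw [h]
  exact (stabc_ord1 _ _).inter (stabc_ord1 _ _)

/-- the map `T` -/
noncomputable def stabcT (ξ η : E2) (z : E4) : ℝ × ℝ :=
  ((inner ℝ ξ z.fst : ℝ), (inner ℝ η z.snd : ℝ))

theorem continuous_stabcT (ξ η : E2) : Continuous (stabcT ξ η) := by
  unfold stabcT
  have h1 : Continuous fun z : E4 => z.fst := by fun_prop
  have h2 : Continuous fun z : E4 => z.snd := by fun_prop
  exact (continuous_const.inner h1).prodMk (continuous_const.inner h2)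

theorem stabcT_pt (ξ η : E2) (f : Hm) (x : Cube 2) :
    stabcT ξ η (pt f x) = ((inner ℝ ξ (x : E2) : ℝ), (inner ℝ η (f x : E2) : ℝ)) := rfl

theorem stabc_key (f : Hm) (fn : ℕ → Hm) (hc : Conv fn f) (ξ η : E2) (hξ : ξ ≠ 0) (hη : η ≠ 0)
    (K : Set E4) (hKf : K ⊆ graph f) (U : Set E4) (hU : IsOpen U)
    (hKU : K ⊆ U) (s t : ℝ) (hst : (s, t) ∈ stabcT ξ η '' K)
    (ht : t ∉ {t | ∃ u ∈ {u : ℝ | stabcL ξ s u ∈ Cube 2},
      (inner ℝ η (f (cl (stabcL ξ s u)) : E2) : ℝ) = t ∧ ∃ δ > 0,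
      (∀ u' ∈ {u : ℝ | stabcL ξ s u ∈ Cube 2}, |u' - u| < δ →
        (inner ℝ η (f (cl (stabcL ξ s u')) : E2) : ℝ) ≤ t) ∨
      (∀ u' ∈ {u : ℝ | stabcL ξ s u ∈ Cube 2}, |u' - u| < δ →
        t ≤ (inner ℝ η (f (cl (stabcL ξ s u')) : E2) : ℝ))}) :
    ∀ᶠ n in atTop, (s, t) ∈ stabcT ξ η '' (graph (fn n) ∩ U) := by
  obtain ⟨z, hzK, hzT⟩ := hst
  obtain ⟨x, hx⟩ := hKf hzK
  have hx' : pt f x = z := hx
  rw [← hx', stabcT_pt, Prod.mk.injEq] at hzT
  obtain ⟨hs, ht'⟩ := hzT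
  obtain ⟨u0, hu0⟩ := stabc_surj hξ (x : E2)
  rw [hs] at hu0
  have hu0I : stabcL ξ s u0 ∈ Cube 2 := by rw [hu0]; exact x.2
  have hclu0 : cl (stabcL ξ s u0) = x := by rw [hu0, cl_coe]
  have hcont : Continuous fun u : ℝ => pt f (cl (stabcL ξ s u)) :=
    (continuous_pt f).comp (continuous_cl.comp (continuous_stabcL ξ s))
  have hzU : z ∈ U := hKU hzK
  obtain ⟨ρ, hρ, hball⟩ := Metric.isOpen_iff.1 hU z hzU
  have hcat := Metric.continuous_iff.1 hcont u0 (ρ / 2) (by positivity)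
  obtain ⟨δ, hδ, hdel⟩ := hcat
  rw [mem_ofPred_eq] at ht
  push Not at ht
  obtain ⟨⟨u1, hu1I, hu1d, hu1⟩, ⟨u2, hu2I, hu2d, hu2⟩⟩ :=
    ht u0 hu0I (by rw [hclu0]; exact ht') δ hδ
  have hηn : 0 < ‖η‖ := norm_pos_iff.2 hη
  set ε : ℝ := min ((inner ℝ η (f (cl (stabcL ξ s u1)) : E2) : ℝ) - t)
    (t - (inner ℝ η (f (cl (stabcL ξ s u2)) : E2) : ℝ)) with hε
  have hεpos : 0 < ε := lt_min (by linarith) (by linarith)
  filter_upwards [hc (ε / (2 * ‖η‖)) (by positivity), hc.pt (ρ / 2) (by positivity)] with n hn1 hn2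
  have hclose : ∀ y : Cube 2, |(inner ℝ η (fn n y : E2) : ℝ) - (inner ℝ η (f y : E2) : ℝ)| < ε := by
    intro y
    rw [← inner_sub_right]
    have h1 := abs_real_inner_le_norm η ((fn n y : E2) - (f y : E2))
    have h2 : ‖(fn n y : E2) - (f y : E2)‖ < ε / (2 * ‖η‖) := by
      rw [← dist_eq_norm]
      exact hn1 y
    calc |(inner ℝ η ((fn n y : E2) - (f y : E2)) : ℝ)| ≤ ‖η‖ * ‖(fn n y : E2) - (f y : E2)‖ := h1
      _ < ‖η‖ * (ε / (2 * ‖η‖)) := mul_lt_mul_of_pos_left h2 hηn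
      _ = ε / 2 := by field_simp
      _ < ε := by linarith
  have hg1 : t < (inner ℝ η (fn n (cl (stabcL ξ s u1)) : E2) : ℝ) := by
    have h1 := abs_lt.1 (hclose (cl (stabcL ξ s u1)))
    have h2 : ε ≤ (inner ℝ η (f (cl (stabcL ξ s u1)) : E2) : ℝ) - t := min_le_left _ _
    linarith [h1.1]
  have hg2 : (inner ℝ η (fn n (cl (stabcL ξ s u2)) : E2) : ℝ) < t := by
    have h1 := abs_lt.1 (hclose (cl (stabcL ξ s u2)))
    have h2 : ε ≤ t - (inner ℝ η (f (cl (stabcL ξ s u2)) : E2) : ℝ) := min_le_right _ _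
    linarith [h1.2]
  have hgc : Continuous fun u : ℝ => (inner ℝ η (fn n (cl (stabcL ξ s u)) : E2) : ℝ) := by
    have h1 : Continuous fun u : ℝ => (fn n (cl (stabcL ξ s u)) : E2) :=
      continuous_subtype_val.comp
        ((fn n).continuous.comp (continuous_cl.comp (continuous_stabcL ξ s)))
    exact continuous_const.inner h1
  have hivt := intermediate_value_uIcc (a := u1) (b := u2) hgc.continuousOn
  have htm : t ∈ uIcc (inner ℝ η (fn n (cl (stabcL ξ s u1)) : E2) : ℝ)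
      (inner ℝ η (fn n (cl (stabcL ξ s u2)) : E2) : ℝ) := by
    rw [uIcc_of_ge (by linarith)]
    exact ⟨hg2.le, hg1.le⟩
  obtain ⟨u, hu, hut⟩ := hivt htm
  have huI : stabcL ξ s u ∈ Cube 2 := (stabc_ord ξ s).uIcc_subset hu1I hu2I hu
  have hud : dist u u0 < δ := by
    have h1 : (Metric.ball u0 δ).OrdConnected := by
      rw [Real.ball_eq_Ioo]
      exact ordConnected_Ioo
    have h2 : u1 ∈ Metric.ball u0 δ := by rw [Metric.mem_ball, Real.dist_eq]; exact hu1d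
    have h3 : u2 ∈ Metric.ball u0 δ := by rw [Metric.mem_ball, Real.dist_eq]; exact hu2d
    exact h1.uIcc_subset h2 h3 hu
  refine ⟨pt (fn n) (cl (stabcL ξ s u)), ⟨pt_mem _ _, ?_⟩, ?_⟩
  · apply hball
    rw [Metric.mem_ball]
    have h1 := hdel u hud
    have h2 : dist (pt (fn n) (cl (stabcL ξ s u))) (pt f (cl (stabcL ξ s u))) < ρ / 2 := by
      rw [dist_eq_norm]
      exact hn2 _
    have h3 : pt f (cl (stabcL ξ s u0)) = z := by rw [hclu0, hx']
    rw [h3] at h1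
    calc dist (pt (fn n) (cl (stabcL ξ s u))) z ≤
        dist (pt (fn n) (cl (stabcL ξ s u))) (pt f (cl (stabcL ξ s u))) +
          dist (pt f (cl (stabcL ξ s u))) z := dist_triangle _ _ _
      _ < ρ / 2 + ρ / 2 := add_lt_add h2 h1
      _ = ρ := by ring
  · rw [stabcT_pt, cl_of_mem huI, stabc_inner_L hξ]
    exact Prod.ext rfl hut

/-- [GRL-H] `T z = (⟪ξ, z.fst⟫, ⟪η, z.snd⟫)`. Let `A n = T '' (graph (fn n) ∩ U)` (σ-compact, so Borel), `A = {p | ∀ᶠ n, p ∈ A n}`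
Borel, `T '' K` compact. By Fubini it is enough that for every `s` the set `{t | (s, t) ∈ T '' K \ A}` is countable.
Fix `s`, let `d ⟂ ξ` be a unit vector and `l u = s • (‖ξ‖⁻²) • ξ + u • d`, `I = {u | l u ∈ Cube 2}` (closed, convex),
`g u = ⟪η, f (cl (l u))⟫`. If `(s, t) ∈ T '' K` and `t` is not in the countable set of `countable_extr`: `(s, t) = T (pt f x)`,
`x = l u₀`, `u₀ ∈ I`, `g u₀ = t`, so in every neighbourhood of `u₀` there are `u', u'' ∈ I` with `g u' < t < g u''`; the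
neighbourhood can be chosen so small that `pt f (cl (l u)) ∈ U` for `u` between `u'` and `u''` (compact segment, so with a
margin). For large `n` the same holds for `fn n` (`Conv.pt`), and by the intermediate value theorem there is `u` between with
`⟪η, fn n (cl (l u))⟫ = t`: `(s, t) ∈ A n`. -/
theorem stab_C (f : Hm) (fn : ℕ → Hm) (hc : Conv fn f) (ξ η : E2) (hξ : ξ ≠ 0) (hη : η ≠ 0)
    (K : Set E4) (hK : IsCompact K) (hKf : K ⊆ graph f) (U : Set E4) (hU : IsOpen U)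
    (hKU : K ⊆ U) :
    ∀ᵐ p : ℝ × ℝ, p ∈ (fun z : E4 => ((inner ℝ ξ z.fst : ℝ), (inner ℝ η z.snd : ℝ))) '' K →
      ∀ᶠ n in atTop,
        p ∈ (fun z : E4 => ((inner ℝ ξ z.fst : ℝ), (inner ℝ η z.snd : ℝ))) '' (graph (fn n) ∩ U) := by
  change ∀ᵐ p : ℝ × ℝ, p ∈ stabcT ξ η '' K →
    ∀ᶠ n in atTop, p ∈ stabcT ξ η '' (graph (fn n) ∩ U)
  have hA : ∀ n, MeasurableSet (stabcT ξ η '' (graph (fn n) ∩ U)) := fun n =>
    measurable_image (isCompact_graph (fn n)) hU (continuous_stabcT ξ η)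
  have hB : MeasurableSet (stabcT ξ η '' K) :=
    (hK.image (continuous_stabcT ξ η)).isClosed.measurableSet
  have hN : MeasurableSet (stabcT ξ η '' K \
      ⋃ m : ℕ, ⋂ n : ℕ, ⋂ _ : m ≤ n, stabcT ξ η '' (graph (fn n) ∩ U)) := by
    refine hB.diff (MeasurableSet.iUnion fun m => MeasurableSet.iInter fun n =>
      MeasurableSet.iInter fun _ => hA n)
  have hnull : (volume : Measure (ℝ × ℝ)) (stabcT ξ η '' K \
      ⋃ m : ℕ, ⋂ n : ℕ, ⋂ _ : m ≤ n, stabcT ξ η '' (graph (fn n) ∩ U)) = 0 := by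
    rw [Measure.volume_eq_prod, Measure.measure_prod_null hN]
    refine Filter.Eventually.of_forall fun s => ?_
    have hcount := countable_extr (fun u => (inner ℝ η (f (cl (stabcL ξ s u)) : E2) : ℝ)) (by
      have h1 : Continuous fun u : ℝ => (f (cl (stabcL ξ s u)) : E2) :=
        continuous_subtype_val.comp
          (f.continuous.comp (continuous_cl.comp (continuous_stabcL ξ s)))
      exact continuous_const.inner h1) {u : ℝ | stabcL ξ s u ∈ Cube 2} (stabc_ord ξ s)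
    refine measure_mono_null ?_ (hcount.measure_zero volume)
    intro t ht
    obtain ⟨ht1, ht2⟩ := ht
    by_contra hcon
    apply ht2
    have h1 := stabc_key f fn hc ξ η hξ hη K hKf U hU hKU s t ht1 hcon
    obtain ⟨m, hm⟩ := eventually_atTop.1 h1
    rw [mem_iUnion]
    refine ⟨m, ?_⟩
    rw [mem_iInter]
    intro n
    rw [mem_iInter]
    intro hn
    exact hm n hn
  rw [ae_iff]
  refine measure_mono_null ?_ hnull
  intro p hp
  rw [mem_ofPred_eq] at hp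
  push Not at hp
  obtain ⟨hp1, hp2⟩ := hp
  refine ⟨hp1, ?_⟩
  intro h
  apply hp2
  rw [mem_iUnion] at h
  obtain ⟨m, hm⟩ := h
  refine eventually_atTop.2 ⟨m, fun n hn => ?_⟩
  rw [mem_iInter] at hm
  have := hm n
  rw [mem_iInter] at this
  exact not_not.2 (this hn)

end Pool.Agent.MP_ccb05f_an.G2
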