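import Pool.Agent.MP_ccb05f_an.G2.Crude
import Pool.Agent.MP_ccb05f_an.G2.NullProj
import Pool.Agent.MP_ccb05f_an.G2.CoverA
import Pool.Agent.MP_ccb05f_an.G2.CoverC
import Pool.Agent.MP_ccb05f_an.G2.StabA
import Pool.Agent.MP_ccb05f_an.G2.StabC
import Pool.Agent.MP_ccb05f_an.G2.Meas
import Pool.Agent.MP_ccb05f_an.G2.Flat

/-! # lower semicontinuity of the graph measure in dimension two -/

set_option autoImplicit false

open MeasureTheory Set Filter Topology Metric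
open scoped ENNReal NNReal

namespace Pool.Agent.MP_ccb05f_an.G2

/-! ### the linear maps -/

theorem LA_eq (A A' : E2) (h : E2) : LA A A' h = h 1 • wA 1 A' + h 0 • wA 0 A := by
  apply ext_co
  rintro ⟨b, k⟩
  rw [co_add, co_smul, co_smul]
  cases b
  · simp only [co_false, LA, wA, WithLp.toLp_fst, mk2_apply]
    fin_cases k <;> simp
  · simp only [co_true, LA, wA, WithLp.toLp_snd]
    simp
    ring

/-- `LA` as a linear map -/
noncomputable def LAl (A A' : E2) : E2 →ₗ[ℝ] E4 where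
  toFun := LA A A'
  map_add' x y := by
    rw [LA_eq, LA_eq, LA_eq]
    simp only [PiLp.add_apply, add_smul]
    abel
  map_smul' r x := by
    rw [LA_eq, LA_eq]
    simp only [PiLp.smul_apply, smul_eq_mul, mul_smul, RingHom.id_apply, smul_add]

theorem le_LA (A A' : E2) (h : E2) : ‖h‖ ≤ ‖LAl A A' h‖ := by
  have h1 : ‖LAl A A' h‖ ^ 2 = ‖h‖ ^ 2 + ‖h 0 • A + h 1 • A'‖ ^ 2 := by
    rw [WithLp.prod_norm_sq_eq_of_L2]
    rfl
  refine abs_le_of_sq_le_sq' ?_ (norm_nonneg _) |>.2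
  rw [h1]
  nlinarith [sq_nonneg ‖h 0 • A + h 1 • A'‖]

/-- the linear map `(s, t) ↦ (s ξ, t η)` -/
noncomputable def LC (ξ η : E2) : E2 →ₗ[ℝ] E4 where
  toFun h := WithLp.toLp 2 (h 0 • ξ, h 1 • η)
  map_add' x y := by
    apply ext_co
    rintro ⟨b, k⟩
    rw [co_add]
    cases b <;> simp <;> ring
  map_smul' r x := by
    apply ext_co
    rintro ⟨b, k⟩
    simp only [RingHom.id_apply]
    rw [co_smul]
    cases b <;> simp <;> ring

theorem LC_apply (ξ η h : E2) : LC ξ η h = WithLp.toLp 2 (h 0 • ξ, h 1 • η) := rfl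

theorem LC_norm (ξ η h : E2) : ‖LC ξ η h‖ ^ 2 = (h 0) ^ 2 * ‖ξ‖ ^ 2 + (h 1) ^ 2 * ‖η‖ ^ 2 := by
  rw [LC_apply, WithLp.prod_norm_sq_eq_of_L2, WithLp.toLp_fst, WithLp.toLp_snd]
  simp only [norm_smul, Real.norm_eq_abs, mul_pow, sq_abs]

theorem E2_norm_sq (h : E2) : ‖h‖ ^ 2 = h 0 ^ 2 + h 1 ^ 2 := by
  rw [EuclideanSpace.norm_sq_eq]
  simp [Fin.sum_univ_two]

theorem le_LC {ξ η : E2} (hξ : 1 ≤ ‖ξ‖) (hη : 1 ≤ ‖η‖) (h : E2) : ‖h‖ ≤ ‖LC ξ η h‖ := by
  refine abs_le_of_sq_le_sq' ?_ (norm_nonneg _) |>.2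
  rw [LC_norm, E2_norm_sq]
  have h1 : 1 ≤ ‖ξ‖ ^ 2 := one_le_pow₀ hξ
  have h2 : 1 ≤ ‖η‖ ^ 2 := one_le_pow₀ hη
  nlinarith [sq_nonneg (h 0), sq_nonneg (h 1)]

/-- the inverse coordinates -/
noncomputable def TC (ξ η : E2) : E4 →ₗ[ℝ] E2 where
  toFun z := mk2 0 (inner ℝ ((‖ξ‖ ^ 2)⁻¹ • ξ) z.fst) (inner ℝ ((‖η‖ ^ 2)⁻¹ • η) z.snd)
  map_add' x y := by
    ext k
    simp only [PiLp.add_apply, mk2_apply, WithLp.add_fst, WithLp.add_snd, inner_add_right]
    split_ifs <;> rfl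
  map_smul' r x := by
    ext k
    simp only [PiLp.smul_apply, mk2_apply, WithLp.smul_fst, WithLp.smul_snd, inner_smul_right,
      RingHom.id_apply, smul_eq_mul]
    split_ifs <;> rfl

theorem TC_apply (ξ η : E2) (z : E4) : TC ξ η z =
    mk2 0 (inner ℝ ((‖ξ‖ ^ 2)⁻¹ • ξ) z.fst) (inner ℝ ((‖η‖ ^ 2)⁻¹ • η) z.snd) := rfl

theorem TC_LC {ξ η : E2} (hξ : 1 ≤ ‖ξ‖) (hη : 1 ≤ ‖η‖) (h : E2) : TC ξ η (LC ξ η h) = h := by
  have h1 : ‖ξ‖ ^ 2 ≠ 0 := by positivity
  have h2 : ‖η‖ ^ 2 ≠ 0 := by positivity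
  rw [TC_apply, LC_apply]
  simp only [WithLp.toLp_fst, WithLp.toLp_snd, inner_smul_left, inner_smul_right,
    real_inner_self_eq_norm_sq]
  ext k
  rw [mk2_apply]
  fin_cases k
  · simp
    field_simp
  · simp
    field_simp

theorem LC_TC_le {ξ η : E2} (hξ : 1 ≤ ‖ξ‖) (hη : 1 ≤ ‖η‖) (z : E4) :
    ‖LC ξ η (TC ξ η z)‖ ≤ ‖z‖ := by
  have h1 : 0 < ‖ξ‖ := by linarith
  have h2 : 0 < ‖η‖ := by linarith
  refine abs_le_of_sq_le_sq' ?_ (norm_nonneg _) |>.2
  rw [LC_norm, WithLp.prod_norm_sq_eq_of_L2, TC_apply]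
  simp only [mk2_apply, inner_smul_left]
  have e : ∀ ζ x : E2, 0 < ‖ζ‖ → ((‖ζ‖ ^ 2)⁻¹ * inner ℝ ζ x) ^ 2 * ‖ζ‖ ^ 2 ≤ ‖x‖ ^ 2 := by
    intro ζ x hζ
    have h3 : (inner ℝ ζ x) ^ 2 ≤ ‖ζ‖ ^ 2 * ‖x‖ ^ 2 := by
      have := abs_real_inner_le_norm ζ x
      rw [← mul_pow, ← sq_abs]
      exact pow_le_pow_left₀ (abs_nonneg _) this 2
    have h4 : ((‖ζ‖ ^ 2)⁻¹ * inner ℝ ζ x) ^ 2 * ‖ζ‖ ^ 2 = (inner ℝ ζ x) ^ 2 / ‖ζ‖ ^ 2 := by
      field_simp
    rw [h4, div_le_iff₀ (by positivity)]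
    linarith
  have e1 := e ξ z.fst h1
  have e2 := e η z.snd h2
  simpa using add_le_add e1 e2

theorem one_le_mk2 (i : Fin 2) (α : ℝ) : 1 ≤ ‖mk2 i 1 α‖ := by
  have h : ‖mk2 i 1 α‖ ^ 2 = 1 + α ^ 2 := by
    rw [E2_norm_sq]
    simp only [mk2_apply]
    fin_cases i
    · simp
    · simp
      ring
  nlinarith [norm_nonneg (mk2 i 1 α), sq_nonneg α]

theorem abs_add_le (q : E2) : |q 0| + |q 1| ≤ 2 * ‖q‖ := by
  have h0 : |q 0| ≤ ‖q‖ := by
    refine abs_le_of_sq_le_sq ?_ (norm_nonneg _)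
    rw [E2_norm_sq]
    nlinarith [sq_nonneg (q 1)]
  have h1 : |q 1| ≤ ‖q‖ := by
    refine abs_le_of_sq_le_sq ?_ (norm_nonneg _)
    rw [E2_norm_sq]
    nlinarith [sq_nonneg (q 0)]
  linarith

/-! ### the three types of pieces -/

theorem ineq_A {f : Hm} {fn : ℕ → Hm} (hc : Conv fn f) {A A' : E2} {ε δ δ' : ℝ} (hε : 0 < ε)
    (hε' : ε ≤ 1 / 8) (hδ : 0 < δ) (hδ' : 0 < δ') {K : Set E4} (hK : IsCompact K)
    (hKP : K ⊆ Piece (graph f) (false, 1) (false, 0) (wA 0 A) (wA 1 A') ε δ δ')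
    (hdiam : ∀ z ∈ K, ∀ z' ∈ K, ‖z - z'‖ < δ / 4 ∧ ‖z - z'‖ < δ') {U : Set E4} (hU : IsOpen U)
    (hKU : K ⊆ U) :
    μH[2] K ≤ ENNReal.ofReal ((1 + 8 * ε) ^ 2) *
      liminf (fun n => μH[2] (graph (fn n) ∩ U)) atTop := by
  obtain ⟨T, hTL, hLT, hT⟩ := exists_T (LAl A A') (le_LA A A')
  refine lsc_piece (LAl A A') T hTL hLT K hK (1 + 8 * ε) (by positivity) ?_
    (fun n => graph (fn n) ∩ U)
    (fun n => measurable_image (isCompact_graph _) hU T.continuous_of_finiteDimensional)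
    (stab_A f fn hc A A' ε δ δ' hε hε' hδ hδ' K hK hKP hdiam U hU hKU T hTL hT)
  intro z hz z' hz'
  have h1 := piece_flat hδ (hKP hz') (hKP hz) (hdiam z hz z' hz').1 (hdiam z hz z' hz').2
  refine flat_of_near hTL hLT (le_LA A A') hε.le hε' (q := z.fst - z'.fst) ?_
  have e : LAl A A' (z.fst - z'.fst) = (co (false, 1) z - co (false, 1) z') • wA 1 A' +
      (co (false, 0) z - co (false, 0) z') • wA 0 A := by
    change LA A A' (z.fst - z'.fst) = _
    rw [LA_eq]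
    simp
  rw [e]
  refine h1.trans ?_
  have h2 := abs_add_le (z.fst - z'.fst)
  simp only [PiLp.sub_apply] at h2
  simp only [co_false]
  nlinarith

theorem ineq_C {f : Hm} {fn : ℕ → Hm} (hc : Conv fn f) {i j : Fin 2} {α β ε δ δ' : ℝ} (hε : 0 < ε)
    (hε' : ε ≤ 1 / 8) (hδ : 0 < δ) {K : Set E4} (hK : IsCompact K)
    (hKP : K ⊆ Piece (graph f) (false, i) (true, j) (wT j β) (wU i α) ε δ δ')
    (hdiam : ∀ z ∈ K, ∀ z' ∈ K, ‖z - z'‖ < δ / 4 ∧ ‖z - z'‖ < δ') {U : Set E4} (hU : IsOpen U)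
    (hKU : K ⊆ U) :
    μH[2] K ≤ ENNReal.ofReal ((1 + 8 * ε) ^ 2) *
      liminf (fun n => μH[2] (graph (fn n) ∩ U)) atTop := by
  set ξ := mk2 i 1 α with hξ
  set η := mk2 j 1 β with hη
  have hξ1 : 1 ≤ ‖ξ‖ := one_le_mk2 i α
  have hη1 : 1 ≤ ‖η‖ := one_le_mk2 j β
  have hξ0 : ξ ≠ 0 := by
    intro h; rw [h, norm_zero] at hξ1; linarith
  have hη0 : η ≠ 0 := by
    intro h; rw [h, norm_zero] at hη1; linarith
  have hcont : Continuous (TC ξ η) := (TC ξ η).continuous_of_finiteDimensional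
  have hKf : K ⊆ graph f := fun z hz => (hKP hz).1.1.1
  refine lsc_piece (LC ξ η) (TC ξ η) (TC_LC hξ1 hη1) (LC_TC_le hξ1 hη1) K hK (1 + 8 * ε)
    (by positivity) ?_ (fun n => graph (fn n) ∩ U)
    (fun n => measurable_image (isCompact_graph _) hU hcont) ?_
  · intro z hz z' hz'
    have h1 := piece_flat hδ (hKP hz') (hKP hz) (hdiam z hz z' hz').1 (hdiam z hz z' hz').2
    refine flat_of_near (TC_LC hξ1 hη1) (LC_TC_le hξ1 hη1) (le_LC hξ1 hη1) hε.le hε'
      (q := mk2 0 (co (false, i) z - co (false, i) z') (co (true, j) z - co (true, j) z')) ?_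
    have e : LC ξ η (mk2 0 (co (false, i) z - co (false, i) z')
        (co (true, j) z - co (true, j) z')) = (co (false, i) z - co (false, i) z') • wU i α +
        (co (true, j) z - co (true, j) z') • wT j β := by
      apply ext_co
      rintro ⟨b, k⟩
      rw [co_add, co_smul, co_smul, LC_apply]
      cases b
      · simp [wU, wT, hξ]
      · simp [wU, wT, hη]
    rw [e]
    refine h1.trans ?_
    have h2 := abs_add_le (mk2 0 (co (false, i) z - co (false, i) z')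
      (co (true, j) z - co (true, j) z'))
    simp only [mk2_apply] at h2
    simp only [if_true, one_ne_zero, if_false] at h2
    nlinarith
  · have h1 := stab_C f fn hc ((‖ξ‖ ^ 2)⁻¹ • ξ) ((‖η‖ ^ 2)⁻¹ • η)
      (smul_ne_zero (inv_ne_zero (by positivity)) hξ0)
      (smul_ne_zero (inv_ne_zero (by positivity)) hη0) K hK hKf U hU hKU
    have hmp : MeasurePreserving (fun q : E2 => ((q 0, q 1) : ℝ × ℝ)) volume volume :=
      (volume_preserving_finTwoArrow ℝ).comp (PiLp.volume_preserving_ofLp (Fin 2))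
    have h2 := hmp.quasiMeasurePreserving.ae h1
    have key : ∀ (S : Set E4) (q : E2), ((q 0, q 1) : ℝ × ℝ) ∈
        (fun z : E4 => ((inner ℝ ((‖ξ‖ ^ 2)⁻¹ • ξ) z.fst : ℝ),
          (inner ℝ ((‖η‖ ^ 2)⁻¹ • η) z.snd : ℝ))) '' S ↔ q ∈ TC ξ η '' S := by
      intro S q
      constructor
      · rintro ⟨z, hz, h⟩
        refine ⟨z, hz, ?_⟩
        have h3 := congrArg Prod.fst h
        have h4 := congrArg Prod.snd h
        simp only at h3 h4
        rw [TC_apply, h3, h4]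
        exact mk2_coords 0 q
      · rintro ⟨z, hz, rfl⟩
        refine ⟨z, hz, ?_⟩
        rw [TC_apply]
        simp
    filter_upwards [h2] with q hq hqK
    filter_upwards [hq ((key K q).2 hqK)] with n hn
    exact (key _ q).1 hn

theorem sw_preimage_eq (S : Set E4) : sw ⁻¹' S = sw '' S := by
  ext z
  constructor
  · exact fun h => ⟨sw z, h, sw_sw z⟩
  · rintro ⟨y, hy, rfl⟩
    change sw (sw y) ∈ S
    rw [sw_sw]
    exact hy

theorem hm_sw (S : Set E4) : μH[2] (sw '' S) = μH[2] S :=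
  isometry_sw.hausdorffMeasure_image (Or.inl (by norm_num)) S

theorem ineq_B {f : Hm} {fn : ℕ → Hm} (hc : Conv fn f) {A A' : E2} {ε δ δ' : ℝ} (hε : 0 < ε)
    (hε' : ε ≤ 1 / 8) (hδ : 0 < δ) (hδ' : 0 < δ') {K : Set E4} (hK : IsCompact K)
    (hKP : K ⊆ sw ⁻¹' Piece (graph f.symm) (false, 1) (false, 0) (wA 0 A) (wA 1 A') ε δ δ')
    (hdiam : ∀ z ∈ K, ∀ z' ∈ K, ‖z - z'‖ < δ / 4 ∧ ‖z - z'‖ < δ') {U : Set E4} (hU : IsOpen U)
    (hKU : K ⊆ U) :
    μH[2] K ≤ ENNReal.ofReal ((1 + 8 * ε) ^ 2) *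
      liminf (fun n => μH[2] (graph (fn n) ∩ U)) atTop := by
  have h := ineq_A hc.symm (A := A) (A' := A') hε hε' hδ hδ' (K := sw '' K)
    (hK.image isometry_sw.continuous) (by rintro _ ⟨z, hz, rfl⟩; exact hKP hz)
    (by
      rintro _ ⟨z, hz, rfl⟩ _ ⟨z', hz', rfl⟩
      rw [← sw_sub, norm_sw]
      exact hdiam z hz z' hz') (U := sw ⁻¹' U) (hU.preimage isometry_sw.continuous)
    (by
      rintro _ ⟨z, hz, rfl⟩
      change sw (sw z) ∈ U
      rw [sw_sw]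
      exact hKU hz)
  rw [hm_sw] at h
  have e : ∀ n, μH[2] (graph (fn n).symm ∩ sw ⁻¹' U) = μH[2] (graph (fn n) ∩ U) := by
    intro n
    rw [← hm_sw (graph (fn n) ∩ U)]
    congr 1
    rw [sw_preimage_eq, ← sw_image_graph, image_inter]
    intro x y hxy
    rw [← sw_sw x, ← sw_sw y, hxy]
  simp only [e] at h
  exact h

/-! ### the countable family of pieces -/

/-- all pieces -/
noncomputable def PI (f : Hm) (ε : ℝ) (a : ℕ → E2) (b : ℕ → ℝ) :
    (Bool ⊕ (Fin 2 × Fin 2)) → (ℕ × ℕ × ℕ × ℕ) → Set E4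
  | .inl false, k => PA f ε a k
  | .inl true, k => sw ⁻¹' PA f.symm ε a k
  | .inr p, k => PC f ε p.1 p.2 b k

theorem isClosed_PI (f : Hm) (ε : ℝ) (a : ℕ → E2) (b : ℕ → ℝ) (τ : Bool ⊕ (Fin 2 × Fin 2))
    (k : ℕ × ℕ × ℕ × ℕ) : IsClosed (PI f ε a b τ k) := by
  rcases τ with (_ | _) | p
  · exact isClosed_Piece _ _ _ _ _ _ _ _
  · exact (isClosed_Piece _ _ _ _ _ _ _ _).preimage isometry_sw.continuous
  · exact isClosed_Piece _ _ _ _ _ _ _ _

/-- the localisation radius -/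
noncomputable def rad (k : ℕ × ℕ × ℕ × ℕ) : ℝ :=
  min (1 / ((k.2.2.1 : ℝ) + 1) / 4) (1 / ((k.2.2.2 : ℝ) + 1)) / 4

theorem rad_pos (k : ℕ × ℕ × ℕ × ℕ) : 0 < rad k := by
  unfold rad
  positivity

theorem null_rest (f : Hm) (hfin : μH[2] (graph f) ≠ ∞) (ε : ℝ) (hε : 0 < ε) (a : ℕ → E2)
    (ha : DenseRange a) (b : ℕ → ℝ) (hb : DenseRange b) :
    μH[2] (graph f \ ⋃ τ, ⋃ k, PI f ε a b τ k) = 0 := by
  have hfin' : μH[2] (graph f.symm) ≠ ∞ := by
    rw [← sw_image_graph, hm_sw]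
    exact hfin
  set Z := graph f \ ⋃ τ, ⋃ k, PI f ε a b τ k with hZ
  have hA : volume (pr (false, 0) (false, 1) '' (graph f \ ⋃ k, PA f ε a k)) = 0 :=
    cover_A f hfin ε hε a ha
  have hB : volume (pr (true, 0) (true, 1) ''
      (graph f \ ⋃ k, sw ⁻¹' PA f.symm ε a k)) = 0 := by
    have h1 := cover_A f.symm hfin' ε hε a ha
    refine measure_mono_null ?_ h1
    rintro _ ⟨z, ⟨hz, hz'⟩, rfl⟩
    refine ⟨sw z, ⟨sw_mem.2 hz, ?_⟩, ?_⟩
    · intro h
      apply hz'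
      rw [mem_iUnion] at h ⊢
      exact h
    · simp only [pr, co_sw]
      rfl
  set D := graph f \ ((⋃ k, PA f ε a k) ∪ ⋃ k, sw ⁻¹' PA f.symm ε a k) with hD
  have hDm : MeasurableSet D := by
    refine (isClosed_graph f).measurableSet.diff (MeasurableSet.union ?_ ?_)
    · exact MeasurableSet.iUnion fun k => (isClosed_PI f ε a b (.inl false) k).measurableSet
    · exact MeasurableSet.iUnion fun k => (isClosed_PI f ε a b (.inl true) k).measurableSet
  have hDx : volume (pr (false, 0) (false, 1) '' D) = 0 :=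
    measure_mono_null (image_mono (sdiff_subset_sdiff_right subset_union_left)) hA
  have hDy : volume (pr (true, 0) (true, 1) '' D) = 0 :=
    measure_mono_null (image_mono (sdiff_subset_sdiff_right subset_union_right)) hB
  have hC : ∀ i j, volume (pr (false, i) (true, j) '' (D \ ⋃ k, PC f ε i j b k)) = 0 :=
    fun i j => cover_C f hfin ε hε i j b hb D hDm sdiff_subset hDx hDy
  have zA : volume (pr (false, 0) (false, 1) '' Z) = 0 := by
    refine measure_mono_null (image_mono (sdiff_subset_sdiff_right ?_)) hA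
    exact subset_iUnion (fun τ => ⋃ k, PI f ε a b τ k) (.inl false)
  have zB : volume (pr (true, 0) (true, 1) '' Z) = 0 := by
    refine measure_mono_null (image_mono (sdiff_subset_sdiff_right ?_)) hB
    exact subset_iUnion (fun τ => ⋃ k, PI f ε a b τ k) (.inl true)
  have zC : ∀ i j, volume (pr (false, i) (true, j) '' Z) = 0 := by
    intro i j
    refine measure_mono_null (image_mono ?_) (hC i j)
    rintro z ⟨hz, hz'⟩
    refine ⟨⟨hz, ?_⟩, ?_⟩
    · rintro (h | h)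
      · exact hz' (mem_iUnion.2 ⟨.inl false, h⟩)
      · exact hz' (mem_iUnion.2 ⟨.inl true, h⟩)
    · exact fun h => hz' (mem_iUnion.2 ⟨.inr (i, j), h⟩)
  refine null_of_pr_null f hfin Z sdiff_subset ?_
  rintro ⟨b, i⟩ ⟨b', j⟩ hne
  cases b <;> cases b'
  · fin_cases i <;> fin_cases j
    · exact absurd rfl hne
    · exact zA
    · exact null_pr_swap zA
    · exact absurd rfl hne
  · exact zC i j
  · exact null_pr_swap (zC j i)
  · fin_cases i <;> fin_cases j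
    · exact absurd rfl hne
    · exact zB
    · exact null_pr_swap zB
    · exact absurd rfl hne

theorem lsc_eps (f : Hm) (fn : ℕ → Hm) (hc : Conv fn f) (hfin : μH[2] (graph f) ≠ ∞) (ε : ℝ)
    (hε : 0 < ε) (hε' : ε ≤ 1 / 8) :
    μH[2] (graph f) ≤ ENNReal.ofReal ((1 + 8 * ε) ^ 2) *
      liminf (fun n => μH[2] (graph (fn n))) atTop := by
  let a := TopologicalSpace.denseSeq E2
  let b := TopologicalSpace.denseSeq ℝ
  let d := TopologicalSpace.denseSeq E4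
  let I := (Bool ⊕ (Fin 2 × Fin 2)) × (ℕ × ℕ × ℕ × ℕ) × ℕ
  let P : I → Set E4 := fun x => PI f ε a b x.1 x.2.1 ∩ closedBall (d x.2.2) (rad x.2.1)
  obtain ⟨g, hg⟩ := exists_surjective_nat I
  refine lsc_of_pieces (graph f) (isClosed_graph f) hfin (fun n => P (g n))
    (fun n => (isClosed_PI f ε a b _ _).inter isClosed_closedBall) ?_ (fun n => graph (fn n))
    (fun n => (isClosed_graph _).measurableSet) _ ENNReal.ofReal_ne_top ?_
  · refine measure_mono_null ?_ (null_rest f hfin ε hε a (TopologicalSpace.denseRange_denseSeq E2)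
      b (TopologicalSpace.denseRange_denseSeq ℝ))
    refine sdiff_subset_sdiff_right ?_
    intro z hz
    simp only [mem_iUnion] at hz
    obtain ⟨τ, k, hk⟩ := hz
    obtain ⟨l, hl⟩ := (TopologicalSpace.denseRange_denseSeq E4).exists_dist_lt z (rad_pos k)
    obtain ⟨n, hn⟩ := hg (τ, k, l)
    refine mem_iUnion.2 ⟨n, ?_⟩
    rw [hn]
    exact ⟨hk, hl.le⟩
  · intro n K hK hKc U hU hKU
    obtain ⟨⟨τ, k, l⟩, hx⟩ : ∃ x, g n = x := ⟨_, rfl⟩
    rw [hx] at hK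
    have hKb : ∀ z ∈ K, dist z (d l) ≤ rad k := fun z hz => (hK hz).1.2
    have hKp : ∀ z ∈ K, z ∈ PI f ε a b τ k := fun z hz => (hK hz).1.1
    have h1 : (0 : ℝ) < 1 / ((k.2.2.1 : ℝ) + 1) := by positivity
    have h2 : (0 : ℝ) < 1 / ((k.2.2.2 : ℝ) + 1) := by positivity
    have hdiam : ∀ z ∈ K, ∀ z' ∈ K, ‖z - z'‖ < 1 / ((k.2.2.1 : ℝ) + 1) / 4 ∧
        ‖z - z'‖ < 1 / ((k.2.2.2 : ℝ) + 1) := by
      intro z hz z' hz'
      have h3 : ‖z - z'‖ ≤ 2 * rad k := by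
        rw [← dist_eq_norm]
        have h4 := dist_triangle_right z z' (d l)
        have h5 := hKb z hz
        have h6 := hKb z' hz'
        linarith
      have h4 : 2 * rad k < min (1 / ((k.2.2.1 : ℝ) + 1) / 4) (1 / ((k.2.2.2 : ℝ) + 1)) := by
        have : 0 < min (1 / ((k.2.2.1 : ℝ) + 1) / 4) (1 / ((k.2.2.2 : ℝ) + 1)) :=
          lt_min (by positivity) h2
        unfold rad
        linarith
      exact ⟨(h3.trans_lt h4).trans_le (min_le_left _ _),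
        (h3.trans_lt h4).trans_le (min_le_right _ _)⟩
    rcases τ with (_ | _) | ⟨i, j⟩
    · exact ineq_A hc hε hε' h1 h2 hKc hKp hdiam hU hKU
    · exact ineq_B hc hε hε' h1 h2 hKc hKp hdiam hU hKU
    · exact ineq_C hc hε hε' h1 hKc hKp hdiam hU hKU

/-- sequential lower semicontinuity at points of finite measure -/
theorem lsc_seq (f : Hm) (fn : ℕ → Hm) (hc : Conv fn f) (hfin : μH[2] (graph f) ≠ ∞) :
    μH[2] (graph f) ≤ liminf (fun n => μH[2] (graph (fn n))) atTop := by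
  set x := liminf (fun n => μH[2] (graph (fn n))) atTop with hx
  have h1 : ∀ n : ℕ, μH[2] (graph f) ≤ ENNReal.ofReal ((1 + 8 * (1 / ((n : ℝ) + 8))) ^ 2) * x := by
    intro n
    refine lsc_eps f fn hc hfin (1 / ((n : ℝ) + 8)) (by positivity) ?_
    apply one_div_le_one_div_of_le (by norm_num)
    have : (0 : ℝ) ≤ n := Nat.cast_nonneg n
    linarith
  have h2 : Tendsto (fun n : ℕ => ENNReal.ofReal ((1 + 8 * (1 / ((n : ℝ) + 8))) ^ 2) * x) atTop
      (𝓝 (ENNReal.ofReal ((1 + 8 * 0) ^ 2) * x)) := by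
    refine ENNReal.Tendsto.mul_const ?_ (Or.inl ?_)
    · refine ENNReal.tendsto_ofReal ?_
      have h3 : Tendsto (fun n : ℕ => 1 / ((n : ℝ) + 8)) atTop (𝓝 0) := by
        have h4 := tendsto_atTop_add_const_right atTop (8 : ℝ) (tendsto_natCast_atTop_atTop (R := ℝ))
        simp only [one_div]
        exact h4.inv_tendsto_atTop
      exact ((tendsto_const_nhds.add (tendsto_const_nhds.mul h3)).pow 2)
    · simp
  have h3 := le_of_tendsto_of_tendsto' tendsto_const_nhds h2 h1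
  simpa using h3

/-- **Lower semicontinuity of the graph measure in dimension two.** -/
theorem lsc_two (c : ℝ≥0∞) (f : Hm) (h : c < μH[2] (graph f)) :
    ∃ ε : ℝ, 0 < ε ∧ ∀ g : Hm, (∀ x, dist (f x) (g x) < ε) → c < μH[2] (graph g) := by
  by_contra hcon
  push Not at hcon
  have hex : ∀ n : ℕ, ∃ g : Hm, (∀ x, dist (f x) (g x) < 1 / ((n : ℝ) + 1)) ∧
      μH[2] (graph g) ≤ c := fun n => hcon _ (by positivity)
  choose fn hfn hfc using hex
  have hc : Conv fn f := by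
    intro ε hε
    obtain ⟨N, hN⟩ := exists_nat_one_div_lt hε
    filter_upwards [eventually_ge_atTop N] with n hn x
    rw [dist_comm]
    refine (hfn n x).trans (lt_of_le_of_lt ?_ hN)
    apply one_div_le_one_div_of_le (by positivity)
    have : (N : ℝ) ≤ n := by exact_mod_cast hn
    linarith
  have hctop : c ≠ ∞ := (h.trans_le le_top).ne
  have hfin := crude f fn hc c hctop hfc
  have h1 := lsc_seq f fn hc hfin
  have h2 : liminf (fun n => μH[2] (graph (fn n))) atTop ≤ c := by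
    refine (liminf_le_liminf (Eventually.of_forall hfc)).trans ?_
    simp
  exact absurd (h1.trans h2) (not_le.2 h)

end Pool.Agent.MP_ccb05f_an.G2
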