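import Pool.Agent.MP_ccb05f_an.G2.Basic

/-! # [GRL-A1] -/

set_option autoImplicit false

open MeasureTheory Set Filter Topology Metric
open scoped ENNReal NNReal

namespace Pool.Agent.MP_ccb05f_an.G2

theorem topo_convex : Convex ℝ (Cube 2) := by
  intro x hx y hy a b ha hb hab i
  have h := (convex_Icc (0 : ℝ) 1) (hx i) (hy i) ha hb hab
  simpa using h

theorem topo_lc : LocallyConnectedSpace (Cube 2) := by
  refine locallyConnectedSpace_of_connected_bases (fun x r => ball x r) (fun _ r => 0 < r)
    (fun x => nhds_basis_ball) ?_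
  intro x r _
  rw [← Topology.IsInducing.subtypeVal.isPreconnected_image]
  have h : (Subtype.val '' ball x r : Set E2) = Cube 2 ∩ ball (x : E2) r := by
    ext y
    constructor
    · rintro ⟨w, hw, rfl⟩
      exact ⟨w.2, hw⟩
    · rintro ⟨hy, hy'⟩
      exact ⟨⟨y, hy⟩, hy', rfl⟩
  rw [h]
  exact (topo_convex.inter (convex_ball _ _)).isPreconnected

theorem topo_pre : PreconnectedSpace (Cube 2) :=
  isPreconnected_iff_preconnectedSpace.1 topo_convex.isPreconnected

theorem topo_line (g : Hm) (c : Ix) (a : ℝ) (ha : a ∈ Icc (0 : ℝ) 1) :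
    ∃ (γ : ℝ → Cube 2) (c' : Ix), Continuous γ ∧
      (∀ u ∈ Icc (0 : ℝ) 1, co c (pt g (γ u)) = a ∧ co c' (pt g (γ u)) = u) ∧
      ∀ x, co c (pt g x) = a → ∃ u ∈ Icc (0 : ℝ) 1, x = γ u := by
  obtain ⟨b, i⟩ := c
  cases b
  · refine ⟨fun u => cl (mk2 i a u), (false, ot i), ?_, ?_, ?_⟩
    · exact continuous_cl.comp ((continuous_mk2 i).comp (by fun_prop : Continuous fun u : ℝ => (a, u)))
    · intro u hu
      exact co_curveS (f := g) (i := i) ha hu
    · intro x hx
      refine ⟨co (false, ot i) (pt g x), co_mem_Icc (pt_mem g x) _, ?_⟩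
      have h1 := curveS_co (pt_mem g x) i
      rw [hx] at h1
      exact (pt_injective g h1).symm
  · refine ⟨fun u => g.symm (cl (mk2 i a u)), (true, ot i), ?_, ?_, ?_⟩
    · exact g.symm.continuous.comp
        (continuous_cl.comp ((continuous_mk2 i).comp (by fun_prop : Continuous fun u : ℝ => (a, u))))
    · intro u hu
      exact co_curveT (f := g) (j := i) ha hu
    · intro x hx
      refine ⟨co (true, ot i) (pt g x), co_mem_Icc (pt_mem g x) _, ?_⟩
      have h1 := curveT_co (pt_mem g x) i
      rw [hx] at h1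
      exact (pt_injective g h1).symm

/-- a value avoided by the boundary cannot be taken inside -/
theorem topo_avoid (g : Hm) (z : E4) (t : ℝ) (h1 : t < 1 / 2) (E : Set (Cube 2)) (hEo : IsOpen E)
    (hEO : ∀ x ∈ E, ∀ c, |co c (pt g x) - co c z| < t) (c : Ix) (a : ℝ) (ha : a ∈ Icc (0 : ℝ) 1)
    (hF : a ∉ co c '' (pt g '' (closure E \ E))) (x : Cube 2) (hx : x ∈ E) :
    co c (pt g x) ≠ a := by
  intro hxa
  obtain ⟨γ, c', hγ, hγ1, hγ2⟩ := topo_line g c a ha
  have hpre : IsPreconnected (γ '' Icc (0 : ℝ) 1) := isPreconnected_Icc.image γ hγ.continuousOn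
  have hsub : γ '' Icc (0 : ℝ) 1 ⊆ E ∪ (closure E)ᶜ := by
    rintro _ ⟨u, hu, rfl⟩
    by_contra hcon
    rw [mem_union, not_or, mem_compl_iff, not_not] at hcon
    exact hF ⟨pt g (γ u), ⟨γ u, ⟨hcon.2, hcon.1⟩, rfl⟩, (hγ1 u hu).1⟩
  have hne : (γ '' Icc (0 : ℝ) 1 ∩ E).Nonempty := by
    obtain ⟨u, hu, hxu⟩ := hγ2 x hxa
    exact ⟨x, ⟨u, hu, hxu.symm⟩, hx⟩
  have hdis : Disjoint E (closure E)ᶜ := by
    rw [disjoint_compl_right_iff_subset]
    exact subset_closure
  have hVE : γ '' Icc (0 : ℝ) 1 ⊆ E :=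
    hpre.subset_left_of_subset_union hEo isClosed_closure.isOpen_compl hdis hsub hne
  have h0 := hEO (γ 0) (hVE ⟨0, ⟨le_rfl, zero_le_one⟩, rfl⟩) c'
  have h2 := hEO (γ 1) (hVE ⟨1, ⟨zero_le_one, le_rfl⟩, rfl⟩) c'
  rw [(hγ1 0 ⟨le_rfl, zero_le_one⟩).2] at h0
  rw [(hγ1 1 ⟨zero_le_one, le_rfl⟩).2] at h2
  rw [abs_lt] at h0 h2
  linarith [h0.1, h0.2, h2.1, h2.2]

theorem topo_exists_avoid {S : Set ℝ} {t p : ℝ} (h : volume S < ENNReal.ofReal (t / 10)) :
    ∃ a ∈ Ioo p (p + t / 10), a ∉ S := by
  by_contra hcon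
  push Not at hcon
  have h1 : volume (Ioo p (p + t / 10)) ≤ volume S := measure_mono hcon
  rw [Real.volume_Ioo, add_sub_cancel_left] at h1
  exact absurd h (not_lt.2 h1)

/-- [GRL-A1] Let `z = pt g x`, `O = {x' : Cube 2 | ∀ c, |co c (pt g x') - co c z| < t}` (open), `E` the connected
component of `x` in `O` (`connectedComponentIn O x`). `Cube 2` is locally connected (balls of a convex set are convex,
hence connected), so `E` is open, and (component of `O`) `closure E ∩ O ⊆ E`. Take
`F = pt g '' (closure E \ E)`. Points of `F` satisfy all `|co c z' - co c z| ≤ t` (closure) and are not in `O`, so one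
of the four differences is `= t`.
Suppose `volume (co c' '' F) < t / 10` for all four `c'`. Claim: `|co c (pt g x') - co c z| ≤ t / 10` for all `x' ∈ E` and
all `c`. Lower bound: let `s = co c z`. If `s ≤ t / 10` it is clear (`co c ≥ 0`). If `s > t / 10` choose
`a ∈ (s - t / 10, s)` with `a ∉ co c '' F` (measure!). `V = {x' | co c (pt g x') = a}` is connected (it is the line
`x' i = a` if `c = (false, i)`, and the image under `g.symm` of a line if `c = (true, j)`; see `curveS`, `curveT`,
`slice_source`, `slice_target`). `V` does not meet `closure E \ E`, so `V ∩ E` is open and closed in `V`: `V ⊆ E` or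
`V ∩ E = ∅`. The first is impossible: the other coordinate (`(false, ot i)` resp. `(true, ot j)`) takes the values `0` and
`1` on `V`, but on `E ⊆ O` it is within `t < 1 / 2` of a fixed number. So `V ∩ E = ∅`, and as `E` is connected and
contains `x`, `co c (pt g ·) > a` on `E`. Upper bound in the same way.
So `closure E ⊆ {all differences ≤ t / 10} ⊆ O`, hence `closure E ⊆ E`: `E` is open and closed in the connected space
`Cube 2`, so `E = univ`; but `co (false, 0)` takes the values `0` and `1` on `Cube 2`, contradiction (`t / 10 < 1 / 2`). -/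
theorem topo (g : Hm) (z : E4) (hz : z ∈ graph g) (t : ℝ) (h0 : 0 < t) (h1 : t < 1 / 2) :
    ∃ F : Set E4, F ⊆ graph g ∧
      (∀ z' ∈ F, (∀ c, |co c z' - co c z| ≤ t) ∧ ∃ c, |co c z' - co c z| = t) ∧
      ∃ c', ENNReal.ofReal (t / 10) ≤ volume (co c' '' F) := by
  obtain ⟨x, rfl⟩ := hz
  change ∃ F : Set E4, F ⊆ graph g ∧
      (∀ z' ∈ F, (∀ c, |co c z' - co c (pt g x)| ≤ t) ∧ ∃ c, |co c z' - co c (pt g x)| = t) ∧
      ∃ c', ENNReal.ofReal (t / 10) ≤ volume (co c' '' F)
  set z : E4 := pt g x with hzdef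
  set O : Set (Cube 2) := {x' | ∀ c, |co c (pt g x') - co c z| < t} with hO
  have hcont : ∀ c, Continuous fun x' : Cube 2 => |co c (pt g x') - co c z| := fun c =>
    (((continuous_co c).comp (continuous_pt g)).sub continuous_const).abs
  have hOo : IsOpen O := by
    have : O = ⋂ c, {x' | |co c (pt g x') - co c z| < t} := by
      ext x'; simp [hO]
    rw [this]
    exact isOpen_iInter_of_finite fun c => isOpen_lt (hcont c) continuous_const
  have hxO : x ∈ O := by
    intro c
    rw [hzdef, sub_self, abs_zero]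
    exact h0
  have := topo_lc
  have := topo_pre
  set E : Set (Cube 2) := connectedComponentIn O x with hE
  have hEo : IsOpen E := hOo.connectedComponentIn
  have hxE : x ∈ E := mem_connectedComponentIn hxO
  have hEO : E ⊆ O := connectedComponentIn_subset O x
  have hEc : IsPreconnected E := isPreconnected_connectedComponentIn
  have hcl : ∀ x' ∈ closure E, x' ∈ O → x' ∈ E := by
    intro x' hx' hx'O
    have h2 : IsPreconnected (insert x' E) :=
      hEc.subset_closure (subset_insert _ _) (insert_subset hx' subset_closure)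
    exact h2.subset_connectedComponentIn (mem_insert_of_mem _ hxE) (insert_subset hx'O hEO)
      (mem_insert _ _)
  refine ⟨pt g '' (closure E \ E), ?_, ?_, ?_⟩
  · rintro _ ⟨x', _, rfl⟩
    exact pt_mem g x'
  · rintro _ ⟨x', ⟨hx', hx'E⟩, rfl⟩
    have hle : ∀ c, |co c (pt g x') - co c z| ≤ t := by
      intro c
      have h2 : closure E ⊆ {x' | |co c (pt g x') - co c z| ≤ t} := by
        apply closure_minimal
        · intro w hw
          exact (hEO hw c).le
        · exact isClosed_le (hcont c) continuous_const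
      exact h2 hx'
    refine ⟨hle, ?_⟩
    by_contra hcon
    push Not at hcon
    exact hx'E (hcl x' hx' fun c => lt_of_le_of_ne (hle c) (hcon c))
  · by_contra hcon
    push Not at hcon
    have hEO' : ∀ x' ∈ E, ∀ c, |co c (pt g x') - co c z| < t := fun x' hx' => hEO hx'
    have hclaim : ∀ x' ∈ E, ∀ c, |co c (pt g x') - co c z| ≤ t / 10 := by
      intro x' hx' c
      have himg : IsPreconnected ((fun w : Cube 2 => co c (pt g w)) '' E) :=
        hEc.image _ ((continuous_co c).comp (continuous_pt g)).continuousOn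
      have hord := himg.ordConnected
      have hm1 : co c (pt g x') ∈ (fun w : Cube 2 => co c (pt g w)) '' E := ⟨x', hx', rfl⟩
      have hm2 : co c z ∈ (fun w : Cube 2 => co c (pt g w)) '' E := ⟨x, hxE, rfl⟩
      have hI1 := co_mem_Icc (pt_mem g x') c
      have hI2 := co_mem_Icc (f := g) (z := z) (pt_mem g x) c
      rw [abs_le]
      constructor
      · by_contra hlt
        push Not at hlt
        obtain ⟨a, ha, haF⟩ := topo_exists_avoid (p := co c z - t / 10) (hcon c)
        rw [sub_add_cancel] at ha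
        have haI : a ∈ Icc (0 : ℝ) 1 := ⟨by linarith [ha.1, hI1.1], by linarith [ha.2, hI2.2]⟩
        have haE : a ∈ (fun w : Cube 2 => co c (pt g w)) '' E :=
          hord.out hm1 hm2 ⟨by linarith [ha.1], ha.2.le⟩
        obtain ⟨w, hw, hwa⟩ := haE
        exact topo_avoid g z t h1 E hEo hEO' c a haI haF w hw hwa
      · by_contra hlt
        push Not at hlt
        obtain ⟨a, ha, haF⟩ := topo_exists_avoid (p := co c z) (hcon c)
        have haI : a ∈ Icc (0 : ℝ) 1 := ⟨by linarith [ha.1, hI2.1], by linarith [ha.2, hI1.2]⟩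
        have haE : a ∈ (fun w : Cube 2 => co c (pt g w)) '' E :=
          hord.out hm2 hm1 ⟨ha.1.le, by linarith [ha.2]⟩
        obtain ⟨w, hw, hwa⟩ := haE
        exact topo_avoid g z t h1 E hEo hEO' c a haI haF w hw hwa
    have hclE : closure E ⊆ E := by
      intro x' hx'
      refine hcl x' hx' fun c => ?_
      have h2 : closure E ⊆ {x' | |co c (pt g x') - co c z| ≤ t / 10} := by
        apply closure_minimal
        · intro w hw
          exact hclaim w hw c
        · exact isClosed_le (hcont c) continuous_const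
      have h3 : |co c (pt g x') - co c z| ≤ t / 10 := h2 hx'
      linarith
    have hclopen : IsClopen E := ⟨closure_subset_iff_isClosed.1 hclE, hEo⟩
    have huniv : E = univ := hclopen.eq_univ ⟨x, hxE⟩
    have hp0 := hEO' (cl (mk2 0 0 0)) (by rw [huniv]; exact mem_univ _) (false, 0)
    have hp1 := hEO' (cl (mk2 0 1 0)) (by rw [huniv]; exact mem_univ _) (false, 0)
    have e0 := (co_curveS (f := g) (i := 0) (s := 0) (u := 0) ⟨le_rfl, zero_le_one⟩
      ⟨le_rfl, zero_le_one⟩).1
    have e1 := (co_curveS (f := g) (i := 0) (s := 1) (u := 0) ⟨zero_le_one, le_rfl⟩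
      ⟨le_rfl, zero_le_one⟩).1
    unfold curveS at e0 e1
    rw [e0] at hp0
    rw [e1] at hp1
    rw [abs_lt] at hp0 hp1
    linarith [hp0.1, hp0.2, hp1.1, hp1.2]

end Pool.Agent.MP_ccb05f_an.G2
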